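import Pool.Agent.R993.LP.A2

/-! # Fractional moments, part 3: pointwise bounds -/

namespace Pool.Agent.R993.LP

open MeasureTheory Filter Topology
open scoped ENNReal

theorem cov {δ : ℝ} (hδ : 0 < δ) {g : ℝ → ℝ≥0∞} (hg : Measurable g) (x : ℝ) :
    ∫⁻ t, g (x - δ * t) = (ENNReal.ofReal δ)⁻¹ * ∫⁻ y, g y := by
  have h2 := lintegral_image_eq_lintegral_abs_deriv_mul (s := Set.univ)
    (f := fun t : ℝ => x - δ * t) (f' := fun _ => -δ) MeasurableSet.univ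
    (fun t _ => by
      have : HasDerivAt (fun t : ℝ => x - δ * t) (0 - δ * 1) t :=
        (hasDerivAt_const t x).sub ((hasDerivAt_id t).const_mul δ)
      have h2 : HasDerivAt (fun t : ℝ => x - δ * t) (-δ) t := by simpa using this
      exact h2.hasDerivWithinAt)
    (by
      intro a _ b _ hab
      simp only at hab
      have : δ * a = δ * b := by linarith
      exact mul_left_cancel₀ hδ.ne' this) g
  have h3 : (fun t : ℝ => x - δ * t) '' Set.univ = Set.univ := by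
    rw [Set.image_univ]
    apply Set.range_eq_univ.mpr
    intro y
    exact ⟨(x - y) / δ, by field_simp; ring⟩
  rw [h3, Measure.restrict_univ] at h2
  rw [h2, abs_neg, abs_of_pos hδ, lintegral_const_mul _ (by fun_prop), ← mul_assoc,
    ENNReal.inv_mul_cancel (by simpa using hδ) (by simp), one_mul]

/-- inverse of the norm -/
noncomputable def F0 (w : ℝ × ℝ) : ℝ≥0∞ := ‖w‖ₑ⁻¹

theorem measurable_F0 : Measurable F0 := by
  unfold F0
  exact measurable_enorm.inv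

theorem hom_F0 : Hom F0 := by
  intro l hl x y
  unfold F0
  have : ((l * x, l * y) : ℝ × ℝ) = l • (x, y) := rfl
  rw [this, enorm_smul, ENNReal.mul_inv (Or.inl (by simpa using hl)) (Or.inl (by simp))]

theorem G_F0 : G F0 ≠ ⊤ := by
  have hi : Integrable (fun y : ℝ => 2 * (1 + y ^ 2)⁻¹) := integrable_inv_one_add_sq.const_mul 2
  have h1 : G F0 ≤ ∫⁻ y : ℝ, ENNReal.ofReal (2 * (1 + y ^ 2)⁻¹) := by
    unfold G F0
    apply lintegral_mono
    intro y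
    show (‖((y, 1) : ℝ × ℝ)‖ₑ⁻¹) ^ 2 ≤ ENNReal.ofReal (2 * (1 + y ^ 2)⁻¹)
    have hn : ‖((y, 1) : ℝ × ℝ)‖ = max |y| 1 := by
      rw [Prod.norm_def]; simp
    have hpos : 0 < max |y| 1 := lt_max_of_lt_right one_pos
    rw [← ofReal_norm, hn, ← ENNReal.ofReal_inv_of_pos hpos,
      ← ENNReal.ofReal_pow (by positivity)]
    apply ENNReal.ofReal_le_ofReal
    rw [inv_pow, ← div_eq_mul_inv, inv_le_comm₀ (by positivity) (by positivity), inv_div]
    have h2 : |y| ≤ max |y| 1 := le_max_left _ _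
    have h3 : 1 ≤ max |y| 1 := le_max_right _ _
    have h4 : y ^ 2 ≤ (max |y| 1) ^ 2 := by rw [← sq_abs]; gcongr
    have h5 : (1:ℝ) ≤ (max |y| 1) ^ 2 := one_le_pow₀ h3
    linarith
  exact ne_top_of_le_ne_top hi.lintegral_lt_top.ne h1

theorem inv_bound {C x : ℝ} {v : ℝ × ℝ} (hC : 0 < C) (h : ‖v‖ ≤ C * |x|) :
    ‖x‖ₑ⁻¹ ≤ ENNReal.ofReal C * ‖v‖ₑ⁻¹ := by
  have h1 : ‖v‖ₑ ≤ ENNReal.ofReal C * ‖x‖ₑ := by
    rw [← ofReal_norm, Real.enorm_eq_ofReal_abs, ← ENNReal.ofReal_mul hC.le]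
    exact ENNReal.ofReal_le_ofReal h
  have hC0 : ENNReal.ofReal C ≠ 0 := by simpa using hC
  calc ‖x‖ₑ⁻¹ = ENNReal.ofReal C * (ENNReal.ofReal C * ‖x‖ₑ)⁻¹ := by
        rw [ENNReal.mul_inv (Or.inl hC0) (Or.inl (by simp)), ← mul_assoc,
          ENNReal.mul_inv_cancel hC0 (by simp), one_mul]
    _ ≤ ENNReal.ofReal C * ‖v‖ₑ⁻¹ := by gcongr

/-- second alternative: the vector is almost vertical -/
theorem step_lower {M δ a t : ℝ} (hM : 0 ≤ M) (hδ : 0 < δ) (hδ1 : δ ≤ 1) (ha : |a| ≤ M)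
    (ht : t ∈ Set.Icc (-1 : ℝ) 2) {v : ℝ × ℝ} (h : 2 * (M + 3) * |v.1| < ‖v‖) :
    ‖v‖ ≤ 2 * |(a - δ * t) * v.1 - v.2| := by
  have h1 : ‖v‖ = |v.2| := by
    rw [Prod.norm_def, Real.norm_eq_abs, Real.norm_eq_abs] at h ⊢
    apply max_eq_right
    by_contra hlt
    push Not at hlt
    rw [max_eq_left hlt.le] at h
    nlinarith [abs_nonneg v.1]
  have h2 : |a - δ * t| ≤ M + 2 := by
    have h3 : |δ * t| ≤ 2 := by
      rw [abs_mul, abs_of_pos hδ]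
      have : |t| ≤ 2 := abs_le.mpr ⟨by linarith [ht.1], ht.2⟩
      nlinarith [abs_nonneg t]
    exact (abs_sub _ _).trans (by linarith)
  have h3 : |v.2| ≤ |(a - δ * t) * v.1 - v.2| + |(a - δ * t) * v.1| := by
    have := abs_sub ((a - δ * t) * v.1) ((a - δ * t) * v.1 - v.2)
    rw [sub_sub_cancel] at this
    linarith
  rw [abs_mul] at h3
  have h4 : |a - δ * t| * |v.1| ≤ (M + 2) * |v.1| :=
    mul_le_mul_of_nonneg_right h2 (abs_nonneg _)
  nlinarith [abs_nonneg v.1]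

theorem sqrt_le {x y : ℝ≥0∞} (h : x ^ 2 ≤ y) : x ≤ y ^ (1 / 2 : ℝ) := by
  have h1 := ENNReal.rpow_le_rpow h (show (0:ℝ) ≤ 1 / 2 by norm_num)
  rwa [← ENNReal.rpow_two, ← ENNReal.rpow_mul, show (2:ℝ) * (1 / 2) = 1 by norm_num,
    ENNReal.rpow_one] at h1

/-- one step -/
theorem one_step {δ c : ℝ} (hδ : 0 < δ) {F : ℝ × ℝ → ℝ≥0∞} (hFm : Measurable F) (hF : Hom F)
    {v : ℝ × ℝ} (hv : v.1 ≠ 0) :
    avg δ c F v ≤ ‖v.1‖ₑ⁻¹ * ((ENNReal.ofReal δ)⁻¹ * G F) ^ (1 / 2 : ℝ) := by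
  have h1 := avg_eq (δ := δ) (c := c) hF hv v.2
  rw [show ((v.1, v.2) : ℝ × ℝ) = v from rfl] at h1
  rw [h1]
  gcongr
  exact sqrt_le (K_sup hδ (measurable_slice hFm) _)

/-- two steps -/
theorem two_step {M δ a b : ℝ} (hM : 0 ≤ M) (hδ : 0 < δ) (hδ1 : δ ≤ 1) (ha : |a| ≤ M)
    {F : ℝ × ℝ → ℝ≥0∞} (hFm : Measurable F) (hF : Hom F) {v : ℝ × ℝ} (hv : v ≠ 0) :
    avg δ a (avg δ b F) v ≤
      ENNReal.ofReal (2 * (M + 3)) * ‖v‖ₑ⁻¹ * ((ENNReal.ofReal δ)⁻¹ * G F) ^ (1 / 2 : ℝ) := by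
  have hC : 0 < 2 * (M + 3) := by linarith
  have hvn : 0 < ‖v‖ := norm_pos_iff.mpr hv
  by_cases h : 2 * (M + 3) * |v.1| < ‖v‖
  · -- second case
    have h1 : ∀ᵐ t ∂law, avg δ b F (stp (a - δ * t) v) ≤
        ENNReal.ofReal (2 * (M + 3)) * ‖v‖ₑ⁻¹ * ((ENNReal.ofReal δ)⁻¹ * G F) ^ (1 / 2 : ℝ) := by
      filter_upwards [ae_law] with t ht
      have h2 := step_lower hM hδ hδ1 ha ht h
      have h3 : (stp (a - δ * t) v).1 ≠ 0 := by
        intro h0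
        change (a - δ * t) * v.1 - v.2 = 0 at h0
        rw [h0, abs_zero] at h2
        linarith
      refine (one_step hδ hFm hF h3).trans ?_
      gcongr
      apply inv_bound hC
      show ‖v‖ ≤ 2 * (M + 3) * |(a - δ * t) * v.1 - v.2|
      have := abs_nonneg ((a - δ * t) * v.1 - v.2)
      nlinarith
    calc avg δ a (avg δ b F) v = ∫⁻ t, avg δ b F (stp (a - δ * t) v) ∂law := rfl
      _ ≤ ∫⁻ t, ENNReal.ofReal (2 * (M + 3)) * ‖v‖ₑ⁻¹ *
          ((ENNReal.ofReal δ)⁻¹ * G F) ^ (1 / 2 : ℝ) ∂law := lintegral_mono_ae h1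
      _ = _ := by simp
  · push Not at h
    have hv1 : v.1 ≠ 0 := by
      intro h0
      rw [h0, abs_zero, mul_zero] at h
      linarith
    refine (one_step hδ (measurable_avg hFm) (hom_avg hF) hv1).trans ?_
    have h2 := inv_bound (v := v) hC h
    have h3 := G_avg_le (δ := δ) (c := b) hFm hF
    gcongr

theorem det_step {M δ a : ℝ} (hM : 0 ≤ M) (hδ : 0 < δ) (hδ1 : δ ≤ 1) (ha : |a| ≤ M)
    (v : ℝ × ℝ) : avg δ a F0 v ≤ ENNReal.ofReal (2 * (M + 3)) * ‖v‖ₑ⁻¹ := by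
  have hC : 0 < 2 * (M + 3) := by linarith
  have h1 : ∀ᵐ t ∂law, F0 (stp (a - δ * t) v) ≤ ENNReal.ofReal (2 * (M + 3)) * ‖v‖ₑ⁻¹ := by
    filter_upwards [ae_law] with t ht
    unfold F0
    have h3 : ‖v‖ ≤ 2 * (M + 3) * |‖stp (a - δ * t) v‖| := by
      rw [abs_of_nonneg (norm_nonneg _)]
      by_cases h : 2 * (M + 3) * |v.1| < ‖v‖
      · have h2 := step_lower hM hδ hδ1 ha ht h
        have h4 : |(a - δ * t) * v.1 - v.2| ≤ ‖stp (a - δ * t) v‖ := by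
          rw [Prod.norm_def]; exact le_max_left _ _
        have := norm_nonneg (stp (a - δ * t) v)
        nlinarith
      · push Not at h
        have h4 : |v.1| ≤ ‖stp (a - δ * t) v‖ := by
          rw [Prod.norm_def]; exact le_max_right _ _
        nlinarith
    have h5 := inv_bound hC h3
    rwa [enorm_norm] at h5
  calc avg δ a F0 v = ∫⁻ t, F0 (stp (a - δ * t) v) ∂law := rfl
    _ ≤ ∫⁻ t, ENNReal.ofReal (2 * (M + 3)) * ‖v‖ₑ⁻¹ ∂law := lintegral_mono_ae h1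
    _ = _ := by simp

/-- exponential decay for the inverse norm -/
theorem decay_F0 {δ M : ℝ} (hδ : 0 < δ) (hδ1 : δ ≤ 1) (hM : 0 ≤ M) :
    ∃ C p : ℝ≥0∞, C ≠ ⊤ ∧ 1 ≤ C ∧ 0 < p ∧ p < 1 ∧ ∀ c : ℕ → ℝ, (∀ i, |c i| ≤ M) → ∀ n : ℕ,
      ∀ v : ℝ × ℝ, v ≠ 0 → iter δ n c F0 v ≤ C * p ^ n * ‖v‖ₑ⁻¹ := by
  obtain ⟨q, hq0, hq1, hcon⟩ := contraction hδ hδ1
  set s := Real.sqrt q with hs
  have hs0 : 0 < s := Real.sqrt_pos.mpr hq0
  have hs1 : s < 1 := by rw [hs, Real.sqrt_lt' one_pos]; simpa using hq1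
  set p := Real.sqrt s with hp
  have hp0 : 0 < p := Real.sqrt_pos.mpr hs0
  have hp1 : p < 1 := by rw [hp, Real.sqrt_lt' one_pos]; simpa using hs1
  set C1 := ENNReal.ofReal (2 * (M + 3)) with hC1
  set P := ENNReal.ofReal p with hP
  have hP0 : P ≠ 0 := by simpa [hP] using hp0
  have hPt : P ≠ ⊤ := by simp [hP]
  set L := ((ENNReal.ofReal δ)⁻¹ * (ENNReal.ofReal s⁻¹ * G F0)) ^ (1 / 2 : ℝ) with hL
  have hLt : L ≠ ⊤ := by
    apply ENNReal.rpow_ne_top_of_nonneg (by norm_num)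
    exact ENNReal.mul_ne_top (by simpa using hδ) (ENNReal.mul_ne_top (by simp) G_F0)
  refine ⟨C1 * L * (P⁻¹) ^ 2 + 1 + C1 * P⁻¹, P, ?_, ?_, ?_, ?_, ?_⟩
  · have h1 : P⁻¹ ≠ ⊤ := by simpa using hP0
    have h2 : (P⁻¹) ^ 2 ≠ ⊤ := ENNReal.pow_ne_top h1
    have h3 : C1 ≠ ⊤ := ENNReal.ofReal_ne_top
    exact ENNReal.add_ne_top.mpr ⟨ENNReal.add_ne_top.mpr
      ⟨ENNReal.mul_ne_top (ENNReal.mul_ne_top h3 hLt) h2, by simp⟩, ENNReal.mul_ne_top h3 h1⟩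
  · exact le_trans le_add_self le_self_add
  · exact pos_iff_ne_zero.mpr hP0
  · rw [hP, ← ENNReal.ofReal_one, ENNReal.ofReal_lt_ofReal_iff one_pos]; exact hp1
  intro c hc n v hv
  rcases n with _ | _ | n
  · simp only [iter, pow_zero, mul_one]
    unfold F0
    calc ‖v‖ₑ⁻¹ = 1 * ‖v‖ₑ⁻¹ := (one_mul _).symm
      _ ≤ _ := by
        gcongr
        exact le_trans le_add_self le_self_add
  · simp only [iter, zero_add, pow_one]
    refine (det_step hM hδ hδ1 (hc 0) v).trans ?_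
    gcongr
    calc C1 = C1 * P⁻¹ * P := by rw [mul_assoc, ENNReal.inv_mul_cancel hP0 hPt, mul_one]
      _ ≤ _ := by gcongr; exact le_add_self
  · show avg δ (c 0) (avg δ (c 1) (iter δ n (fun i => c (i + 1 + 1)) F0)) v ≤ _
    refine (two_step hM hδ hδ1 (hc 0) (iter_meas n _ measurable_F0) (iter_hom n _ hom_F0)
      hv).trans ?_
    have h1 := G_iter hcon measurable_F0 hom_F0 n (fun i => c (i + 1 + 1))
    have h2 : ENNReal.ofReal q ^ (n / 2) ≤ ENNReal.ofReal s⁻¹ * ENNReal.ofReal s ^ n := by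
      rw [← ENNReal.ofReal_pow hq0.le, ← ENNReal.ofReal_pow hs0.le,
        ← ENNReal.ofReal_mul (by positivity)]
      apply ENNReal.ofReal_le_ofReal
      have h3 : q ^ (n / 2) * s ≤ s ^ n := by
        have h4 : q = s ^ 2 := (Real.sq_sqrt hq0.le).symm
        rw [h4, ← pow_mul, ← pow_succ]
        exact pow_le_pow_of_le_one hs0.le hs1.le (by omega)
      rw [inv_mul_eq_div, le_div_iff₀ hs0]
      exact h3
    have h3 : ((ENNReal.ofReal δ)⁻¹ * G (iter δ n (fun i => c (i + 1 + 1)) F0)) ^ (1 / 2 : ℝ)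
        ≤ L * P ^ n := by
      have h4 : (ENNReal.ofReal s ^ n) ^ (1 / 2 : ℝ) = P ^ n := by
        rw [← ENNReal.rpow_natCast, ← ENNReal.rpow_mul, mul_comm, ENNReal.rpow_mul,
          ENNReal.rpow_natCast, hP, hp, Real.sqrt_eq_rpow,
          ENNReal.ofReal_rpow_of_pos hs0]
      rw [hL, ← h4, ← ENNReal.mul_rpow_of_nonneg _ _ (by norm_num)]
      apply ENNReal.rpow_le_rpow _ (by norm_num)
      calc (ENNReal.ofReal δ)⁻¹ * G (iter δ n (fun i => c (i + 1 + 1)) F0)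
          ≤ (ENNReal.ofReal δ)⁻¹ * ((ENNReal.ofReal s⁻¹ * ENNReal.ofReal s ^ n) * G F0) := by
            gcongr
            exact h1.trans (by gcongr)
        _ = _ := by ring
    calc C1 * ‖v‖ₑ⁻¹ * ((ENNReal.ofReal δ)⁻¹ * G (iter δ n (fun i => c (i + 1 + 1)) F0)) ^
          (1 / 2 : ℝ) ≤ C1 * ‖v‖ₑ⁻¹ * (L * P ^ n) := by gcongr
      _ = (C1 * L * (P⁻¹) ^ 2) * P ^ (n + 1 + 1) * ‖v‖ₑ⁻¹ := by
          have h5 : (P⁻¹) ^ 2 * P ^ (n + 1 + 1) = P ^ n := by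
            rw [show n + 1 + 1 = 2 + n by ring, pow_add, ← mul_assoc, ← mul_pow,
              ENNReal.inv_mul_cancel hP0 hPt, one_pow, one_mul]
          rw [mul_assoc (C1 * L), h5]
          ring
      _ ≤ _ := by
          gcongr
          exact le_trans le_self_add le_self_add

/-! ### the last step -/

theorem iter_last {δ : ℝ} (n : ℕ) : ∀ (c : ℕ → ℝ) (F : ℝ × ℝ → ℝ≥0∞),
    iter δ (n + 1) c F = iter δ n c (avg δ (c n) F) := by
  induction n with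
  | zero => intro c F; rfl
  | succ n ih =>
    intro c F
    show avg δ (c 0) (iter δ (n + 1) (fun i => c (i + 1)) F) = avg δ (c 0) _
    rw [ih]

theorem iter_mono {δ : ℝ} (n : ℕ) : ∀ (c : ℕ → ℝ) {F F' : ℝ × ℝ → ℝ≥0∞}, (∀ w, F w ≤ F' w) →
    ∀ v, iter δ n c F v ≤ iter δ n c F' v := by
  induction n with
  | zero => intro c F F' h v; exact h v
  | succ n ih =>
    intro c F F' h v
    exact lintegral_mono fun t => ih _ h _

theorem iter_const {δ : ℝ} (n : ℕ) : ∀ (c : ℕ → ℝ) (F : ℝ × ℝ → ℝ≥0∞) {r : ℝ≥0∞}, r ≠ ⊤ →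
    iter δ n c (fun w => r * F w) = fun w => r * iter δ n c F w := by
  induction n with
  | zero => intro c F r _; rfl
  | succ n ih =>
    intro c F r hr
    funext v
    show avg δ (c 0) (iter δ n (fun i => c (i + 1)) (fun w => r * F w)) v = _
    rw [ih _ F hr]
    exact lintegral_const_mul' _ _ hr

theorem avg_sqrt {δ c : ℝ} {F : ℝ × ℝ → ℝ≥0∞} (hF : Measurable F) (v : ℝ × ℝ) :
    avg δ c (fun w => F w ^ (1 / 2 : ℝ)) v ≤ (avg δ c F v) ^ (1 / 2 : ℝ) := by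
  apply sqrt_le
  unfold avg
  have hm : Measurable (fun t => F (stp (c - δ * t) v)) := by
    unfold stp
    fun_prop
  refine (sq_jensen law (hm.pow_const _).aemeasurable).trans (le_of_eq ?_)
  apply lintegral_congr
  intro t
  rw [← ENNReal.rpow_two, ← ENNReal.rpow_mul]
  norm_num

theorem iter_sqrt {δ : ℝ} (n : ℕ) : ∀ (c : ℕ → ℝ) {F : ℝ × ℝ → ℝ≥0∞}, Measurable F → ∀ v,
    iter δ n c (fun w => F w ^ (1 / 2 : ℝ)) v ≤ (iter δ n c F v) ^ (1 / 2 : ℝ) := by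
  induction n with
  | zero => intro c F _ v; exact le_rfl
  | succ n ih =>
    intro c F hF v
    refine le_trans ?_ (avg_sqrt (iter_meas n _ hF) v)
    exact lintegral_mono fun t => ih _ hF _

/-- the weight `|s|^(-1/2)` -/
noncomputable def phi (s : ℝ) : ℝ≥0∞ := (‖s‖ₑ⁻¹) ^ (1 / 2 : ℝ)

theorem measurable_phi : Measurable phi := by
  unfold phi
  exact (measurable_enorm.inv).pow_const _

theorem phi_pos_side : ∫⁻ s in Set.Icc (0 : ℝ) 1, phi s ≠ ⊤ := by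
  have h1 : IntervalIntegrable (fun x : ℝ => x ^ (-(1 / 2) : ℝ)) volume 0 1 :=
    intervalIntegral.intervalIntegrable_rpow' (by norm_num)
  rw [intervalIntegrable_iff_integrableOn_Ioc_of_le zero_le_one] at h1
  have h2 : ∫⁻ s in Set.Ioc (0 : ℝ) 1, ENNReal.ofReal (s ^ (-(1 / 2) : ℝ)) ≠ ⊤ :=
    h1.lintegral_lt_top.ne
  rw [restrict_Ioc_eq_restrict_Icc] at h2
  rw [← restrict_Ioc_eq_restrict_Icc] at h2 ⊢
  convert h2 using 1
  apply setLIntegral_congr_fun measurableSet_Ioc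
  intro s hs
  show phi s = ENNReal.ofReal (s ^ (-(1 / 2) : ℝ))
  unfold phi
  rw [Real.enorm_eq_ofReal_abs, abs_of_pos hs.1, ← ENNReal.ofReal_rpow_of_pos hs.1,
    ENNReal.rpow_neg, ENNReal.inv_rpow]

theorem phi_neg_side : ∫⁻ s in Set.Icc (-1 : ℝ) 0, phi s = ∫⁻ s in Set.Icc (0 : ℝ) 1, phi s := by
  rw [← lintegral_indicator measurableSet_Icc, ← lintegral_indicator measurableSet_Icc,
    ← lintegral_sub_left_eq_self ((Set.Icc (-1 : ℝ) 0).indicator phi) 0]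
  apply lintegral_congr
  intro x
  by_cases hx : x ∈ Set.Icc (0 : ℝ) 1
  · have hx' : 0 - x ∈ Set.Icc (-1 : ℝ) 0 := ⟨by linarith [hx.2], by linarith [hx.1]⟩
    rw [Set.indicator_of_mem hx, Set.indicator_of_mem hx']
    unfold phi
    rw [zero_sub, enorm_neg]
  · have hx' : 0 - x ∉ Set.Icc (-1 : ℝ) 0 := fun h => hx ⟨by linarith [h.2], by linarith [h.1]⟩
    rw [Set.indicator_of_notMem hx, Set.indicator_of_notMem hx']

theorem phi_int : ∫⁻ s in Set.Icc (-1 : ℝ) 1, phi s ≠ ⊤ := by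
  have h1 : Set.Icc (-1 : ℝ) 1 ⊆ Set.Icc (-1 : ℝ) 0 ∪ Set.Icc (0 : ℝ) 1 := by
    intro x hx
    rcases le_total x 0 with h | h
    · exact Or.inl ⟨hx.1, h⟩
    · exact Or.inr ⟨h, hx.2⟩
  have h2 : ∫⁻ s in Set.Icc (-1 : ℝ) 1, phi s ≤ (∫⁻ s in Set.Icc (-1 : ℝ) 0, phi s) +
      ∫⁻ s in Set.Icc (0 : ℝ) 1, phi s :=
    (lintegral_mono_set h1).trans (lintegral_union_le _ _ _)
  rw [phi_neg_side] at h2
  exact ne_top_of_le_ne_top (ENNReal.add_ne_top.mpr ⟨phi_pos_side, phi_pos_side⟩) h2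

/-- the averaged weight is bounded -/
theorem phi_avg {δ : ℝ} (hδ : 0 < δ) (y : ℝ) :
    ∫⁻ t, phi (y - δ * t) ∂law ≤
      1 + (ENNReal.ofReal δ)⁻¹ * ∫⁻ s in Set.Icc (-1 : ℝ) 1, phi s := by
  set ψ : ℝ → ℝ≥0∞ := (Set.Icc (-1 : ℝ) 1).indicator phi with hψ
  have hψm : Measurable ψ := measurable_phi.indicator measurableSet_Icc
  have h1 : ∀ s, phi s ≤ 1 + ψ s := by
    intro s
    by_cases hs : s ∈ Set.Icc (-1 : ℝ) 1
    · rw [hψ, Set.indicator_of_mem hs]; exact le_add_self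
    · refine le_trans ?_ le_self_add
      unfold phi
      apply ENNReal.rpow_le_one _ (by norm_num)
      rw [ENNReal.inv_le_one, Real.enorm_eq_ofReal_abs, ← ENNReal.ofReal_one]
      apply ENNReal.ofReal_le_ofReal
      rw [Set.mem_Icc, not_and_or, not_le, not_le] at hs
      rcases hs with h | h
      · rw [abs_of_neg (by linarith)]; linarith
      · rw [abs_of_pos (by linarith)]; linarith
  calc ∫⁻ t, phi (y - δ * t) ∂law ≤ ∫⁻ t, (1 + ψ (y - δ * t)) ∂law :=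
        lintegral_mono fun t => h1 _
    _ = 1 + ∫⁻ t, ψ (y - δ * t) ∂law := by
        rw [lintegral_add_left measurable_const]; simp
    _ ≤ 1 + ∫⁻ t, ψ (y - δ * t) := by
        refine add_le_add le_rfl ?_
        have hmm : Measurable (fun t : ℝ => y - δ * t) := by fun_prop
        exact lintegral_law_le (F := fun t => ψ (y - δ * t)) (hψm.comp hmm)
    _ = _ := by rw [cov hδ hψm, hψ, lintegral_indicator measurableSet_Icc]

theorem hs_eq (w : ℝ × ℝ) : hs w = phi w.1 := by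
  unfold hs phi
  rw [ENNReal.rpow_neg, ENNReal.inv_rpow]

theorem phi_mul (x y : ℝ) (hx : x ≠ 0) : phi (x * y) = phi x * phi y := by
  unfold phi
  rw [enorm_mul, ENNReal.mul_inv (Or.inl (by simpa using hx)) (Or.inl (by simp)),
    ENNReal.mul_rpow_of_nonneg _ _ (by norm_num)]

/-- last step -/
theorem last_step {δ M : ℝ} (hδ : 0 < δ) (hδ1 : δ ≤ 1) (hM : 0 ≤ M) :
    ∃ C : ℝ≥0∞, C ≠ ⊤ ∧ 1 ≤ C ∧ ∀ a, |a| ≤ M → ∀ w : ℝ × ℝ,
      avg δ a hs w ≤ C * (F0 w) ^ (1 / 2 : ℝ) := by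
  set C1 := (ENNReal.ofReal (2 * (M + 3))) ^ (1 / 2 : ℝ) with hC1
  set C4 := 1 + (ENNReal.ofReal δ)⁻¹ * ∫⁻ s in Set.Icc (-1 : ℝ) 1, phi s with hC4
  have hC4t : C4 ≠ ⊤ := ENNReal.add_ne_top.mpr ⟨by simp, ENNReal.mul_ne_top (by simpa using hδ)
    phi_int⟩
  have hC41 : 1 ≤ C4 := le_self_add
  have hC1t : C1 ≠ ⊤ := ENNReal.rpow_ne_top_of_nonneg (by norm_num) ENNReal.ofReal_ne_top
  have hC11 : 1 ≤ C1 := by
    apply ENNReal.one_le_rpow _ (by norm_num)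
    rw [← ENNReal.ofReal_one]
    exact ENNReal.ofReal_le_ofReal (by linarith)
  have hC : 0 < 2 * (M + 3) := by linarith
  refine ⟨C1 * C4, ENNReal.mul_ne_top hC1t hC4t, one_le_mul hC11 hC41, ?_⟩
  intro a ha w
  by_cases hw : w = 0
  · subst hw
    unfold F0
    simp only [enorm_zero, ENNReal.inv_zero]
    rw [ENNReal.top_rpow_of_pos (by norm_num), ENNReal.mul_top]
    · exact le_top
    · exact (lt_of_lt_of_le one_pos (one_le_mul hC11 hC41)).ne'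
  have hwn : 0 < ‖w‖ := norm_pos_iff.mpr hw
  have key : ∀ x : ℝ, ‖w‖ ≤ 2 * (M + 3) * |x| → phi x ≤ C1 * (F0 w) ^ (1 / 2 : ℝ) := by
    intro x hx
    unfold phi F0
    rw [hC1, ← ENNReal.mul_rpow_of_nonneg _ _ (by norm_num)]
    exact ENNReal.rpow_le_rpow (inv_bound hC hx) (by norm_num)
  by_cases h : 2 * (M + 3) * |w.1| < ‖w‖
  · have h1 : ∀ᵐ t ∂law, hs (stp (a - δ * t) w) ≤ C1 * C4 * (F0 w) ^ (1 / 2 : ℝ) := by
      filter_upwards [ae_law] with t ht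
      have h2 := step_lower hM hδ hδ1 ha ht h
      rw [hs_eq]
      refine (key _ ?_).trans ?_
      · show ‖w‖ ≤ 2 * (M + 3) * |(a - δ * t) * w.1 - w.2|
        have := abs_nonneg ((a - δ * t) * w.1 - w.2)
        nlinarith
      · gcongr
        calc C1 = C1 * 1 := (mul_one _).symm
          _ ≤ C1 * C4 := by gcongr
    calc avg δ a hs w = ∫⁻ t, hs (stp (a - δ * t) w) ∂law := rfl
      _ ≤ ∫⁻ t, C1 * C4 * (F0 w) ^ (1 / 2 : ℝ) ∂law := lintegral_mono_ae h1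
      _ = _ := by simp
  · push Not at h
    have hw1 : w.1 ≠ 0 := by
      intro h0
      rw [h0, abs_zero, mul_zero] at h
      linarith
    calc avg δ a hs w = ∫⁻ t, phi w.1 * phi ((a - w.2 / w.1) - δ * t) ∂law := by
          apply lintegral_congr
          intro t
          rw [hs_eq, ← phi_mul _ _ hw1]
          congr 1
          show (a - δ * t) * w.1 - w.2 = w.1 * (a - w.2 / w.1 - δ * t)
          field_simp
          ring
      _ = phi w.1 * ∫⁻ t, phi ((a - w.2 / w.1) - δ * t) ∂law := by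
          have hmm : Measurable (fun t : ℝ => a - w.2 / w.1 - δ * t) := by fun_prop
          exact lintegral_const_mul _ (measurable_phi.comp hmm)
      _ ≤ (C1 * (F0 w) ^ (1 / 2 : ℝ)) * C4 := by
          gcongr
          · exact key _ h
          · exact phi_avg hδ _
      _ = C1 * C4 * (F0 w) ^ (1 / 2 : ℝ) := by ring

/-- **Fractional moment decay.** -/
theorem fm {δ M : ℝ} (hδ : 0 < δ) (hδ1 : δ ≤ 1) (hM : 0 ≤ M) :
    ∃ C q : ℝ≥0∞, C ≠ ⊤ ∧ q < 1 ∧ ∀ c : ℕ → ℝ, (∀ i, |c i| ≤ M) → ∀ n : ℕ, 1 ≤ n →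
      ∀ v : ℝ × ℝ, iter δ n c hs v ≤ C * q ^ n * ‖v‖ₑ ^ (-(1 / 2) : ℝ) := by
  obtain ⟨C, p, hCt, hC1, hp0, hp1, hdec⟩ := decay_F0 hδ hδ1 hM
  obtain ⟨C3, hC3t, hC31, hlast⟩ := last_step hδ hδ1 hM
  set q := p ^ (1 / 2 : ℝ) with hq
  have hq0 : q ≠ 0 := by
    rw [hq]; exact (ENNReal.rpow_pos hp0 (ne_top_of_lt hp1)).ne'
  have hq1 : q < 1 := ENNReal.rpow_lt_one hp1 (by norm_num)
  have hqt : q ≠ ⊤ := ne_top_of_lt hq1
  have hCh0 : C ^ (1 / 2 : ℝ) ≠ 0 :=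
    (lt_of_lt_of_le one_pos (ENNReal.one_le_rpow hC1 (by norm_num))).ne'
  refine ⟨C3 * C ^ (1 / 2 : ℝ) * q⁻¹, q, ?_, hq1, ?_⟩
  · exact ENNReal.mul_ne_top (ENNReal.mul_ne_top hC3t
      (ENNReal.rpow_ne_top_of_nonneg (by norm_num) hCt)) (by simpa using hq0)
  intro c hc n hn v
  by_cases hv : v = 0
  · subst hv
    simp only [enorm_zero]
    rw [ENNReal.zero_rpow_of_neg (by norm_num), ENNReal.mul_top]
    · exact le_top
    · apply mul_ne_zero (mul_ne_zero (mul_ne_zero (lt_of_lt_of_le one_pos hC31).ne' hCh0) _)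
      · exact pow_ne_zero _ hq0
      · simpa using hqt
  obtain ⟨m, rfl⟩ : ∃ m, n = m + 1 := ⟨n - 1, by omega⟩
  rw [iter_last]
  calc iter δ m c (avg δ (c m) hs) v
      ≤ iter δ m c (fun w => C3 * (F0 w) ^ (1 / 2 : ℝ)) v :=
        iter_mono m c (fun w => hlast _ (hc m) w) v
    _ = C3 * iter δ m c (fun w => (F0 w) ^ (1 / 2 : ℝ)) v := by rw [iter_const m c _ hC3t]
    _ ≤ C3 * (iter δ m c F0 v) ^ (1 / 2 : ℝ) := by
        gcongr
        exact iter_sqrt m c measurable_F0 v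
    _ ≤ C3 * (C * p ^ m * ‖v‖ₑ⁻¹) ^ (1 / 2 : ℝ) := by
        gcongr
        exact hdec c hc m v hv
    _ = C3 * C ^ (1 / 2 : ℝ) * q⁻¹ * q ^ (m + 1) * ‖v‖ₑ ^ (-(1 / 2) : ℝ) := by
        rw [ENNReal.mul_rpow_of_nonneg _ _ (by norm_num),
          ENNReal.mul_rpow_of_nonneg _ _ (by norm_num)]
        have h1 : (p ^ m) ^ (1 / 2 : ℝ) = q ^ m := by
          rw [← ENNReal.rpow_natCast, ← ENNReal.rpow_mul, mul_comm, ENNReal.rpow_mul,
            ENNReal.rpow_natCast]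
        have h2 : (‖v‖ₑ⁻¹) ^ (1 / 2 : ℝ) = ‖v‖ₑ ^ (-(1 / 2) : ℝ) := by
          rw [ENNReal.rpow_neg, ENNReal.inv_rpow]
        rw [h1, h2]
        have h3 : q⁻¹ * q ^ (m + 1) = q ^ m := by
          rw [pow_succ', ← mul_assoc, ENNReal.inv_mul_cancel hq0 hqt, one_mul]
        calc C3 * (C ^ (1 / 2 : ℝ) * q ^ m * ‖v‖ₑ ^ (-(1 / 2) : ℝ))
            = C3 * C ^ (1 / 2 : ℝ) * (q ^ m) * ‖v‖ₑ ^ (-(1 / 2) : ℝ) := by ring
          _ = C3 * C ^ (1 / 2 : ℝ) * (q⁻¹ * q ^ (m + 1)) * ‖v‖ₑ ^ (-(1 / 2) : ℝ) := by rw [h3]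
          _ = _ := by ring

end Pool.Agent.R993.LP
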