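import Pool.Agent.R993.LP.Defs

/-! # Fractional moments, part 1: the site law and the averaging operator -/

namespace Pool.Agent.R993.LP

open MeasureTheory Filter Topology
open scoped ENNReal

section ennreal

theorem sq_jensen {α : Type*} [MeasurableSpace α] (μ : Measure α) [IsProbabilityMeasure μ]
    {f : α → ℝ≥0∞} (hf : AEMeasurable f μ) : (∫⁻ x, f x ∂μ) ^ 2 ≤ ∫⁻ x, (f x) ^ 2 ∂μ := by
  have h := ENNReal.lintegral_mul_le_Lp_mul_Lq μ Real.HolderConjugate.two_two hf
    (aemeasurable_const (b := (1 : ℝ≥0∞)))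
  simp only [Pi.mul_apply, mul_one, lintegral_const, measure_univ,
    ENNReal.rpow_two, one_pow, ENNReal.one_rpow] at h
  calc (∫⁻ x, f x ∂μ) ^ 2 ≤ ((∫⁻ x, (f x) ^ 2 ∂μ) ^ (1 / 2 : ℝ)) ^ 2 := by gcongr
    _ = ∫⁻ x, (f x) ^ 2 ∂μ := by
        rw [← ENNReal.rpow_two, ← ENNReal.rpow_mul]; norm_num

theorem add_sq_le (x y : ℝ≥0∞) : (x + y) ^ 2 ≤ 2 * x ^ 2 + 2 * y ^ 2 := by
  have h := ENNReal.rpow_add_le_mul_rpow_add_rpow x y (p := 2) (by norm_num)
  have e : (2 : ℝ) - 1 = 1 := by norm_num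
  rw [e, ENNReal.rpow_one, ENNReal.rpow_two, ENNReal.rpow_two, ENNReal.rpow_two] at h
  rw [← mul_add]
  exact h

/-- distance in `[0,∞]` -/
noncomputable def D (a b : ℝ≥0∞) : ℝ≥0∞ := (a - b) + (b - a)

theorem D_tri (a b c : ℝ≥0∞) : D a c ≤ D a b + D b c := by
  unfold D
  have h1 : a - c ≤ (a - b) + (b - c) := tsub_le_tsub_add_tsub
  have h2 : c - a ≤ (c - b) + (b - a) := tsub_le_tsub_add_tsub
  calc (a - c) + (c - a) ≤ ((a - b) + (b - c)) + ((c - b) + (b - a)) := add_le_add h1 h2
    _ = _ := by ring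

theorem le_D (a b : ℝ≥0∞) : a ≤ b + D a b := by
  unfold D
  calc a ≤ b + (a - b) := le_add_tsub
    _ ≤ _ := by gcongr; exact le_self_add

theorem sq_le_D (a b : ℝ≥0∞) : a ^ 2 ≤ 2 * b ^ 2 + 2 * (D a b) ^ 2 :=
  (pow_le_pow_left' (le_D a b) 2).trans (add_sq_le _ _)

theorem D_sq_tri (a b c : ℝ≥0∞) : (D a c) ^ 2 ≤ 2 * (D a b) ^ 2 + 2 * (D b c) ^ 2 :=
  (pow_le_pow_left' (D_tri a b c) 2).trans (add_sq_le _ _)

theorem D_ofReal {x y : ℝ} (hx : 0 ≤ x) (hy : 0 ≤ y) :
    D (ENNReal.ofReal x) (ENNReal.ofReal y) = ENNReal.ofReal |x - y| := by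
  unfold D
  rw [← ENNReal.ofReal_sub _ hy, ← ENNReal.ofReal_sub _ hx]
  rcases le_total x y with h | h
  · rw [ENNReal.ofReal_of_nonpos (by linarith : x - y ≤ 0), zero_add, abs_of_nonpos (by linarith)]
    congr 1; ring
  · rw [ENNReal.ofReal_of_nonpos (by linarith : y - x ≤ 0), add_zero, abs_of_nonneg (by linarith)]

theorem par (a b : ℝ≥0∞) : (2⁻¹ * (a + b)) ^ 2 + 4⁻¹ * (D a b) ^ 2 ≤ 2⁻¹ * (a ^ 2 + b ^ 2) := by
  have htop : (2⁻¹ : ℝ≥0∞) * ⊤ = ⊤ := ENNReal.mul_top (by simp)
  by_cases ha : a = ⊤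
  · subst ha; simp [htop]
  by_cases hb : b = ⊤
  · subst hb; simp [htop]
  obtain ⟨x, hx, rfl⟩ : ∃ x : ℝ, 0 ≤ x ∧ ENNReal.ofReal x = a :=
    ⟨a.toReal, ENNReal.toReal_nonneg, ENNReal.ofReal_toReal ha⟩
  obtain ⟨y, hy, rfl⟩ : ∃ y : ℝ, 0 ≤ y ∧ ENNReal.ofReal y = b :=
    ⟨b.toReal, ENNReal.toReal_nonneg, ENNReal.ofReal_toReal hb⟩
  have h2 : (2⁻¹ : ℝ≥0∞) = ENNReal.ofReal (1 / 2) := by
    rw [one_div, ENNReal.ofReal_inv_of_pos (by norm_num)]; norm_num
  have h4 : (4⁻¹ : ℝ≥0∞) = ENNReal.ofReal (1 / 4) := by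
    rw [one_div, ENNReal.ofReal_inv_of_pos (by norm_num)]; norm_num
  rw [D_ofReal hx hy, h2, h4, ← ENNReal.ofReal_add hx hy, ← ENNReal.ofReal_pow hx,
    ← ENNReal.ofReal_pow hy, ← ENNReal.ofReal_pow (abs_nonneg _), ← ENNReal.ofReal_add
    (by positivity) (by positivity), ← ENNReal.ofReal_mul (by norm_num),
    ← ENNReal.ofReal_pow (by positivity), ← ENNReal.ofReal_mul (by norm_num),
    ← ENNReal.ofReal_mul (by norm_num), ← ENNReal.ofReal_add (by positivity) (by positivity)]
  apply ENNReal.ofReal_le_ofReal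
  rw [sq_abs]
  nlinarith

end ennreal

section law

theorem tent_nonneg (t : ℝ) : 0 ≤ tent t := le_max_left _ _

theorem tent_le_one (t : ℝ) : tent t ≤ 1 := by
  unfold tent
  exact max_le (by norm_num) (by linarith [abs_nonneg t])

theorem tent_zero {t : ℝ} (h : 1 ≤ |t|) : tent t = 0 := max_eq_left (by linarith)

theorem continuous_tent : Continuous tent := by
  unfold tent
  fun_prop

theorem rho_nonneg (t : ℝ) : 0 ≤ rho t := by
  unfold rho
  have := tent_nonneg t
  have := tent_nonneg (t - 1)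
  linarith

theorem rho_le_one (t : ℝ) : rho t ≤ 1 := by
  unfold rho
  have := tent_le_one t
  have := tent_le_one (t - 1)
  linarith

theorem continuous_rho : Continuous rho := by
  unfold rho
  have := continuous_tent
  fun_prop

theorem rho_zero {t : ℝ} (h : t ∉ Set.Icc (-1 : ℝ) 2) : rho t = 0 := by
  unfold rho
  rw [Set.mem_Icc, not_and_or, not_le, not_le] at h
  rcases h with h | h
  · rw [tent_zero (by rw [abs_of_neg (by linarith)]; linarith),
      tent_zero (by rw [abs_of_neg (by linarith)]; linarith)]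
    norm_num
  · rw [tent_zero (by rw [abs_of_pos (by linarith)]; linarith),
      tent_zero (by rw [abs_of_pos (by linarith)]; linarith)]
    norm_num

theorem integral_tent : ∫ t, tent t = 1 := by
  have h1 : ∫ t in Set.Ioc (-1 : ℝ) 1, tent t = ∫ t, tent t := by
    apply setIntegral_eq_integral_of_forall_compl_eq_zero
    intro t ht
    rw [Set.mem_Ioc, not_and_or, not_lt, not_le] at ht
    apply tent_zero
    rcases ht with h | h
    · rw [abs_of_nonpos (by linarith)]; linarith
    · rw [abs_of_pos (by linarith)]; linarith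
  rw [← h1, ← intervalIntegral.integral_of_le (by norm_num)]
  have hc : ∀ a b : ℝ, IntervalIntegrable tent volume a b := fun a b =>
    continuous_tent.intervalIntegrable a b
  rw [← intervalIntegral.integral_add_adjacent_intervals (hc (-1) 0) (hc 0 1)]
  have h2 : ∫ t in (-1 : ℝ)..0, tent t = 1 / 2 := by
    have : ∫ t in (-1 : ℝ)..0, tent t = ∫ t in (-1 : ℝ)..0, (1 + t) := by
      apply intervalIntegral.integral_congr
      intro t ht
      rw [Set.uIcc_of_le (by norm_num)] at ht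
      show tent t = 1 + t
      unfold tent
      rw [abs_of_nonpos ht.2, max_eq_right (by linarith [ht.1])]
      ring
    rw [this, intervalIntegral.integral_add (by simp) (by simp)]
    simp
    norm_num
  have h3 : ∫ t in (0 : ℝ)..1, tent t = 1 / 2 := by
    have : ∫ t in (0 : ℝ)..1, tent t = ∫ t in (0 : ℝ)..1, (1 - t) := by
      apply intervalIntegral.integral_congr
      intro t ht
      rw [Set.uIcc_of_le (by norm_num)] at ht
      show tent t = 1 - t
      unfold tent
      rw [abs_of_nonneg ht.1, max_eq_right (by linarith [ht.2])]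
    rw [this, intervalIntegral.integral_sub (by simp) (by simp)]
    simp
    norm_num
  rw [h2, h3]; norm_num

theorem integrable_tent : Integrable tent := by
  apply continuous_tent.integrable_of_hasCompactSupport
  apply HasCompactSupport.intro (isCompact_Icc (a := (-1 : ℝ)) (b := 1))
  intro t ht
  apply tent_zero
  rw [Set.mem_Icc, not_and_or, not_le, not_le] at ht
  rcases ht with h | h
  · rw [abs_of_neg (by linarith)]; linarith
  · rw [abs_of_pos (by linarith)]; linarith

theorem lintegral_tent : ∫⁻ t, ENNReal.ofReal (tent t) = 1 := by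
  rw [← ofReal_integral_eq_lintegral_ofReal integrable_tent (ae_of_all _ tent_nonneg),
    integral_tent, ENNReal.ofReal_one]

/-- the tent law -/
noncomputable def tau : Measure ℝ := volume.withDensity (fun t => ENNReal.ofReal (tent t))

theorem measurable_ofReal_tent : Measurable (fun t => ENNReal.ofReal (tent t)) :=
  continuous_tent.measurable.ennreal_ofReal

theorem measurable_ofReal_rho : Measurable (fun t => ENNReal.ofReal (rho t)) :=
  continuous_rho.measurable.ennreal_ofReal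

instance : IsProbabilityMeasure tau := by
  constructor
  unfold tau
  rw [withDensity_apply _ MeasurableSet.univ, Measure.restrict_univ, lintegral_tent]

theorem lintegral_law {F : ℝ → ℝ≥0∞} (hF : Measurable F) :
    ∫⁻ t, F t ∂law = 2⁻¹ * (∫⁻ t, F t ∂tau + ∫⁻ t, F (t + 1) ∂tau) := by
  unfold law tau
  rw [lintegral_withDensity_eq_lintegral_mul _ measurable_ofReal_rho hF,
    lintegral_withDensity_eq_lintegral_mul _ measurable_ofReal_tent hF,
    lintegral_withDensity_eq_lintegral_mul _ measurable_ofReal_tent (by fun_prop)]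
  simp only [Pi.mul_apply]
  have h1 : ∫⁻ t, ENNReal.ofReal (tent t) * F (t + 1)
      = ∫⁻ t, ENNReal.ofReal (tent (t - 1)) * F t := by
    rw [← lintegral_add_right_eq_self (fun t => ENNReal.ofReal (tent (t - 1)) * F t) 1]
    simp
  have hm1 : Measurable (fun t => ENNReal.ofReal (tent t) * F t) := measurable_ofReal_tent.mul hF
  rw [h1, ← lintegral_add_left hm1, ← lintegral_const_mul]
  · apply lintegral_congr
    intro t
    unfold rho
    rw [ENNReal.ofReal_div_of_pos (by norm_num), ENNReal.ofReal_add (tent_nonneg _)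
      (tent_nonneg _), ENNReal.div_eq_inv_mul, ← add_mul, mul_assoc]
    norm_num
  · have := measurable_ofReal_tent
    have h3 : Measurable (fun t => ENNReal.ofReal (tent (t - 1))) :=
      measurable_ofReal_tent.comp (measurable_id.sub_const 1)
    fun_prop

instance : IsProbabilityMeasure law := by
  constructor
  have h := lintegral_law (F := fun _ => 1) measurable_const
  simp only [lintegral_const, measure_univ, mul_one, one_mul] at h
  rw [h]
  rw [one_add_one_eq_two]
  exact ENNReal.inv_mul_cancel (by norm_num) (by norm_num)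

theorem ae_law : ∀ᵐ t ∂law, t ∈ Set.Icc (-1 : ℝ) 2 := by
  unfold law
  rw [ae_withDensity_iff measurable_ofReal_rho]
  refine ae_of_all _ fun t ht => ?_
  by_contra h
  rw [rho_zero h] at ht
  simp at ht

/-- integral against the law is at most the Lebesgue integral -/
theorem lintegral_law_le {F : ℝ → ℝ≥0∞} (hF : Measurable F) :
    ∫⁻ t, F t ∂law ≤ ∫⁻ t, F t := by
  unfold law
  rw [lintegral_withDensity_eq_lintegral_mul _ measurable_ofReal_rho hF]
  apply lintegral_mono
  intro t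
  simp only [Pi.mul_apply]
  calc ENNReal.ofReal (rho t) * F t ≤ 1 * F t := by
        gcongr
        rw [← ENNReal.ofReal_one]
        exact ENNReal.ofReal_le_ofReal (rho_le_one t)
    _ = F t := one_mul _

end law

section Kop

/-- averaging over the site law -/
noncomputable def K (δ : ℝ) (g : ℝ → ℝ≥0∞) (x : ℝ) : ℝ≥0∞ := ∫⁻ t, g (x - δ * t) ∂law

theorem measurable_K {δ : ℝ} {g : ℝ → ℝ≥0∞} (hg : Measurable g) : Measurable (K δ g) := by
  unfold K
  have : Measurable (fun p : ℝ × ℝ => g (p.1 - δ * p.2)) := by fun_prop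
  exact this.lintegral_prod_right'

/-- `∫ D(g(x), g(x-δ))²` -/
noncomputable def kap (δ : ℝ) (g : ℝ → ℝ≥0∞) : ℝ≥0∞ := ∫⁻ x, (D (g x) (g (x - δ))) ^ 2

theorem measurable_D {α : Type*} [MeasurableSpace α] {f g : α → ℝ≥0∞} (hf : Measurable f)
    (hg : Measurable g) : Measurable (fun x => D (f x) (g x)) := by
  unfold D
  exact (hf.sub hg).add (hg.sub hf)

theorem K_sq {δ : ℝ} {g : ℝ → ℝ≥0∞} (hg : Measurable g) :
    (∫⁻ x, (K δ g x) ^ 2) + 4⁻¹ * kap δ g ≤ ∫⁻ x, (g x) ^ 2 := by
  set B : ℝ → ℝ≥0∞ := fun x => 2⁻¹ * (g x + g (x - δ)) with hB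
  have hBm : Measurable B := by
    have h1 : Measurable (fun x => g (x - δ)) := hg.comp (measurable_id.sub_const δ)
    exact (hg.add h1).const_mul _
  have hKB : ∀ x, K δ g x = ∫⁻ t, B (x - δ * t) ∂tau := by
    intro x
    unfold K
    have h1 : Measurable (fun t => g (x - δ * t)) := by fun_prop
    have h2 : Measurable (fun t => g (x - δ * (t + 1))) := by fun_prop
    have h3 : Measurable (fun t => g (x - δ * t) + g (x - δ * (t + 1))) := h1.add h2
    rw [lintegral_law h1, ← lintegral_add_left h1, ← lintegral_const_mul _ h3]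
    apply lintegral_congr
    intro t
    simp only [hB]
    congr 3
    ring_nf
  have h1 : ∫⁻ x, (K δ g x) ^ 2 ≤ ∫⁻ x, (B x) ^ 2 := by
    calc ∫⁻ x, (K δ g x) ^ 2 ≤ ∫⁻ x, ∫⁻ t, (B (x - δ * t)) ^ 2 ∂tau := by
          apply lintegral_mono
          intro x
          show (K δ g x) ^ 2 ≤ _
          rw [hKB]
          exact sq_jensen tau (by fun_prop)
      _ = ∫⁻ t, (∫⁻ x, (B (x - δ * t)) ^ 2) ∂tau := by
          apply lintegral_lintegral_swap
          have : Measurable (fun p : ℝ × ℝ => (B (p.1 - δ * p.2)) ^ 2) := by fun_prop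
          exact this.aemeasurable
      _ = ∫⁻ t, (∫⁻ x, (B x) ^ 2) ∂tau := by
          apply lintegral_congr
          intro t
          exact lintegral_sub_right_eq_self (fun x => (B x) ^ 2) (δ * t)
      _ = ∫⁻ x, (B x) ^ 2 := by simp
  have h2 : (∫⁻ x, (B x) ^ 2) + 4⁻¹ * kap δ g ≤ ∫⁻ x, (g x) ^ 2 := by
    have hg2 : Measurable (fun x => g (x - δ)) := hg.comp (measurable_id.sub_const δ)
    unfold kap
    rw [← lintegral_const_mul _ ((measurable_D hg hg2).pow_const 2),
      ← lintegral_add_left (hBm.pow_const 2)]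
    calc ∫⁻ x, ((B x) ^ 2 + 4⁻¹ * (D (g x) (g (x - δ))) ^ 2)
        ≤ ∫⁻ x, 2⁻¹ * ((g x) ^ 2 + (g (x - δ)) ^ 2) := lintegral_mono fun x => par _ _
      _ = 2⁻¹ * ((∫⁻ x, (g x) ^ 2) + ∫⁻ x, (g (x - δ)) ^ 2) := by
          have h3 : Measurable (fun x => (g x) ^ 2 + (g (x - δ)) ^ 2) :=
            (hg.pow_const 2).add (hg2.pow_const 2)
          rw [lintegral_const_mul _ h3, lintegral_add_left (hg.pow_const 2)]
      _ = ∫⁻ x, (g x) ^ 2 := by
          rw [lintegral_sub_right_eq_self (fun x => (g x) ^ 2) δ, ← two_mul, ← mul_assoc,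
            ENNReal.inv_mul_cancel (by norm_num) (by norm_num), one_mul]
  calc (∫⁻ x, (K δ g x) ^ 2) + 4⁻¹ * kap δ g ≤ (∫⁻ x, (B x) ^ 2) + 4⁻¹ * kap δ g := by gcongr
    _ ≤ _ := h2

/-- local version -/
theorem K_local {δ : ℝ} (hδ : 0 < δ) (hδ1 : δ ≤ 1) {g : ℝ → ℝ≥0∞} (hg : Measurable g) (c : ℝ) :
    ∫⁻ y in Set.Icc (c - 1) (c + 1), (K δ g y) ^ 2
      ≤ ∫⁻ y in Set.Icc (c - 4) (c + 4), (g y) ^ 2 := by
  calc ∫⁻ y in Set.Icc (c - 1) (c + 1), (K δ g y) ^ 2
      ≤ ∫⁻ y in Set.Icc (c - 1) (c + 1), ∫⁻ t, (g (y - δ * t)) ^ 2 ∂law := by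
        apply lintegral_mono
        intro y
        exact sq_jensen law (by fun_prop)
    _ = ∫⁻ t, (∫⁻ y in Set.Icc (c - 1) (c + 1), (g (y - δ * t)) ^ 2) ∂law := by
        apply lintegral_lintegral_swap
        have : Measurable (fun p : ℝ × ℝ => (g (p.1 - δ * p.2)) ^ 2) := by fun_prop
        exact this.aemeasurable
    _ ≤ ∫⁻ t, (∫⁻ y in Set.Icc (c - 4) (c + 4), (g y) ^ 2) ∂law := by
        apply lintegral_mono_ae
        filter_upwards [ae_law] with t ht
        rw [← lintegral_indicator measurableSet_Icc, ← lintegral_indicator measurableSet_Icc,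
          ← lintegral_sub_right_eq_self ((Set.Icc (c - 4) (c + 4)).indicator
            fun y => (g y) ^ 2) (δ * t)]
        apply lintegral_mono
        intro y
        by_cases hy : y ∈ Set.Icc (c - 1) (c + 1)
        · have h1 : |δ * t| ≤ 2 := by
            rw [abs_mul, abs_of_pos hδ]
            have : |t| ≤ 2 := abs_le.mpr ⟨by linarith [ht.1], ht.2⟩
            nlinarith [abs_nonneg t]
          have h2 := abs_le.mp h1
          have hy' : y - δ * t ∈ Set.Icc (c - 4) (c + 4) :=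
            ⟨by linarith [hy.1, h2.2], by linarith [hy.2, h2.1]⟩
          rw [Set.indicator_of_mem hy]
          show _ ≤ (Set.Icc (c - 4) (c + 4)).indicator (fun y => (g y) ^ 2) (y - δ * t)
          rw [Set.indicator_of_mem hy']
        · rw [Set.indicator_of_notMem hy]
          exact zero_le
    _ = ∫⁻ y in Set.Icc (c - 4) (c + 4), (g y) ^ 2 := by simp

/-- sup bound -/
theorem K_sup {δ : ℝ} (hδ : 0 < δ) {g : ℝ → ℝ≥0∞} (hg : Measurable g) (x : ℝ) :
    (K δ g x) ^ 2 ≤ (ENNReal.ofReal δ)⁻¹ * ∫⁻ y, (g y) ^ 2 := by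
  have h1 : (K δ g x) ^ 2 ≤ ∫⁻ t, (g (x - δ * t)) ^ 2 :=
    (sq_jensen law (by fun_prop)).trans (lintegral_law_le (by fun_prop))
  refine h1.trans ?_
  have h2 := lintegral_image_eq_lintegral_abs_deriv_mul (s := Set.univ)
    (f := fun t : ℝ => x - δ * t) (f' := fun _ => -δ) MeasurableSet.univ
    (fun t _ => by
      have : HasDerivAt (fun t : ℝ => x - δ * t) (0 - δ * 1) t :=
        (hasDerivAt_const t x).sub ((hasDerivAt_id t).const_mul δ)
      have h2 : HasDerivAt (fun t : ℝ => x - δ * t) (-δ) t := by simpa using this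
      exact h2.hasDerivWithinAt)
    (by
      intro a _ b _ hab
      simp only at hab
      have : δ * a = δ * b := by linarith
      exact mul_left_cancel₀ hδ.ne' this) (fun y => (g y) ^ 2)
  have h3 : (fun t : ℝ => x - δ * t) '' Set.univ = Set.univ := by
    rw [Set.image_univ]
    apply Set.range_eq_univ.mpr
    intro y
    exact ⟨(x - y) / δ, by field_simp; ring⟩
  rw [h3, Measure.restrict_univ] at h2
  rw [h2, abs_neg, abs_of_pos hδ, lintegral_const_mul _ (by fun_prop), ← mul_assoc,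
    ENNReal.inv_mul_cancel (by simpa using hδ) (by simp), one_mul]

end Kop

end Pool.Agent.R993.LP
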