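import Pool.Agent.R993.LP.A1

/-! # Fractional moments, part 2: the contraction -/

namespace Pool.Agent.R993.LP

open MeasureTheory Filter Topology
open scoped ENNReal

section mass

theorem kap_shift {δ : ℝ} {g : ℝ → ℝ≥0∞} (hg : Measurable g) (k : ℕ) :
    ∫⁻ x, (D (g x) (g (x + k * δ))) ^ 2 ≤ 4 ^ k * kap δ g := by
  induction k with
  | zero =>
    have : ∀ x, D (g x) (g x) = 0 := by
      intro x
      simp [D]
    simp [this]
  | succ k ih =>
    have h1 : Measurable (fun x => D (g x) (g (x + k * δ))) := measurable_D hg (by fun_prop)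
    have h2 : ∫⁻ x, (D (g (x + k * δ)) (g (x + ((k + 1 : ℕ) : ℝ) * δ))) ^ 2 = kap δ g := by
      have h3 := lintegral_add_right_eq_self (μ := volume) (fun x => (D (g (x - δ)) (g x)) ^ 2)
        (((k + 1 : ℕ) : ℝ) * δ)
      have h4 : ∀ x : ℝ, x + ((k + 1 : ℕ) : ℝ) * δ - δ = x + k * δ := by
        intro x; push_cast; ring
      simp only [h4] at h3
      rw [h3]
      unfold kap
      apply lintegral_congr
      intro x
      unfold D
      rw [add_comm]
    calc ∫⁻ x, (D (g x) (g (x + ((k + 1 : ℕ) : ℝ) * δ))) ^ 2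
        ≤ ∫⁻ x, (2 * (D (g x) (g (x + k * δ))) ^ 2 +
            2 * (D (g (x + k * δ)) (g (x + ((k + 1 : ℕ) : ℝ) * δ))) ^ 2) :=
          lintegral_mono fun x => D_sq_tri _ _ _
      _ = 2 * (∫⁻ x, (D (g x) (g (x + k * δ))) ^ 2) + 2 * kap δ g := by
          rw [lintegral_add_left ((h1.pow_const 2).const_mul 2),
            lintegral_const_mul _ (h1.pow_const 2), lintegral_const_mul' _ _ (by norm_num), h2]
      _ ≤ 2 * (4 ^ k * kap δ g) + 2 * kap δ g := by gcongr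
      _ = (2 * 4 ^ k + 2) * kap δ g := by ring
      _ ≤ 4 ^ (k + 1) * kap δ g := by
          gcongr
          have : (1 : ℝ≥0∞) ≤ 4 ^ k := one_le_pow₀ (by norm_num)
          calc (2 : ℝ≥0∞) * 4 ^ k + 2 ≤ 2 * 4 ^ k + 2 * 4 ^ k := by
                gcongr
                calc (2 : ℝ≥0∞) = 2 * 1 := by norm_num
                  _ ≤ 2 * 4 ^ k := by gcongr
            _ = 4 ^ (k + 1) := by ring

theorem mass {δ : ℝ} (hδ : 0 < δ) : ∃ C : ℝ, 0 ≤ C ∧ ∀ g : ℝ → ℝ≥0∞, Measurable g → ∀ c : ℝ,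
    ∫⁻ x in Set.Icc (c - 4) (c + 4), (g x) ^ 2
      ≤ 3⁻¹ * (∫⁻ x, (g x) ^ 2) + ENNReal.ofReal C * kap δ g := by
  obtain ⟨m, hm⟩ := exists_nat_gt (8 / δ)
  have hm8 : 8 < m * δ := by rwa [div_lt_iff₀ hδ] at hm
  refine ⟨2 * 4 ^ (5 * m), by positivity, ?_⟩
  intro g hg c
  set J := Set.Icc (c - 4) (c + 4) with hJ
  have hJm : MeasurableSet J := measurableSet_Icc
  have h1 : ∀ j ∈ Finset.range 6, ∫⁻ x in J, (g x) ^ 2 ≤
      2 * (∫⁻ x in J, (g (x + ((j * m : ℕ) : ℝ) * δ)) ^ 2) + 2 * (4 ^ (5 * m) * kap δ g) := by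
    intro j hj
    have hj5 : j * m ≤ 5 * m := Nat.mul_le_mul_right m (by simp at hj; omega)
    have hmeas : Measurable (fun x => (g (x + ((j * m : ℕ) : ℝ) * δ)) ^ 2) := by fun_prop
    calc ∫⁻ x in J, (g x) ^ 2 ≤ ∫⁻ x in J, (2 * (g (x + ((j * m : ℕ) : ℝ) * δ)) ^ 2 +
          2 * (D (g x) (g (x + ((j * m : ℕ) : ℝ) * δ))) ^ 2) :=
          lintegral_mono fun x => sq_le_D _ _
      _ = 2 * (∫⁻ x in J, (g (x + ((j * m : ℕ) : ℝ) * δ)) ^ 2) +
          2 * (∫⁻ x in J, (D (g x) (g (x + ((j * m : ℕ) : ℝ) * δ))) ^ 2) := by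
          rw [lintegral_add_left (hmeas.const_mul 2), lintegral_const_mul _ hmeas,
            lintegral_const_mul' _ _ (by norm_num)]
      _ ≤ 2 * (∫⁻ x in J, (g (x + ((j * m : ℕ) : ℝ) * δ)) ^ 2) +
          2 * (∫⁻ x, (D (g x) (g (x + ((j * m : ℕ) : ℝ) * δ))) ^ 2) := by
          have := setLIntegral_le_lintegral (μ := volume) J
            (fun x => (D (g x) (g (x + ((j * m : ℕ) : ℝ) * δ))) ^ 2)
          exact add_le_add le_rfl (mul_le_mul_right this 2)
      _ ≤ 2 * (∫⁻ x in J, (g (x + ((j * m : ℕ) : ℝ) * δ)) ^ 2) +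
          2 * (4 ^ (5 * m) * kap δ g) := by
          gcongr
          refine (kap_shift hg (j * m)).trans ?_
          gcongr
          · norm_num
  have h2 : ∑ j ∈ Finset.range 6, ∫⁻ x in J, (g (x + ((j * m : ℕ) : ℝ) * δ)) ^ 2
      ≤ ∫⁻ x, (g x) ^ 2 := by
    have h3 : ∀ j : ℕ, ∫⁻ x in J, (g (x + ((j * m : ℕ) : ℝ) * δ)) ^ 2 =
        ∫⁻ x, J.indicator (fun _ => (1 : ℝ≥0∞)) (x - ((j * m : ℕ) : ℝ) * δ) * (g x) ^ 2 := by
      intro j
      rw [← lintegral_indicator hJm, ← lintegral_add_right_eq_self (fun x =>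
        J.indicator (fun _ => (1 : ℝ≥0∞)) (x - ((j * m : ℕ) : ℝ) * δ) * (g x) ^ 2)
        (((j * m : ℕ) : ℝ) * δ)]
      apply lintegral_congr
      intro x
      rw [add_sub_cancel_right]
      by_cases hx : x ∈ J
      · rw [Set.indicator_of_mem hx, Set.indicator_of_mem hx, one_mul]
      · rw [Set.indicator_of_notMem hx, Set.indicator_of_notMem hx, zero_mul]
    simp_rw [h3]
    rw [← lintegral_finsetSum]
    · apply lintegral_mono
      intro x
      show ∑ j ∈ Finset.range 6, J.indicator (fun _ => (1 : ℝ≥0∞)) (x - ((j * m : ℕ) : ℝ) * δ) *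
        (g x) ^ 2 ≤ (g x) ^ 2
      rw [← Finset.sum_mul]
      calc _ ≤ 1 * (g x) ^ 2 := by
            gcongr
            by_cases hex : ∃ j0 ∈ Finset.range 6, x - ((j0 * m : ℕ) : ℝ) * δ ∈ J
            · obtain ⟨j0, hj0, hx0⟩ := hex
              rw [Finset.sum_eq_single j0]
              · rw [Set.indicator_of_mem hx0]
              · intro j _ hne
                apply Set.indicator_of_notMem
                intro hx
                have h5 : |((j0 : ℝ) - j) * (m * δ)| ≤ 8 := by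
                  rw [hJ, Set.mem_Icc] at hx hx0
                  push_cast at hx hx0
                  rw [abs_le]
                  constructor <;> nlinarith [hx.1, hx.2, hx0.1, hx0.2]
                rw [abs_mul, abs_of_pos (by linarith : 0 < (m : ℝ) * δ)] at h5
                have h6 : (1 : ℝ) ≤ |(j0 : ℝ) - j| := by
                  have : ((j0 : ℤ) - j) ≠ 0 := sub_ne_zero.mpr (by exact_mod_cast hne.symm)
                  have h7 := Int.one_le_abs this
                  have : ((1 : ℤ) : ℝ) ≤ ((|(j0 : ℤ) - j| : ℤ) : ℝ) := by exact_mod_cast h7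
                  simpa using this
                nlinarith
              · intro h; exact absurd hj0 h
            · push Not at hex
              rw [Finset.sum_eq_zero]
              · exact zero_le
              · intro j hj
                exact Set.indicator_of_notMem (hex j hj) _
        _ = (g x) ^ 2 := one_mul _
    · intro j _
      have : Measurable (J.indicator (fun _ => (1 : ℝ≥0∞))) := measurable_const.indicator hJm
      exact (this.comp (measurable_id.sub_const _)).mul (hg.pow_const 2)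
  have h4 : 6 * ∫⁻ x in J, (g x) ^ 2 ≤ 2 * (∫⁻ x, (g x) ^ 2) +
      12 * (4 ^ (5 * m) * kap δ g) := by
    calc 6 * ∫⁻ x in J, (g x) ^ 2 = ∑ j ∈ Finset.range 6, ∫⁻ x in J, (g x) ^ 2 := by simp
      _ ≤ ∑ j ∈ Finset.range 6, (2 * (∫⁻ x in J, (g (x + ((j * m : ℕ) : ℝ) * δ)) ^ 2)
          + 2 * (4 ^ (5 * m) * kap δ g)) := Finset.sum_le_sum h1
      _ = 2 * (∑ j ∈ Finset.range 6, ∫⁻ x in J, (g (x + ((j * m : ℕ) : ℝ) * δ)) ^ 2)
          + 12 * (4 ^ (5 * m) * kap δ g) := by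
          rw [Finset.sum_add_distrib, ← Finset.mul_sum, Finset.sum_const, Finset.card_range,
            nsmul_eq_mul]
          push_cast
          ring
      _ ≤ _ := by gcongr
  have h5 : ENNReal.ofReal (2 * 4 ^ (5 * m)) = 2 * 4 ^ (5 * m) := by
    rw [ENNReal.ofReal_mul (by norm_num), ENNReal.ofReal_pow (by norm_num)]
    norm_num
  rw [h5]
  have h6 : ∫⁻ x in J, (g x) ^ 2 = 6⁻¹ * (6 * ∫⁻ x in J, (g x) ^ 2) := by
    rw [← mul_assoc, ENNReal.inv_mul_cancel (by norm_num) (by norm_num), one_mul]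
  rw [h6]
  calc 6⁻¹ * (6 * ∫⁻ x in J, (g x) ^ 2) ≤ 6⁻¹ * (2 * (∫⁻ x, (g x) ^ 2) +
      12 * (4 ^ (5 * m) * kap δ g)) := by gcongr
    _ = (6⁻¹ * 2) * (∫⁻ x, (g x) ^ 2) + (6⁻¹ * 12) * (4 ^ (5 * m) * kap δ g) := by ring
    _ = _ := by
        have e1 : (6⁻¹ * 2 : ℝ≥0∞) = 3⁻¹ := by
          have : (6 : ℝ≥0∞) = 3 * 2 := by norm_num
          rw [this, ENNReal.mul_inv (by norm_num) (by norm_num), mul_assoc,
            ENNReal.inv_mul_cancel (by norm_num) (by norm_num), mul_one]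
        have e2 : (6⁻¹ * 12 : ℝ≥0∞) = 2 := by
          have : (12 : ℝ≥0∞) = 6 * 2 := by norm_num
          rw [this, ← mul_assoc, ENNReal.inv_mul_cancel (by norm_num) (by norm_num), one_mul]
        rw [e1, e2]; ring

end mass

section hom

/-- homogeneous of degree `-1` -/
def Hom (F : ℝ × ℝ → ℝ≥0∞) : Prop :=
  ∀ l : ℝ, l ≠ 0 → ∀ x y : ℝ, F (l * x, l * y) = ‖l‖ₑ⁻¹ * F (x, y)

/-- the square of the `L²` norm on the projective line -/
noncomputable def G (F : ℝ × ℝ → ℝ≥0∞) : ℝ≥0∞ := ∫⁻ y, (F (y, 1)) ^ 2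

theorem measurable_avg {δ c : ℝ} {F : ℝ × ℝ → ℝ≥0∞} (hF : Measurable F) :
    Measurable (avg δ c F) := by
  unfold avg stp
  have : Measurable (fun p : (ℝ × ℝ) × ℝ => F ((c - δ * p.2) * p.1.1 - p.1.2, p.1.1)) := by
    fun_prop
  exact this.lintegral_prod_right'

theorem hom_avg {δ c : ℝ} {F : ℝ × ℝ → ℝ≥0∞} (hF : Hom F) : Hom (avg δ c F) := by
  intro l hl x y
  unfold avg stp
  simp only
  rw [← lintegral_const_mul' _ _ (by simpa using hl)]
  apply lintegral_congr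
  intro t
  rw [← hF l hl]
  congr 2
  ring

theorem avg_eq {δ c : ℝ} {F : ℝ × ℝ → ℝ≥0∞} (hF : Hom F) {x : ℝ} (hx : x ≠ 0) (y : ℝ) :
    avg δ c F (x, y) = ‖x‖ₑ⁻¹ * K δ (fun z => F (z, 1)) (c - y / x) := by
  unfold avg K stp
  simp only
  rw [← lintegral_const_mul' _ _ (by simpa using hx)]
  apply lintegral_congr
  intro t
  rw [← hF x hx]
  congr 2
  · field_simp
    ring
  · ring

theorem avg_set {δ c : ℝ} {F : ℝ × ℝ → ℝ≥0∞} (hF : Hom F) {s T : Set ℝ} (hs : MeasurableSet s)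
    (h0 : (0 : ℝ) ∉ s) (hT : ∀ x ∈ s, c - x⁻¹ ∈ T) :
    ∫⁻ x in s, (avg δ c F (x, 1)) ^ 2 ≤ ∫⁻ y in T, (K δ (fun z => F (z, 1)) y) ^ 2 := by
  have hne : ∀ x ∈ s, x ≠ 0 := fun x hx h => h0 (h ▸ hx)
  have h1 := lintegral_image_eq_lintegral_abs_deriv_mul (s := s)
    (f := fun x : ℝ => c - x⁻¹) (f' := fun x => (x ^ 2)⁻¹) hs
    (fun x hx => by
      have h2 : HasDerivAt (fun x : ℝ => c - x⁻¹) (0 - -(x ^ 2)⁻¹) x :=
        (hasDerivAt_const x c).sub (hasDerivAt_inv (hne x hx))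
      have h3 : HasDerivAt (fun x : ℝ => c - x⁻¹) ((x ^ 2)⁻¹) x := by simpa using h2
      exact h3.hasDerivWithinAt)
    (by
      intro a _ b _ hab
      simp only at hab
      have : a⁻¹ = b⁻¹ := by linarith
      exact inv_injective this) (fun y => (K δ (fun z => F (z, 1)) y) ^ 2)
  have h2 : ∫⁻ x in s, (avg δ c F (x, 1)) ^ 2 = ∫⁻ x in s, ENNReal.ofReal |(x ^ 2)⁻¹| *
      (K δ (fun z => F (z, 1)) (c - x⁻¹)) ^ 2 := by
    apply setLIntegral_congr_fun hs
    intro x hx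
    show (avg δ c F (x, 1)) ^ 2 = ENNReal.ofReal |(x ^ 2)⁻¹| *
      (K δ (fun z => F (z, 1)) (c - x⁻¹)) ^ 2
    rw [avg_eq hF (hne x hx), mul_pow, one_div]
    congr 1
    rw [abs_of_nonneg (by positivity), ENNReal.ofReal_inv_of_pos
      (by have := hne x hx; positivity), ← ENNReal.inv_pow]
    congr 1
    rw [← sq_abs, ENNReal.ofReal_pow (abs_nonneg _), Real.enorm_eq_ofReal_abs]
  rw [h2, ← h1]
  apply lintegral_mono_set
  rintro _ ⟨x, hx, rfl⟩
  exact hT x hx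

theorem G_avg_le_K {δ c : ℝ} {F : ℝ × ℝ → ℝ≥0∞} (hF : Hom F) :
    G (avg δ c F) ≤ ∫⁻ y, (K δ (fun z => F (z, 1)) y) ^ 2 := by
  have h1 := avg_set (δ := δ) (c := c) hF (s := {0}ᶜ) (T := Set.univ)
    (measurableSet_singleton 0).compl (by simp) (fun _ _ => Set.mem_univ _)
  rw [Measure.restrict_univ] at h1
  refine le_trans (le_of_eq ?_) h1
  unfold G
  rw [MeasureTheory.restrict_compl_singleton]

theorem measurable_slice {F : ℝ × ℝ → ℝ≥0∞} (hF : Measurable F) :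
    Measurable (fun z => F (z, 1)) := by fun_prop

theorem G_avg {δ c : ℝ} {F : ℝ × ℝ → ℝ≥0∞} (hFm : Measurable F) (hF : Hom F) :
    G (avg δ c F) + 4⁻¹ * kap δ (fun z => F (z, 1)) ≤ G F := by
  have h1 := K_sq (δ := δ) (measurable_slice hFm)
  refine le_trans ?_ h1
  gcongr
  exact G_avg_le_K hF

theorem G_avg_le {δ c : ℝ} {F : ℝ × ℝ → ℝ≥0∞} (hFm : Measurable F) (hF : Hom F) :
    G (avg δ c F) ≤ G F := le_trans le_self_add (G_avg hFm hF)

/-- **Contraction.** -/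
theorem contraction {δ : ℝ} (hδ : 0 < δ) (hδ1 : δ ≤ 1) : ∃ q : ℝ, 0 < q ∧ q < 1 ∧
    ∀ F : ℝ × ℝ → ℝ≥0∞, Measurable F → Hom F → ∀ c c' : ℝ,
      G (avg δ c (avg δ c' F)) ≤ ENNReal.ofReal q * G F := by
  obtain ⟨C, hC, hmass⟩ := mass hδ
  set q := (2 / 3 + 4 * C) / (1 + 4 * C) with hq
  have hq0 : 0 < q := by positivity
  refine ⟨q, hq0, ?_, ?_⟩
  · rw [hq, div_lt_one (by positivity)]; linarith
  intro F hFm hF c c'
  set h : ℝ × ℝ → ℝ≥0∞ := avg δ c' F with hh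
  have hhm : Measurable h := measurable_avg hFm
  have hhh : Hom h := hom_avg hF
  have ha := G_avg (δ := δ) (c := c') hFm hF
  have hb := G_avg (δ := δ) (c := c) hhm hhh
  rw [← hh] at ha
  have hc : G h ≤ (3⁻¹ * G h + ENNReal.ofReal C * kap δ (fun z => h (z, 1))) +
      (3⁻¹ * G F + ENNReal.ofReal C * kap δ (fun z => F (z, 1))) := by
    have h1 : G h = (∫⁻ x in Set.Icc (-1 : ℝ) 1, (h (x, 1)) ^ 2) +
        ∫⁻ x in (Set.Icc (-1 : ℝ) 1)ᶜ, (h (x, 1)) ^ 2 := by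
      unfold G
      rw [lintegral_add_compl _ measurableSet_Icc]
    rw [h1]
    conv_lhs => rw [← h1]
    rw [h1]
    apply add_le_add
    · rw [← h1]
      refine le_trans ?_ (hmass (fun z => h (z, 1)) (measurable_slice hhm) 0)
      apply lintegral_mono_set
      intro x hx
      exact ⟨by linarith [hx.1], by linarith [hx.2]⟩
    · refine le_trans ?_ (hmass (fun z => F (z, 1)) (measurable_slice hFm) c')
      refine le_trans ?_ (K_local hδ hδ1 (measurable_slice hFm) c')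
      apply avg_set hF measurableSet_Icc.compl
      · simp
      · intro x hx
        rw [Set.mem_compl_iff, Set.mem_Icc, not_and_or, not_le, not_le] at hx
        have h3 : |x⁻¹| ≤ 1 := by
          rw [abs_inv]
          apply inv_le_one_of_one_le₀
          rcases hx with hx | hx
          · rw [abs_of_neg (by linarith)]; linarith
          · rw [abs_of_pos (by linarith)]; linarith
        have h4 := abs_le.mp h3
        exact ⟨by linarith [h4.2], by linarith [h4.1]⟩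
  by_cases hS : G F = ⊤
  · rw [hS, ENNReal.mul_top (by simpa using hq0)]
    exact le_top
  -- convert to reals
  have hN : G h ≠ ⊤ := ne_top_of_le_ne_top hS (le_trans le_self_add ha)
  have hP : G (avg δ c h) ≠ ⊤ := ne_top_of_le_ne_top hN (le_trans le_self_add hb)
  have hkF : 4⁻¹ * kap δ (fun z => F (z, 1)) ≠ ⊤ :=
    ne_top_of_le_ne_top hS (le_trans le_add_self ha)
  have hkh : 4⁻¹ * kap δ (fun z => h (z, 1)) ≠ ⊤ :=
    ne_top_of_le_ne_top hN (le_trans le_add_self hb)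
  have hkF' : kap δ (fun z => F (z, 1)) ≠ ⊤ := by
    intro h0; rw [h0, ENNReal.mul_top (by simp)] at hkF; exact hkF rfl
  have hkh' : kap δ (fun z => h (z, 1)) ≠ ⊤ := by
    intro h0; rw [h0, ENNReal.mul_top (by simp)] at hkh; exact hkh rfl
  have e4 : (4⁻¹ : ℝ≥0∞).toReal = 1 / 4 := by simp
  have e3 : (3⁻¹ : ℝ≥0∞).toReal = 1 / 3 := by simp
  have e3t : (3⁻¹ : ℝ≥0∞) ≠ ⊤ := by simp
  have ra := ENNReal.toReal_mono hS ha
  rw [ENNReal.toReal_add hN hkF, ENNReal.toReal_mul, e4] at ra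
  have rb := ENNReal.toReal_mono hN hb
  rw [ENNReal.toReal_add hP hkh, ENNReal.toReal_mul, e4] at rb
  have hf1 : 3⁻¹ * G h ≠ ⊤ := ENNReal.mul_ne_top e3t hN
  have hf2 : ENNReal.ofReal C * kap δ (fun z => h (z, 1)) ≠ ⊤ :=
    ENNReal.mul_ne_top (by simp) hkh'
  have hf3 : 3⁻¹ * G F ≠ ⊤ := ENNReal.mul_ne_top e3t hS
  have hf4 : ENNReal.ofReal C * kap δ (fun z => F (z, 1)) ≠ ⊤ :=
    ENNReal.mul_ne_top (by simp) hkF'
  have rc := ENNReal.toReal_mono (ENNReal.add_ne_top.mpr ⟨ENNReal.add_ne_top.mpr ⟨hf1, hf2⟩,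
    ENNReal.add_ne_top.mpr ⟨hf3, hf4⟩⟩) hc
  rw [ENNReal.toReal_add (ENNReal.add_ne_top.mpr ⟨hf1, hf2⟩) (ENNReal.add_ne_top.mpr ⟨hf3, hf4⟩),
    ENNReal.toReal_add hf1 hf2, ENNReal.toReal_add hf3 hf4, ENNReal.toReal_mul,
    ENNReal.toReal_mul, ENNReal.toReal_mul, ENNReal.toReal_mul, e3,
    ENNReal.toReal_ofReal hC] at rc
  rw [← ENNReal.ofReal_toReal hP, ← ENNReal.ofReal_toReal hS, ← ENNReal.ofReal_mul hq0.le]
  apply ENNReal.ofReal_le_ofReal
  set S := (G F).toReal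
  set N := (G h).toReal
  set P := (G (avg δ c h)).toReal
  set kF := (kap δ (fun z => F (z, 1))).toReal
  set kh := (kap δ (fun z => h (z, 1))).toReal
  have hkF0 : 0 ≤ kF := ENNReal.toReal_nonneg
  have hkh0 : 0 ≤ kh := ENNReal.toReal_nonneg
  rw [hq, div_mul_eq_mul_div, le_div_iff₀ (by positivity)]
  have h5 : C * (kF + kh) ≤ C * (4 * (S - P)) := mul_le_mul_of_nonneg_left (by linarith) hC
  nlinarith

theorem iter_meas {δ : ℝ} (n : ℕ) : ∀ (c : ℕ → ℝ) {F : ℝ × ℝ → ℝ≥0∞}, Measurable F →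
    Measurable (iter δ n c F) := by
  induction n with
  | zero => intro c F hF; exact hF
  | succ n ih => intro c F hF; exact measurable_avg (ih _ hF)

theorem iter_hom {δ : ℝ} (n : ℕ) : ∀ (c : ℕ → ℝ) {F : ℝ × ℝ → ℝ≥0∞}, Hom F →
    Hom (iter δ n c F) := by
  induction n with
  | zero => intro c F hF; exact hF
  | succ n ih => intro c F hF; exact hom_avg (ih _ hF)

theorem G_iter {δ q : ℝ}
    (h : ∀ F : ℝ × ℝ → ℝ≥0∞, Measurable F → Hom F → ∀ c c' : ℝ,
      G (avg δ c (avg δ c' F)) ≤ ENNReal.ofReal q * G F)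
    {F : ℝ × ℝ → ℝ≥0∞} (hFm : Measurable F) (hF : Hom F) (n : ℕ) :
    ∀ c : ℕ → ℝ, G (iter δ n c F) ≤ ENNReal.ofReal q ^ (n / 2) * G F := by
  induction n using Nat.strong_induction_on with
  | _ n ih =>
    intro c
    rcases n with _ | _ | n
    · simp [iter]
    · simp only [iter]
      simpa using G_avg_le hFm hF
    · show G (avg δ (c 0) (avg δ (c 1) (iter δ n (fun i => c (i + 1 + 1)) F))) ≤ _
      refine (h _ (iter_meas n _ hFm) (iter_hom n _ hF) _ _).trans ?_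
      have e : (n + 1 + 1) / 2 = n / 2 + 1 := by omega
      rw [e, pow_succ, mul_comm (ENNReal.ofReal q ^ (n / 2)), mul_assoc]
      gcongr
      exact ih n (by omega) _

end hom

end Pool.Agent.R993.LP
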