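import Mathlib

/-! # Cantor groups: finite quotients separating a window of the orbit -/

namespace Pool.Agent.R993.LP.M

open MeasureTheory Filter Topology
open scoped ENNReal

variable {Ω : Type*} [AddCommGroup Ω] [TopologicalSpace Ω] [IsTopologicalAddGroup Ω]
  [CompactSpace Ω] [T2Space Ω] [TotallyDisconnectedSpace Ω]

omit [IsTopologicalAddGroup Ω] [CompactSpace Ω] [TotallyDisconnectedSpace Ω] in
lemma zsmul_ne_zero_of_dense [Infinite Ω] {α : Ω}
    (hα : Dense (Set.range (fun n : ℤ => n • α))) {n : ℤ} (hn : n ≠ 0) : n • α ≠ 0 := by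
  intro h
  have hfin : (Set.range (fun n : ℤ => n • α)).Finite := by
    have h1 : IsOfFinAddOrder α := by
      rw [isOfFinAddOrder_iff_zsmul_eq_zero]
      exact ⟨n, hn, h⟩
    have h2 := h1.finite_zmultiples
    have e : (Set.range (fun n : ℤ => n • α)) = (AddSubgroup.zmultiples α : Set Ω) := by
      ext x
      simp [AddSubgroup.mem_zmultiples_iff]
    rw [e]
    exact h2
  have hcl : Set.range (fun n : ℤ => n • α) = Set.univ := by
    rw [← hfin.isClosed.closure_eq]
    exact hα.closure_eq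
  rw [hcl] at hfin
  exact Set.infinite_univ hfin

/-- a continuous map to a finite set which is injective on windows of length 2N+1 of all orbits -/
lemma exists_window [Infinite Ω] {α : Ω} (hα : Dense (Set.range (fun n : ℤ => n • α))) (N : ℕ) :
    ∃ (m : ℕ) (pr : Ω → Fin m), Continuous pr ∧
      ∀ ω : Ω, Set.InjOn (fun n : ℤ => pr (ω + n • α)) (Set.Icc (-(N : ℤ)) N) := by
  classical
  set S : Set Ω := (fun n : ℤ => n • α) '' {n : ℤ | n ≠ 0 ∧ |n| ≤ 2 * (N : ℤ)} with hS
  have hSfin : S.Finite := by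
    apply Set.Finite.image
    apply (Set.finite_Icc (-(2 * (N : ℤ))) (2 * N)).subset
    intro n hn
    exact abs_le.1 hn.2
  have h0 : (0 : Ω) ∈ Sᶜ := by
    rintro ⟨n, hn, h⟩
    exact zsmul_ne_zero_of_dense hα hn.1 h
  obtain ⟨W, hW, h0W, hWS⟩ := compact_exists_isClopen_in_isOpen hSfin.isClosed.isOpen_compl h0
  obtain ⟨H, hH⟩ := IsTopologicalAddGroup.exist_openAddSubgroup_sub_clopen_nhds_of_zero hW h0W
  have hfin : Finite (Ω ⧸ (H : AddSubgroup Ω)) := AddSubgroup.quotient_finite_of_isOpen _ H.isOpen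
  have := Fintype.ofFinite (Ω ⧸ (H : AddSubgroup Ω))
  have hdisc : DiscreteTopology (Ω ⧸ (H : AddSubgroup Ω)) := QuotientAddGroup.discreteTopology H.isOpen
  refine ⟨Fintype.card (Ω ⧸ (H : AddSubgroup Ω)),
    fun ω => Fintype.equivFin _ (QuotientAddGroup.mk ω), ?_, ?_⟩
  · exact (continuous_of_discreteTopology).comp QuotientAddGroup.continuous_mk
  · intro ω i hi j hj hij
    have h1 := (Fintype.equivFin (Ω ⧸ (H : AddSubgroup Ω))).injective hij
    rw [QuotientAddGroup.eq] at h1
    have e : -(ω + i • α) + (ω + j • α) = (j - i) • α := by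
      rw [sub_smul]; abel
    rw [e] at h1
    by_contra hne
    have h2 : (j - i) • α ∈ S := by
      refine ⟨j - i, ⟨by omega, ?_⟩, rfl⟩
      rw [abs_le]
      have hi' := hi.1
      have hi'' := hi.2
      have hj' := hj.1
      have hj'' := hj.2
      constructor <;> omega
    exact hWS (hH h1) h2

end Pool.Agent.R993.LP.M
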