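import Pool.Agent.R993.LP.Defs

/-! # Shifts on ℓ² and the span of the eigenvectors -/

namespace Pool.Agent.R993.LP.M

open MeasureTheory Filter Topology
open scoped ENNReal

noncomputable abbrev L2 := lp (fun _ : ℤ => ℂ) 2

lemma memlp_shift (m : ℤ) (ψ : L2) : Memℓp (fun n : ℤ => ψ (n - m)) 2 := by
  have h := lp.memℓp ψ
  rw [memℓp_gen_iff (by norm_num)] at h ⊢
  exact (Equiv.subRight m).summable_iff.2 h

/-- the shift by m -/
noncomputable def shiftL (m : ℤ) : L2 →ₗᵢ[ℂ] L2 where
  toFun ψ := ⟨fun n => ψ (n - m), memlp_shift m ψ⟩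
  map_add' ψ φ := by ext n; rfl
  map_smul' c ψ := by ext n; rfl
  norm_map' ψ := by
    rw [lp.norm_eq_tsum_rpow (by norm_num), lp.norm_eq_tsum_rpow (by norm_num)]
    congr 1
    exact (Equiv.subRight m).tsum_eq (fun n => ‖ψ n‖ ^ (2 : ℝ≥0∞).toReal)

lemma shiftL_apply (m : ℤ) (ψ : L2) (n : ℤ) : shiftL m ψ n = ψ (n - m) := rfl

lemma shiftL_single (m : ℤ) : shiftL m (lp.single 2 (0 : ℤ) (1 : ℂ)) = lp.single 2 m (1 : ℂ) := by
  ext n
  rw [shiftL_apply]
  by_cases h : n = m
  · subst h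
    simp [lp.single_apply]
  · have h1 : n - m ≠ 0 := sub_ne_zero.2 h
    rw [lp.single_apply_ne _ _ _ h1, lp.single_apply_ne _ _ _ h]

lemma shiftL_eigs {V : ℤ → ℝ} {m : ℤ} {ψ : L2} (h : ψ ∈ eigs (fun n => V (n + m))) :
    shiftL m ψ ∈ eigs V := by
  obtain ⟨E, hE⟩ := h
  refine ⟨E, fun n => ?_⟩
  have h1 := hE (n - m)
  rw [shiftL_apply, shiftL_apply, shiftL_apply]
  have e1 : n + 1 - m = n - m + 1 := by ring
  have e2 : n - 1 - m = n - m - 1 := by ring
  rw [e1, e2]
  simpa using h1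

lemma single_mem {V : ℤ → ℝ} {m : ℤ}
    (h : lp.single 2 (0 : ℤ) (1 : ℂ) ∈
      (Submodule.span ℂ (eigs fun n => V (n + m))).topologicalClosure) :
    (lp.single 2 m (1 : ℂ) : L2) ∈ (Submodule.span ℂ (eigs V)).topologicalClosure := by
  rw [← shiftL_single m]
  have h1 : Submodule.span ℂ (eigs fun n => V (n + m))
      ≤ (Submodule.span ℂ (eigs V)).comap (shiftL m).toLinearMap := by
    rw [Submodule.span_le]
    intro ψ hψ
    exact Submodule.subset_span (shiftL_eigs hψ)
  have h2 : ((Submodule.span ℂ (eigs fun n => V (n + m))).topologicalClosure : Set L2)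
      ⊆ (shiftL m) ⁻¹' ((Submodule.span ℂ (eigs V)).topologicalClosure : Set L2) := by
    rw [Submodule.topologicalClosure_coe]
    apply closure_minimal
    · intro ψ hψ
      exact Submodule.le_topologicalClosure _ (h1 hψ)
    · exact (Submodule.isClosed_topologicalClosure _).preimage (shiftL m).continuous
  exact h2 h

lemma top_of_singles {K : Submodule ℂ L2}
    (h : ∀ m : ℤ, (lp.single 2 m (1 : ℂ) : L2) ∈ K.topologicalClosure) :
    K.topologicalClosure = ⊤ := by
  rw [eq_top_iff]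
  intro f _
  have hs := lp.hasSum_single (p := 2) (by norm_num) f
  apply (Submodule.isClosed_topologicalClosure K).mem_of_tendsto hs
  refine Filter.Eventually.of_forall fun s => ?_
  apply Submodule.sum_mem
  intro i _
  have e : (lp.single 2 i (f i) : L2) = (f i) • (lp.single 2 i (1 : ℂ) : L2) := by
    rw [← lp.single_smul]
    simp
  rw [e]
  exact Submodule.smul_mem _ _ (h i)

end Pool.Agent.R993.LP.M
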