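import Pool.Agent.R993.LP.Pert
import Pool.Agent.R993.LP.Shift
import Pool.Agent.R993.LP.Grp

/-! # Assembly -/

namespace Pool.Agent.R993.LP.M

open MeasureTheory Filter Topology
open scoped ENNReal

/-- the law of the sample -/
noncomputable def PP (m : ℕ → ℕ) : Measure (∀ k, Fin (m k) → ℝ) :=
  Measure.infinitePi (fun k => plaw (Fin (m k)))

instance (m : ℕ → ℕ) : IsProbabilityMeasure (PP m) := by
  unfold PP; infer_instance

lemma dual_holds : Dual := fun N V _ hδ => Pool.Agent.R993.LP.dual N V hδ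

variable {Ω : Type*}

/-- resampling of the level k -/
lemma resample_level [MeasurableSpace Ω] {ε : ℝ} (hε : 0 < ε) {m : ℕ → ℕ}
    {pr : ∀ k, Ω → Fin (m k)} (hpr : ∀ k, Measurable (pr k)) {f0 : Ω → ℝ} (hf0 : Measurable f0)
    {T : ℤ → Ω → Ω} (hT : ∀ n, Measurable (T n)) (k : ℕ) (ω : Ω) (N : ℕ) :
    ∫⁻ x, Zf N (Vp ε pr f0 T x ω) ∂(PP m)
      = ∫⁻ x, ∫⁻ y, Zf N (fun n => (f0 (T n ω) + (pert ε pr x (T n ω)
          - amp ε k * clip (x k (pr k (T n ω))))) + amp ε k * y (pr k (T n ω)))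
          ∂(plaw (Fin (m k))) ∂(PP m) := by
  have hm : Measurable (fun x : (∀ k, Fin (m k) → ℝ) => Zf N (Vp ε pr f0 T x ω)) := by
    have h1 := measurable_Vp hε hpr hf0 hT
    have h2 : Measurable (fun x : (∀ k, Fin (m k) → ℝ) => ((x, ω) : _ × Ω)) :=
      measurable_prodMk_right
    have h3 := h1.comp h2
    exact (measurable_Zf N).comp h3
  unfold PP
  rw [resample (fun k => plaw (Fin (m k))) k hm]
  refine lintegral_congr fun x => ?_
  apply lintegral_congr_ae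
  filter_upwards [plaw_ae (F := Fin (m k))] with y hy
  congr 1
  funext n
  unfold Vp
  rw [pert_update hε, clip_eq (hy _)]
  ring

/-- one step of the comparison -/
lemma one_step_cmp [MeasurableSpace Ω] {ε : ℝ} (hε : 0 < ε) (hε1 : ε ≤ 1) {m : ℕ → ℕ}
    {pr : ∀ k, Ω → Fin (m k)} (hpr : ∀ k, Measurable (pr k)) {f0 : Ω → ℝ} (hf0 : Measurable f0)
    {B : ℝ} (hB : 0 ≤ B) (hfB : ∀ ω, |f0 ω| + 2 ≤ B)
    {T : ℤ → Ω → Ω} (hT : ∀ n, Measurable (T n)) (k : ℕ) (ω : Ω) {N N' : ℕ} (hN : 1 ≤ N)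
    (hNN : N < N') {C q : ℝ≥0∞} (h : FM (amp ε k) (2 * B + 6) C q) (hC : C ≠ ⊤) (hq : q < 1)
    (hinj : Set.InjOn (fun n : ℤ => pr k (T n ω)) (Set.Icc (-(N' : ℤ)) N')) :
    ∫⁻ x, Zf N' (Vp ε pr f0 T x ω) ∂(PP m)
      ≤ ∫⁻ x, Zf N (Vp ε pr f0 T x ω) ∂(PP m)
        + ENNReal.ofReal (amp ε k)⁻¹ * (Kc (amp ε k) C q * (q ^ (1 / 4 : ℝ)) ^ (N + 1))
          * ENNReal.ofReal (2 * (B + 6)) := by
  rw [resample_level hε hpr hf0 hT k ω N', resample_level hε hpr hf0 hT k ω N]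
  have key : ∀ x : (∀ k, Fin (m k) → ℝ), ∫⁻ y, Zf N' (fun n => (f0 (T n ω) + (pert ε pr x (T n ω)
          - amp ε k * clip (x k (pr k (T n ω))))) + amp ε k * y (pr k (T n ω)))
          ∂(plaw (Fin (m k)))
      ≤ ∫⁻ y, Zf N (fun n => (f0 (T n ω) + (pert ε pr x (T n ω)
          - amp ε k * clip (x k (pr k (T n ω))))) + amp ε k * y (pr k (T n ω)))
          ∂(plaw (Fin (m k)))
        + ENNReal.ofReal (amp ε k)⁻¹ * (Kc (amp ε k) C q * (q ^ (1 / 4 : ℝ)) ^ (N + 1))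
          * ENNReal.ofReal (2 * (B + 6)) := by
    intro x
    apply level dual_holds (amp_pos hε k) ((amp_le hε hε1 k).trans (by norm_num)) hB h hC hq
      (b := fun n => f0 (T n ω) + (pert ε pr x (T n ω) - amp ε k * clip (x k (pr k (T n ω)))))
      _ hN hNN (p := fun n => pr k (T n ω)) hinj
    intro n
    have h1 := hfB (T n ω)
    have h2 := pert_abs hε pr x (T n ω)
    have h3 := term_le hε k (x k (pr k (T n ω)))
    rw [Real.norm_eq_abs] at h3
    have h4 := amp_le hε hε1 k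
    have h5 := abs_add_le (f0 (T n ω)) (pert ε pr x (T n ω) - amp ε k * clip (x k (pr k (T n ω))))
    have h6 := abs_sub (pert ε pr x (T n ω)) (amp ε k * clip (x k (pr k (T n ω))))
    linarith
  refine (lintegral_mono key).trans ?_
  rw [lintegral_add_right _ measurable_const]
  refine add_le_add le_rfl ?_
  rw [lintegral_const, measure_univ, mul_one]

/-- choice of the windows: the error is small -/
lemma exists_N {C q : ℝ≥0∞} (hC : C ≠ ⊤) (hq : q < 1) (δ B : ℝ) {η : ℝ≥0∞} (hη : 0 < η) :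
    ∃ n0 : ℕ, ∀ n, n0 ≤ n → ENNReal.ofReal δ⁻¹ * (Kc δ C q * (q ^ (1 / 4 : ℝ)) ^ (n + 1))
          * ENNReal.ofReal (2 * (B + 6)) ≤ η := by
  have hQ : q ^ (1 / 4 : ℝ) < 1 := ENNReal.rpow_lt_one hq (by norm_num)
  have h1 : Tendsto (fun n : ℕ => (q ^ (1 / 4 : ℝ)) ^ (n + 1)) atTop (𝓝 0) :=
    (ENNReal.tendsto_pow_atTop_nhds_zero_of_lt_one hQ).comp (tendsto_add_atTop_nat 1)
  have h2 : Tendsto (fun n : ℕ => (ENNReal.ofReal δ⁻¹ * Kc δ C q * ENNReal.ofReal (2 * (B + 6)))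
      * (q ^ (1 / 4 : ℝ)) ^ (n + 1)) atTop
      (𝓝 ((ENNReal.ofReal δ⁻¹ * Kc δ C q * ENNReal.ofReal (2 * (B + 6))) * 0)) := by
    apply ENNReal.Tendsto.const_mul h1
    right
    exact ENNReal.mul_ne_top (ENNReal.mul_ne_top ENNReal.ofReal_ne_top (Kc_ne_top hC hq))
      ENNReal.ofReal_ne_top
  rw [mul_zero] at h2
  have h3 := (h2.eventually (gt_mem_nhds hη))
  obtain ⟨n0, hn0⟩ := eventually_atTop.1 h3
  refine ⟨n0, fun n hn => ?_⟩
  refine le_trans (le_of_eq ?_) (hn0 n hn).le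
  ring

/-- the main random construction -/
theorem main_random [AddCommGroup Ω] [TopologicalSpace Ω] [IsTopologicalAddGroup Ω]
    [CompactSpace Ω] [T2Space Ω] [TotallyDisconnectedSpace Ω] [Infinite Ω]
    [MeasurableSpace Ω] [BorelSpace Ω] (μ : Measure Ω) [IsFiniteMeasure μ] {α : Ω}
    (hα : Dense (Set.range (fun n : ℤ => n • α))) (f0 : C(Ω, ℝ)) {ε : ℝ} (hε : 0 < ε)
    (hε1 : ε ≤ 1) :
    ∃ g : C(Ω, ℝ), (∀ ω, |g ω - f0 ω| ≤ ε) ∧ ∀ᵐ ω ∂μ, lp.single 2 (0 : ℤ) (1 : ℂ) ∈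
      (Submodule.span ℂ (eigs fun n => g (ω + n • α))).topologicalClosure := by
  set B : ℝ := ‖f0‖ + 2 with hBdef
  have hB : 0 ≤ B := by positivity
  have hfB : ∀ ω, |f0 ω| + 2 ≤ B := by
    intro ω
    have := f0.norm_coe_le_norm ω
    rw [Real.norm_eq_abs] at this
    linarith
  choose C q hC hq hFM using fun k => fm (M := 2 * B + 6) (amp_pos hε k)
    ((amp_le hε hε1 k).trans (by norm_num)) (by positivity)
  have hhalf : ∀ k : ℕ, (0 : ℝ≥0∞) < (1 / 2) ^ k := fun k => by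
    apply ENNReal.pow_pos
    norm_num
  choose n0 hn0 using fun k => exists_N (hC (k + 1)) (hq (k + 1)) (amp ε (k + 1)) B (hhalf k)
  set Nn : ℕ → ℕ := fun k => ∑ j ∈ Finset.range (k + 1), (n0 j + 1) with hNn
  have hNs : ∀ k, Nn (k + 1) = Nn k + (n0 (k + 1) + 1) := fun k => by
    simp only [hNn]
    rw [Finset.sum_range_succ _ (k + 1)]
  have hNlt : ∀ k, Nn k < Nn (k + 1) := fun k => by rw [hNs]; omega
  have hNge : ∀ k, n0 k + 1 ≤ Nn k := fun k =>
    Finset.single_le_sum (f := fun j => n0 j + 1) (fun _ _ => Nat.zero_le _)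
      (Finset.self_mem_range_succ k)
  have hN1 : ∀ k, 1 ≤ Nn k := fun k => by have := hNge k; omega
  have hNtop : Tendsto Nn atTop atTop := (strictMono_nat_of_lt_succ hNlt).tendsto_atTop
  choose m pr hcont hinj using fun k => exists_window hα (Nn k)
  set T : ℤ → Ω → Ω := fun n ω => ω + n • α with hT
  have hTc : ∀ n, Continuous (T n) := fun n => continuous_id.add continuous_const
  have hTm : ∀ n, Measurable (T n) := fun n => (hTc n).measurable
  have hprm : ∀ k, Measurable (pr k) := fun k => (hcont k).measurable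
  have hf0m : Measurable (f0 : Ω → ℝ) := f0.continuous.measurable
  -- uniform bound of the expectations
  have hbound : ∀ ω k, ∫⁻ x, Zf (Nn k) (Vp ε pr f0 T x ω) ∂(PP m)
      ≤ (2 * Nn 0 + 1) + ∑ j ∈ Finset.range k, (1 / 2 : ℝ≥0∞) ^ j := by
    intro ω k
    induction k with
    | zero =>
      rw [Finset.range_zero, Finset.sum_empty, add_zero]
      calc ∫⁻ x, Zf (Nn 0) (Vp ε pr f0 T x ω) ∂(PP m)
          ≤ ∫⁻ x, ((2 * Nn 0 + 1 : ℝ≥0∞)) ∂(PP m) := lintegral_mono fun x => exists_Zf_le _ _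
        _ = _ := by rw [lintegral_const, measure_univ, mul_one]
    | succ k ih =>
      have h1 := one_step_cmp hε hε1 hprm hf0m hB hfB hTm (k + 1) ω (hN1 k) (hNlt k)
        (hFM (k + 1)) (hC (k + 1)) (hq (k + 1)) (hinj (k + 1) ω)
      have h2 := hn0 k (Nn k) (by have := hNge k; omega)
      rw [Finset.sum_range_succ, ← add_assoc]
      exact h1.trans (add_le_add ih h2)
  set A0 : ℝ≥0∞ := (2 * Nn 0 + 1) + 2 with hA0
  have hA0top : A0 ≠ ⊤ := by rw [hA0]; finiteness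
  have hbound' : ∀ ω k, ∫⁻ x, Zf (Nn k) (Vp ε pr f0 T x ω) ∂(PP m) ≤ A0 := by
    intro ω k
    refine (hbound ω k).trans ?_
    rw [hA0]
    refine add_le_add le_rfl ?_
    have h1 := ENNReal.sum_le_tsum (f := fun j : ℕ => (1 / 2 : ℝ≥0∞) ^ j) (Finset.range k)
    refine h1.trans (le_of_eq ?_)
    rw [ENNReal.tsum_geometric, one_div, ENNReal.one_sub_inv_two, inv_inv]
  have hVm := measurable_Vp hε hprm hf0m hTm
  have hZm : ∀ k, Measurable (fun z : (∀ k, Fin (m k) → ℝ) × Ω =>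
      Zf (Nn k) (Vp ε pr f0 T z.1 z.2)) := fun k => (measurable_Zf (Nn k)).comp hVm
  have hprod : ∀ k, ∫⁻ z, Zf (Nn k) (Vp ε pr f0 T z.1 z.2) ∂((PP m).prod μ)
      ≤ A0 * μ Set.univ := by
    intro k
    rw [lintegral_prod_symm _ (hZm k).aemeasurable]
    calc ∫⁻ ω, ∫⁻ x, Zf (Nn k) (Vp ε pr f0 T x ω) ∂(PP m) ∂μ ≤ ∫⁻ ω, A0 ∂μ :=
          lintegral_mono fun ω => hbound' ω k
      _ = A0 * μ Set.univ := lintegral_const _
  have hlim : ∫⁻ z, liminf (fun k => Zf (Nn k) (Vp ε pr f0 T z.1 z.2)) atTop ∂((PP m).prod μ)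
      ≠ ⊤ := by
    have h1 : ∫⁻ z, liminf (fun k => Zf (Nn k) (Vp ε pr f0 T z.1 z.2)) atTop ∂((PP m).prod μ)
        ≤ liminf (fun k => ∫⁻ z, Zf (Nn k) (Vp ε pr f0 T z.1 z.2) ∂((PP m).prod μ)) atTop :=
      lintegral_liminf_le hZm
    have h2 : liminf (fun k => ∫⁻ z, Zf (Nn k) (Vp ε pr f0 T z.1 z.2) ∂((PP m).prod μ)) atTop
        ≤ A0 * μ Set.univ := by
      apply liminf_le_of_le
      · isBoundedDefault
      · intro b hb
        obtain ⟨k, hk⟩ := hb.exists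
        exact hk.trans (hprod k)
    exact ne_top_of_le_ne_top (ENNReal.mul_ne_top hA0top (measure_ne_top μ _)) (h1.trans h2)
  have hae := ae_lt_top (Measurable.liminf hZm) hlim
  have hae2 : ∀ᵐ z ∂((PP m).prod μ), lp.single 2 (0 : ℤ) (1 : ℂ) ∈
      (Submodule.span ℂ (eigs (Vp ε pr f0 T z.1 z.2))).topologicalClosure := by
    filter_upwards [hae] with z hz
    obtain ⟨A, hA1, hA2⟩ := exists_between hz
    apply compactness (V := Vp ε pr f0 T z.1 z.2) (M := B) _ Nn hNtop (A := A) hA2.ne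
    · exact (frequently_lt_of_liminf_lt (by isBoundedDefault) hA1).mono fun k hk => hk.le
    · intro n
      unfold Vp
      have h1 := abs_add_le (f0 (T n z.2)) (pert ε pr z.1 (T n z.2))
      have h2 := hfB (T n z.2)
      have h3 := pert_abs hε pr z.1 (T n z.2)
      linarith
  have hae3 := Measure.ae_ae_of_ae_prod hae2
  obtain ⟨x, hx⟩ := hae3.exists
  refine ⟨⟨fun ω => f0 ω + pert ε pr x ω, f0.continuous.add (continuous_pert hε hcont x)⟩, ?_, ?_⟩
  · intro ω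
    have : f0 ω + pert ε pr x ω - f0 ω = pert ε pr x ω := by ring
    show |f0 ω + pert ε pr x ω - f0 ω| ≤ ε
    rw [this]
    exact pert_abs hε pr x ω
  · exact hx

end Pool.Agent.R993.LP.M
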