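import Pool.Agent.R993.LP.B1

namespace Pool.Agent.R993.LP.BB

open MeasureTheory Filter Topology Pool.Agent.R993.LP
open scoped ENNReal

/-! ### the derivative -/

lemma wron {N : ℕ} {b : ℕ → ℝ} {E E' : ℝ} (n : ℕ) (hn : n ≤ N) :
    unrm N (fun i => E - b i) n * unrm N (fun i => E' - b i) (n + 1) -
      unrm N (fun i => E - b i) (n + 1) * unrm N (fun i => E' - b i) n =
    (E - E') * ∑ k ∈ Finset.Icc (n + 1) N,
      unrm N (fun i => E - b i) k * unrm N (fun i => E' - b i) k := by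
  obtain ⟨m, rfl⟩ := Nat.exists_eq_add_of_le hn
  clear hn
  induction m generalizing n with
  | zero =>
    rw [add_zero, unrm_gt (N := n) _ (Nat.lt_succ_self n), unrm_gt (N := n) _ (Nat.lt_succ_self n)]
    simp
  | succ m ih =>
    have h1 := ih (n + 1)
    rw [show n + 1 + m = n + (m + 1) by ring] at h1
    have h2 : Finset.Icc (n + 1) (n + (m + 1)) = insert (n + 1) (Finset.Icc (n + 1 + 1) (n + (m + 1))) := by
      ext k
      simp only [Finset.mem_Icc, Finset.mem_insert]
      omega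
    rw [h2, Finset.sum_insert (by simp), mul_add, ← h1]
    rw [unrm_rec (N := n + (m + 1)) (n := n) (fun i => E - b i) (by omega),
      unrm_rec (N := n + (m + 1)) (n := n) (fun i => E' - b i) (by omega)]
    ring

lemma unrm_cont {N : ℕ} {b : ℕ → ℝ} {E : ℝ} (hE : sol N (fun i => E - b i) 0 ≠ 0) (n : ℕ) :
    ContinuousAt (fun E => unrm N (fun i => E - b i) n) E := by
  unfold unrm
  have h : ∀ i, Continuous fun E : ℝ => E - b i := fun i => by fun_prop
  exact ((sol_continuous (a := fun E i => E - b i) h N n).continuousAt).div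
    ((sol_continuous (a := fun E i => E - b i) h N 0).continuousAt) hE

lemma unrm_deriv {N : ℕ} {b : ℕ → ℝ} {E : ℝ} (hE : sol N (fun i => E - b i) 0 ≠ 0) :
    HasDerivAt (fun E => unrm N (fun i => E - b i) 1)
      (-∑ n ∈ Finset.Icc 1 N, (unrm N (fun i => E - b i) n) ^ 2) E := by
  rw [hasDerivAt_iff_tendsto_slope]
  have h0 : ∀ᶠ E' in 𝓝[≠] E, sol N (fun i => E' - b i) 0 ≠ 0 := by
    have h : ∀ i, Continuous fun E : ℝ => E - b i := fun i => by fun_prop
    exact ((sol_continuous (a := fun E i => E - b i) h N 0).continuousAt.eventually_ne hE).filter_mono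
      nhdsWithin_le_nhds
  have h1 : ∀ᶠ E' in 𝓝[≠] E, -∑ n ∈ Finset.Icc 1 N,
      (unrm N (fun i => E - b i) n) * (unrm N (fun i => E' - b i) n) =
      slope (fun E => unrm N (fun i => E - b i) 1) E E' := by
    filter_upwards [h0, self_mem_nhdsWithin] with E' h2 h3
    have h4 := wron (N := N) (b := b) (E := E) (E' := E') 0 (Nat.zero_le _)
    have h5 : unrm N (fun i => E - b i) 0 = 1 := div_self hE
    have h6 : unrm N (fun i => E' - b i) 0 = 1 := div_self h2
    rw [h5, h6, one_mul, mul_one, zero_add] at h4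
    rw [slope_def_field, h4]
    have h7 : E' - E ≠ 0 := sub_ne_zero.mpr h3
    field_simp
    ring
  refine Tendsto.congr' h1 ?_
  apply Tendsto.neg
  apply tendsto_finsetSum
  intro n _
  have h2 : Tendsto (fun E' => unrm N (fun i => E' - b i) n) (𝓝[≠] E)
      (𝓝 (unrm N (fun i => E - b i) n)) := (unrm_cont hE n).tendsto.mono_left nhdsWithin_le_nhds
  have h3 := h2.const_mul (unrm N (fun i => E - b i) n)
  rwa [← sq] at h3

lemma tst_deriv {N : ℕ} {V : ℤ → ℝ} {δ E : ℝ} (hE : E ∉ Zr N V) :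
    HasDerivAt (tst N V δ) (rr N V E / δ) E := by
  have hR : sol N (fun i => E - V (i : ℕ)) 0 ≠ 0 := fun h => hE (Or.inl h)
  have hL : sol N (fun i => E - V (-((i : ℕ) : ℤ))) 0 ≠ 0 := fun h => hE (Or.inr h)
  have h1 := unrm_deriv (N := N) (b := fun i => V (i : ℕ)) hR
  have h2 := unrm_deriv (N := N) (b := fun i => V (-((i : ℕ) : ℤ))) hL
  have h3 := ((((hasDerivAt_id E).sub_const (V 0)).sub h1).sub h2).div_const δ
  have h4 : rr N V E = 1 - (-∑ n ∈ Finset.Icc 1 N, (unrm N (fun i => E - V (i : ℕ)) n) ^ 2) -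
    (-∑ n ∈ Finset.Icc 1 N, (unrm N (fun i => E - V (-((i : ℕ) : ℤ))) n) ^ 2) := by
    rw [sub_neg_eq_add, sub_neg_eq_add]
    rfl
  rw [h4]
  exact h3

lemma rr_meas (N : ℕ) (V : ℤ → ℝ) : Measurable (rr N V) := by
  have h1 : ∀ n, Measurable fun E => unrm N (aR V E) n := fun n =>
    (sol_continuous (aR_cont V) N n).measurable.div (sol_continuous (aR_cont V) N 0).measurable
  have h2 : ∀ n, Measurable fun E => unrm N (aL V E) n := fun n =>
    (sol_continuous (aL_cont V) N n).measurable.div (sol_continuous (aL_cont V) N 0).measurable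
  unfold rr
  have h3 : Measurable fun E => ∑ n ∈ Finset.Icc 1 N, (unrm N (aR V E) n) ^ 2 :=
    Finset.measurable_sum _ fun n _ => (h1 n).pow_const 2
  have h4 : Measurable fun E => ∑ n ∈ Finset.Icc 1 N, (unrm N (aL V E) n) ^ 2 :=
    Finset.measurable_sum _ fun n _ => (h2 n).pow_const 2
  exact (measurable_const.add h3).add h4

/-! ### the pieces -/

/-- number of exceptional energies below E -/
noncomputable def cnt (N : ℕ) (V : ℤ → ℝ) (E : ℝ) : ℕ :=
  ((Zr_finite N V).toFinset.filter (fun z => z < E)).card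

/-- the intervals between exceptional energies -/
def pc (N : ℕ) (V : ℤ → ℝ) (i : ℕ) : Set ℝ := {E | E ∉ Zr N V ∧ cnt N V E = i}

lemma pc_ordConnected (N : ℕ) (V : ℤ → ℝ) (i : ℕ) : (pc N V i).OrdConnected := by
  constructor
  rintro x ⟨hx, hxi⟩ y ⟨hy, hyi⟩ w ⟨hxw, hwy⟩
  have h1 : (Zr_finite N V).toFinset.filter (fun z => z < x) ⊆
      (Zr_finite N V).toFinset.filter (fun z => z < w) := by
    intro z hz
    rw [Finset.mem_filter] at hz ⊢
    exact ⟨hz.1, hz.2.trans_le hxw⟩
  have h2 : (Zr_finite N V).toFinset.filter (fun z => z < w) ⊆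
      (Zr_finite N V).toFinset.filter (fun z => z < y) := by
    intro z hz
    rw [Finset.mem_filter] at hz ⊢
    exact ⟨hz.1, hz.2.trans_le hwy⟩
  have h3 : (Zr_finite N V).toFinset.filter (fun z => z < x) =
      (Zr_finite N V).toFinset.filter (fun z => z < y) := by
    apply Finset.eq_of_subset_of_card_le (h1.trans h2)
    change cnt N V y ≤ cnt N V x
    rw [hxi, hyi]
  have h4 : (Zr_finite N V).toFinset.filter (fun z => z < w) =
      (Zr_finite N V).toFinset.filter (fun z => z < x) := by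
    apply Finset.Subset.antisymm _ h1
    rw [h3]
    exact h2
  refine ⟨?_, ?_⟩
  · intro hw
    rcases hwy.lt_or_eq with h | h
    · have : w ∈ (Zr_finite N V).toFinset.filter (fun z => z < y) := by
        rw [Finset.mem_filter, Set.Finite.mem_toFinset]
        exact ⟨hw, h⟩
      rw [← h3, Finset.mem_filter] at this
      exact absurd this.2 (not_lt.mpr hxw)
    · rw [h] at hw
      exact hy hw
  · rw [← hxi, cnt, h4, cnt]

lemma pc_meas (N : ℕ) (V : ℤ → ℝ) (i : ℕ) : MeasurableSet (pc N V i) :=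
  (pc_ordConnected N V i).measurableSet

lemma cnt_le (N : ℕ) (V : ℤ → ℝ) (E : ℝ) : cnt N V E ≤ (Zr_finite N V).toFinset.card :=
  Finset.card_filter_le _ _

lemma pc_union (N : ℕ) (V : ℤ → ℝ) :
    ⋃ i ∈ Finset.range ((Zr_finite N V).toFinset.card + 1), pc N V i = (Zr N V)ᶜ := by
  ext E
  simp only [Set.mem_iUnion, Finset.mem_range, Set.mem_compl_iff]
  constructor
  · rintro ⟨i, _, h⟩
    exact h.1
  · intro h
    exact ⟨cnt N V E, Nat.lt_succ_of_le (cnt_le N V E), h, rfl⟩

lemma pc_disj (N : ℕ) (V : ℤ → ℝ) : Pairwise (fun i j => Disjoint (pc N V i) (pc N V j)) := by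
  intro i j hij
  rw [Set.disjoint_left]
  rintro E ⟨_, h1⟩ ⟨_, h2⟩
  exact hij (h1.symm.trans h2)

lemma tst_inj {N : ℕ} {V : ℤ → ℝ} {δ : ℝ} (hδ : 0 < δ) (i : ℕ) :
    Set.InjOn (tst N V δ) (pc N V i) := by
  apply StrictMonoOn.injOn
  apply strictMonoOn_of_deriv_pos (pc_ordConnected N V i).convex
  · intro E hE
    exact (tst_deriv hE.1).continuousAt.continuousWithinAt
  · intro E hE
    have hE' := interior_subset hE
    rw [(tst_deriv hE'.1).deriv]
    have := rr_pos N V E
    positivity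

lemma tst_contOn {N : ℕ} {V : ℤ → ℝ} {δ : ℝ} (i : ℕ) :
    ContinuousOn (tst N V δ) (pc N V i) := fun _ hE =>
  (tst_deriv hE.1).continuousAt.continuousWithinAt

lemma exists_G {N : ℕ} {V : ℤ → ℝ} {δ : ℝ} (hδ : 0 < δ) (i : ℕ) :
    ∃ G : ℝ → ℝ≥0∞, Measurable G ∧
      ∀ E ∈ pc N V i, G (tst N V δ E) = ENNReal.ofReal (rr N V E)⁻¹ ^ (15 / 16 : ℝ) := by
  have he : MeasurableEmbedding ((pc N V i).domRestrict (tst N V δ)) :=
    (tst_contOn i).measurableEmbedding (pc_meas N V i) (tst_inj hδ i)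
  have hg : Measurable fun E : pc N V i => ENNReal.ofReal (rr N V E)⁻¹ ^ (15 / 16 : ℝ) := by
    have : Measurable fun E : ℝ => ENNReal.ofReal (rr N V E)⁻¹ ^ (15 / 16 : ℝ) :=
      (rr_meas N V).inv.ennreal_ofReal.pow_const _
    exact this.comp measurable_subtype_coe
  obtain ⟨G, hG, hG2⟩ := he.exists_measurable_extend hg (fun _ => inferInstance)
  refine ⟨G, hG, fun E hE => ?_⟩
  have := congrFun hG2 ⟨E, hE⟩
  exact this

end Pool.Agent.R993.LP.BB
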