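import Pool.Agent.R993.LP.B2
import Pool.Agent.R993.LP.B3

namespace Pool.Agent.R993.LP.BB

open MeasureTheory Filter Topology Pool.Agent.R993.LP
open scoped ENNReal

/-! ### the localisation functional as a sum over the pieces -/

lemma sum_pieces {N : ℕ} {V : ℤ → ℝ} {δ : ℝ} (hδ : 0 < δ) (t : ℝ) {T : Finset ℝ}
    (hT : ∀ E, E ∈ T ↔ E ∉ Zr N V ∧ tst N V δ E = t) {G : ℕ → ℝ → ℝ≥0∞}
    (hG : ∀ i, ∀ E ∈ pc N V i, G i (tst N V δ E) = ENNReal.ofReal (rr N V E)⁻¹ ^ (15 / 16 : ℝ)) :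
    ∑ i ∈ Finset.range ((Zr_finite N V).toFinset.card + 1),
      (tst N V δ '' pc N V i).indicator (G i) t =
    ∑ E ∈ T, ENNReal.ofReal (rr N V E)⁻¹ ^ (15 / 16 : ℝ) := by
  rw [← Finset.sum_fiberwise_of_maps_to (s := T)
    (t := Finset.range ((Zr_finite N V).toFinset.card + 1)) (g := cnt N V)
    (fun E _ => Finset.mem_range.mpr (Nat.lt_succ_of_le (cnt_le N V E)))]
  refine Finset.sum_congr rfl fun i _ => ?_
  by_cases h : t ∈ tst N V δ '' pc N V i
  · rw [Set.indicator_of_mem h]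
    obtain ⟨E, hE, hEt⟩ := h
    have h1 : T.filter (fun E => cnt N V E = i) = {E} := by
      ext E'
      rw [Finset.mem_filter, hT, Finset.mem_singleton]
      constructor
      · rintro ⟨⟨h2, h3⟩, h4⟩
        exact tst_inj hδ i ⟨h2, h4⟩ hE (h3.trans hEt.symm)
      · rintro rfl
        exact ⟨⟨hE.1, hEt⟩, hE.2⟩
    rw [h1, Finset.sum_singleton, ← hG i E hE, hEt]
  · rw [Set.indicator_of_notMem h]
    symm
    apply Finset.sum_eq_zero
    intro E hE
    rw [Finset.mem_filter, hT] at hE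
    exact absurd ⟨E, ⟨hE.1.1, hE.2⟩, hE.1.2⟩ h

lemma dec_sum {N : ℕ} {V : ℤ → ℝ} {δ t : ℝ} (hδ : 0 < δ)
    {ψ : Fin (2 * N + 1) → ℤ → ℝ} {e : Fin (2 * N + 1) → ℝ}
    (h : IsDec N (Function.update V 0 (V 0 + δ * t)) ψ e) {G : ℕ → ℝ → ℝ≥0∞}
    (hG : ∀ i, ∀ E ∈ pc N V i, G i (tst N V δ E) = ENNReal.ofReal (rr N V E)⁻¹ ^ (15 / 16 : ℝ)) :
    ∑ j, ENNReal.ofReal (ψ j 0) ^ (15 / 16 : ℝ) =
    ∑ i ∈ Finset.range ((Zr_finite N V).toFinset.card + 1),
      (tst N V δ '' pc N V i).indicator (G i) t := by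
  classical
  rw [sum_pieces hδ t (T := (Finset.univ.filter (fun j => ψ j 0 ≠ 0)).image e) _ hG,
    Finset.sum_image]
  · rw [Finset.sum_filter]
    refine Finset.sum_congr rfl fun j _ => ?_
    split_ifs with hj
    · rw [dec_val hδ h hj]
    · push Not at hj
      rw [hj]
      simp
  · intro i hi j hj hij
    simp only [Finset.coe_filter, Finset.mem_univ, true_and, Set.mem_ofPred_eq] at hi hj
    exact dec_inj hδ h hi hj hij
  · intro E
    simp only [Finset.mem_image, Finset.mem_filter, Finset.mem_univ, true_and]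
    constructor
    · rintro ⟨j, hj, rfl⟩
      obtain ⟨h1, -, h2⟩ := dec_struct hδ h hj
      exact ⟨h1, h2⟩
    · rintro ⟨h1, h2⟩
      exact dec_surj hδ h h1 h2

lemma Zf_eq {N : ℕ} {V : ℤ → ℝ} {δ : ℝ} (hδ : 0 < δ) {G : ℕ → ℝ → ℝ≥0∞}
    (hG : ∀ i, ∀ E ∈ pc N V i, G i (tst N V δ E) = ENNReal.ofReal (rr N V E)⁻¹ ^ (15 / 16 : ℝ))
    (t : ℝ) :
    Zf N (Function.update V 0 (V 0 + δ * t)) =
    ∑ i ∈ Finset.range ((Zr_finite N V).toFinset.card + 1),
      (tst N V δ '' pc N V i).indicator (G i) t := by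
  apply le_antisymm
  · obtain ⟨ψ, e, h⟩ := exists_dec N (Function.update V 0 (V 0 + δ * t))
    rw [← dec_sum hδ h hG]
    exact iInf_le_of_le ψ (iInf_le_of_le e (iInf_le_of_le h le_rfl))
  · refine le_iInf fun ψ => le_iInf fun e => le_iInf fun h => ?_
    rw [dec_sum hδ h hG]

lemma rho_meas : Measurable rho := by
  have h : Continuous rho := by
    unfold rho tent
    fun_prop
  exact h.measurable

lemma dual_aux (N : ℕ) (V : ℤ → ℝ) {δ : ℝ} (hδ : 0 < δ) :
    ∫⁻ t, Zf N (Function.update V 0 (V 0 + δ * t)) ∂law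
      = ∫⁻ E : ℝ, ENNReal.ofReal (δ⁻¹ * rho (tst N V δ E)) *
        ENNReal.ofReal (rr N V E) ^ (1 / 16 : ℝ) := by
  choose G hGm hG using fun i => exists_G (N := N) (V := V) hδ i
  set R := Finset.range ((Zr_finite N V).toFinset.card + 1) with hR
  have himg : ∀ i, MeasurableSet (tst N V δ '' pc N V i) := fun i =>
    (pc_meas N V i).image_of_continuousOn_injOn (tst_contOn i) (tst_inj hδ i)
  have hrm : Measurable fun t => ENNReal.ofReal (rho t) := rho_meas.ennreal_ofReal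
  -- left side
  have hL : ∫⁻ t, Zf N (Function.update V 0 (V 0 + δ * t)) ∂law =
      ∑ i ∈ R, ∫⁻ t in tst N V δ '' pc N V i, ENNReal.ofReal (rho t) * G i t := by
    simp_rw [Zf_eq hδ hG]
    rw [law, lintegral_withDensity_eq_lintegral_mul _ hrm
      (Finset.measurable_sum _ fun i _ => (hGm i).indicator (himg i))]
    simp_rw [Pi.mul_apply, Finset.mul_sum]
    rw [lintegral_finsetSum (μ := volume) _ (f := fun i t => ENNReal.ofReal (rho t) *
      (tst N V δ '' pc N V i).indicator (G i) t)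
      fun i _ => hrm.mul ((hGm i).indicator (himg i))]
    refine Finset.sum_congr rfl fun i _ => ?_
    rw [← lintegral_indicator (himg i)]
    refine lintegral_congr fun t => ?_
    by_cases h : t ∈ tst N V δ '' pc N V i
    · rw [Set.indicator_of_mem h, Set.indicator_of_mem h]
    · rw [Set.indicator_of_notMem h, Set.indicator_of_notMem h, mul_zero]
  rw [hL]
  -- right side
  have hZ : (volume (Zr N V)) = 0 := (Zr_finite N V).measure_zero _
  rw [← setLIntegral_univ, ← Set.compl_union_self (Zr N V),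
    setLIntegral_congr (union_ae_eq_left_of_ae_eq_empty (ae_eq_empty.mpr hZ)), ← pc_union,
    lintegral_biUnion_finset (fun i _ j _ hij => pc_disj N V hij) (fun i _ => pc_meas N V i)]
  refine Finset.sum_congr rfl fun i _ => ?_
  rw [lintegral_image_eq_lintegral_abs_deriv_mul (pc_meas N V i)
    (fun E hE => (tst_deriv hE.1).hasDerivWithinAt) (tst_inj hδ i)]
  refine setLIntegral_congr_fun (pc_meas N V i) fun E hE => ?_
  rw [hG i E hE]
  have hr := rr_pos N V E
  have hr0 : 0 < rr N V E := by linarith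
  rw [abs_of_pos (div_pos hr0 hδ), div_eq_inv_mul, ENNReal.ofReal_mul (by positivity),
    ENNReal.ofReal_mul (by positivity), ENNReal.ofReal_inv_of_pos hr0, ENNReal.inv_rpow]
  have hne0 : ENNReal.ofReal (rr N V E) ≠ 0 := by
    rw [Ne, ENNReal.ofReal_eq_zero]; linarith
  have hnt : ENNReal.ofReal (rr N V E) ≠ ⊤ := ENNReal.ofReal_ne_top
  have key : ENNReal.ofReal (rr N V E) * (ENNReal.ofReal (rr N V E) ^ (15 / 16 : ℝ))⁻¹ =
      ENNReal.ofReal (rr N V E) ^ (1 / 16 : ℝ) := by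
    rw [← ENNReal.rpow_neg]
    nth_rewrite 1 [← ENNReal.rpow_one (ENNReal.ofReal (rr N V E))]
    rw [← ENNReal.rpow_add _ _ hne0 hnt]
    norm_num
  rw [← key]
  ring

end Pool.Agent.R993.LP.BB

namespace Pool.Agent.R993.LP

open MeasureTheory
open scoped ENNReal

/-- spectral averaging identity for the localisation functional -/
theorem dual (N : ℕ) (V : ℤ → ℝ) {δ : ℝ} (hδ : 0 < δ) :
    ∫⁻ t, Zf N (Function.update V 0 (V 0 + δ * t)) ∂law
      = ∫⁻ E : ℝ, ENNReal.ofReal (δ⁻¹ * rho (tst N V δ E)) *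
        ENNReal.ofReal (rr N V E) ^ (1 / 16 : ℝ) :=
  BB.dual_aux N V hδ

end Pool.Agent.R993.LP
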