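import Pool.Agent.R993.LP.Defs

namespace Pool.Agent.R993.LP.BB

open MeasureTheory Filter Topology Pool.Agent.R993.LP
open scoped ENNReal

/-! ### the recursion -/

lemma sol_self (N : ℕ) (a : ℕ → ℝ) : sol N a N = 1 := by
  simp [sol, run]

lemma sol_gt {N n : ℕ} (a : ℕ → ℝ) (h : N < n) : sol N a n = 0 := by
  simp [sol, not_le.mpr h]

lemma sol_rec {N n : ℕ} (a : ℕ → ℝ) (h : n + 1 ≤ N) :
    sol N a n = a (n + 1) * sol N a (n + 1) - sol N a (n + 2) := by
  have e1 : N - n = (N - (n + 1)) + 1 := by omega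
  have e2 : N - (N - (n + 1)) = n + 1 := by omega
  rw [sol, if_pos (by omega), e1, run, stp]
  simp only [e2]
  rw [sol, if_pos h]
  congr 1
  rw [sol]
  split_ifs with h2
  · have e3 : N - (n + 1) = (N - (n + 2)) + 1 := by omega
    rw [e3, run, stp]
  · have e3 : N - (n + 1) = 0 := by omega
    rw [e3, run]

lemma sol_uniq {N : ℕ} {a : ℕ → ℝ} {f : ℕ → ℝ} (h0 : f (N + 1) = 0)
    (hrec : ∀ n, n + 1 ≤ N → f n = a (n + 1) * f (n + 1) - f (n + 2)) :
    ∀ n, n ≤ N → f n = f N * sol N a n := by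
  have key : ∀ k, k ≤ N → f (N - k) = f N * sol N a (N - k) ∧
      f (N - k + 1) = f N * sol N a (N - k + 1) := by
    intro k
    induction k with
    | zero =>
      intro _
      rw [Nat.sub_zero, sol_self, sol_gt a (Nat.lt_succ_self N), h0]
      simp
    | succ k ih =>
      intro hk
      obtain ⟨i1, i2⟩ := ih (by omega)
      have e1 : N - k = N - (k + 1) + 1 := by omega
      have e2 : N - k + 1 = N - (k + 1) + 2 := by omega
      rw [e1] at i1
      rw [e2] at i2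
      refine ⟨?_, i1⟩
      rw [hrec _ (by omega), sol_rec a (by omega : N - (k + 1) + 1 ≤ N), i1, i2]
      ring
  intro n hn
  have := (key (N - n) (by omega)).1
  rwa [show N - (N - n) = n by omega] at this

lemma run_continuous {a : ℝ → ℕ → ℝ} (ha : ∀ i, Continuous fun E => a E i) (v : ℝ × ℝ) (k : ℕ) :
    Continuous fun E => run (a E) k v := by
  induction k with
  | zero => exact continuous_const
  | succ k ih =>
    simp only [run, stp]
    have h1 : Continuous fun E => (run (a E) k v).1 := continuous_fst.comp ih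
    have h2 : Continuous fun E => (run (a E) k v).2 := continuous_snd.comp ih
    exact (((ha k).mul h1).sub h2).prodMk h1

lemma sol_continuous {a : ℝ → ℕ → ℝ} (ha : ∀ i, Continuous fun E => a E i) (N n : ℕ) :
    Continuous fun E => sol N (a E) n := by
  unfold sol
  split_ifs
  · exact continuous_fst.comp (run_continuous (a := fun E i => a E (N - i)) (fun i => ha _) _ _)
  · exact continuous_const

/-- polynomial version of the recursion -/
noncomputable def prun (b : ℕ → ℝ) : ℕ → Polynomial ℝ × Polynomial ℝ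
  | 0 => (1, 0)
  | k + 1 => ((Polynomial.X - Polynomial.C (b k)) * (prun b k).1 - (prun b k).2, (prun b k).1)

lemma prun_eval (b : ℕ → ℝ) (E : ℝ) (k : ℕ) :
    run (fun i => E - b i) k (1, 0) = ((prun b k).1.eval E, (prun b k).2.eval E) := by
  induction k with
  | zero => simp [run, prun]
  | succ k ih => rw [run, ih, stp, prun]; simp

lemma prun_monic (b : ℕ → ℝ) (k : ℕ) :
    (prun b k).1.Monic ∧ (prun b k).1.natDegree = k ∧ (prun b k).2.degree < (k : WithBot ℕ) := by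
  induction k with
  | zero => simp [prun]
  | succ k ih =>
    obtain ⟨h1, h2, h3⟩ := ih
    have hm : ((Polynomial.X - Polynomial.C (b k)) * (prun b k).1).Monic :=
      (Polynomial.monic_X_sub_C _).mul h1
    have hd : ((Polynomial.X - Polynomial.C (b k)) * (prun b k).1).natDegree = k + 1 := by
      rw [(Polynomial.monic_X_sub_C _).natDegree_mul h1, Polynomial.natDegree_X_sub_C, h2, add_comm]
    have hdeg : ((Polynomial.X - Polynomial.C (b k)) * (prun b k).1).degree = ((k + 1 : ℕ) : WithBot ℕ) := by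
      rw [Polynomial.degree_eq_natDegree hm.ne_zero, hd]
    have hlt : (prun b k).2.degree <
        ((Polynomial.X - Polynomial.C (b k)) * (prun b k).1).degree := by
      rw [hdeg]
      refine h3.trans ?_
      exact_mod_cast Nat.lt_succ_self k
    refine ⟨hm.sub_of_left hlt, ?_, ?_⟩
    · have := Polynomial.natDegree_sub_eq_left_of_natDegree_lt (p := (Polynomial.X - Polynomial.C (b k)) * (prun b k).1)
        (q := (prun b k).2) (by
          by_cases hq : (prun b k).2 = 0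
          · rw [hq, hd]; simp
          · exact Polynomial.natDegree_lt_natDegree hq hlt)
      rw [prun, this, hd]
    · change (prun b k).1.degree < _
      rw [Polynomial.degree_eq_natDegree h1.ne_zero, h2]
      exact_mod_cast Nat.lt_succ_self k

lemma sol_zero_set (N : ℕ) (b : ℕ → ℝ) : {E : ℝ | sol N (fun i => E - b i) 0 = 0}.Finite := by
  have h := prun_monic (fun i => b (N - i)) N
  apply (((prun (fun i => b (N - i)) N).1.roots.toFinset).finite_toSet).subset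
  intro E hE
  rw [Set.mem_ofPred_eq, sol, if_pos (Nat.zero_le _), Nat.sub_zero] at hE
  have e : (run (fun i => E - b (N - i)) N (1, 0)).1 = (prun (fun i => b (N - i)) N).1.eval E := by
    rw [prun_eval (fun i => b (N - i)) E N]
  rw [e] at hE
  simp only [Finset.mem_coe, Multiset.mem_toFinset, Polynomial.mem_roots h.1.ne_zero]
  exact hE

/-- exceptional energies -/
def Zr (N : ℕ) (V : ℤ → ℝ) : Set ℝ := {E | sol N (aR V E) 0 = 0 ∨ sol N (aL V E) 0 = 0}

lemma Zr_finite (N : ℕ) (V : ℤ → ℝ) : (Zr N V).Finite := by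
  have h1 := sol_zero_set N (fun i => V i)
  have h2 := sol_zero_set N (fun i => V (-i))
  exact (h1.union h2).subset fun E hE => hE

lemma aR_cont (V : ℤ → ℝ) (i : ℕ) : Continuous fun E => aR V E i := by
  unfold aR; fun_prop

lemma aL_cont (V : ℤ → ℝ) (i : ℕ) : Continuous fun E => aL V E i := by
  unfold aL; fun_prop

/-! ### sums over symmetric windows -/

lemma sum_succ (N : ℕ) (F : ℤ → ℝ) :
    ∑ n ∈ Finset.Icc (-((N + 1 : ℕ) : ℤ)) ((N + 1 : ℕ) : ℤ), F n =
      (∑ n ∈ Finset.Icc (-(N : ℤ)) N, F n) + F (N + 1) + F (-(N + 1)) := by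
  have h : Finset.Icc (-((N + 1 : ℕ) : ℤ)) ((N + 1 : ℕ) : ℤ) =
      insert ((N : ℤ) + 1) (insert (-((N : ℤ) + 1)) (Finset.Icc (-(N : ℤ)) N)) := by
    ext n
    simp only [Finset.mem_Icc, Finset.mem_insert]
    push_cast
    omega
  rw [h, Finset.sum_insert, Finset.sum_insert]
  · ring
  · simp only [Finset.mem_Icc]; omega
  · simp only [Finset.mem_insert, Finset.mem_Icc]; omega

lemma sum_tele (N : ℕ) (w : ℤ → ℝ) :
    ∑ n ∈ Finset.Icc (-(N : ℤ)) N, (w n - w (n - 1)) = w N - w (-(N : ℤ) - 1) := by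
  induction N with
  | zero => simp
  | succ N ih =>
    rw [sum_succ, ih]
    push_cast
    have e1 : (N : ℤ) + 1 - 1 = N := by ring
    have e2 : -((N : ℤ) + 1) = -(N : ℤ) - 1 := by ring
    rw [e1, e2]
    ring

lemma sum_split (N : ℕ) (F : ℤ → ℝ) :
    ∑ n ∈ Finset.Icc (-(N : ℤ)) N, F n =
      F 0 + ∑ n ∈ Finset.Icc 1 N, F n + ∑ n ∈ Finset.Icc 1 N, F (-(n : ℤ)) := by
  induction N with
  | zero => simp
  | succ N ih =>
    rw [sum_succ, ih, Finset.sum_Icc_succ_top (by omega), Finset.sum_Icc_succ_top (by omega)]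
    push_cast
    ring

lemma sum_delta (N : ℕ) (F : ℤ → ℝ) :
    ∑ n ∈ Finset.Icc (-(N : ℤ)) N, (if n = 0 then 1 else 0) * F n = F 0 := by
  rw [Finset.sum_eq_single 0]
  · simp
  · intro b _ hb
    simp [hb]
  · intro h
    exfalso
    apply h
    simp

/-- eigenvectors for different eigenvalues are orthogonal -/
lemma eig_orth {N : ℕ} {W : ℤ → ℝ} {f g : ℤ → ℝ} {a b : ℝ}
    (hf0 : ∀ n : ℤ, (N : ℤ) < |n| → f n = 0) (hg0 : ∀ n : ℤ, (N : ℤ) < |n| → g n = 0)
    (hf : ∀ n : ℤ, |n| ≤ (N : ℤ) → f (n + 1) + f (n - 1) + W n * f n = a * f n)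
    (hg : ∀ n : ℤ, |n| ≤ (N : ℤ) → g (n + 1) + g (n - 1) + W n * g n = b * g n) (hab : a ≠ b) :
    ∑ n ∈ Finset.Icc (-(N : ℤ)) N, f n * g n = 0 := by
  have h1 : (a - b) * ∑ n ∈ Finset.Icc (-(N : ℤ)) N, f n * g n =
      ∑ n ∈ Finset.Icc (-(N : ℤ)) N, ((f (n + 1) * g n - f n * g (n + 1)) -
        (f (n - 1 + 1) * g (n - 1) - f (n - 1) * g (n - 1 + 1))) := by
    rw [Finset.mul_sum]
    refine Finset.sum_congr rfl fun n hn => ?_
    rw [Finset.mem_Icc] at hn
    have hn' : |n| ≤ (N : ℤ) := abs_le.mpr hn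
    have e1 := hf n hn'
    have e2 := hg n hn'
    rw [sub_add_cancel]
    linear_combination (-g n) * e1 + f n * e2
  rw [sum_tele N (fun n => f (n + 1) * g n - f n * g (n + 1))] at h1
  have z1 : f ((N : ℤ) + 1) = 0 := hf0 _ (by rw [abs_of_nonneg (by omega)]; omega)
  have z2 : g ((N : ℤ) + 1) = 0 := hg0 _ (by rw [abs_of_nonneg (by omega)]; omega)
  have z3 : f (-(N : ℤ) - 1) = 0 := hf0 _ (by rw [abs_of_neg (by omega)]; omega)
  have z4 : g (-(N : ℤ) - 1) = 0 := hg0 _ (by rw [abs_of_neg (by omega)]; omega)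
  rw [z1, z2, z3, z4] at h1
  have h2 : (a - b) * ∑ n ∈ Finset.Icc (-(N : ℤ)) N, f n * g n = 0 := by
    rw [h1]; ring
  rcases mul_eq_zero.mp h2 with h3 | h3
  · exact absurd (sub_eq_zero.mp h3) hab
  · exact h3

/-! ### the normalised solution on the window -/

/-- the normalised two-sided solution -/
noncomputable def UU (N : ℕ) (V : ℤ → ℝ) (E : ℝ) (n : ℤ) : ℝ :=
  if 0 ≤ n then unrm N (aR V E) n.toNat else unrm N (aL V E) (-n).toNat

lemma UU_nat (N : ℕ) (V : ℤ → ℝ) (E : ℝ) (n : ℕ) : UU N V E n = unrm N (aR V E) n := by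
  simp [UU]

lemma UU_zero {N : ℕ} {V : ℤ → ℝ} {E : ℝ} (hE : E ∉ Zr N V) : UU N V E 0 = 1 := by
  have := UU_nat N V E 0
  rw [Nat.cast_zero] at this
  rw [this, unrm, div_self]
  intro h
  exact hE (Or.inl h)

lemma unrm_zeroL {N : ℕ} {V : ℤ → ℝ} {E : ℝ} (hE : E ∉ Zr N V) : unrm N (aL V E) 0 = 1 := by
  rw [unrm, div_self]
  intro h
  exact hE (Or.inr h)

lemma UU_neg {N : ℕ} {V : ℤ → ℝ} {E : ℝ} (hE : E ∉ Zr N V) (n : ℕ) :
    UU N V E (-(n : ℤ)) = unrm N (aL V E) n := by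
  by_cases hn : n = 0
  · subst hn
    simp only [Nat.cast_zero, neg_zero]
    rw [UU_zero hE, unrm_zeroL hE]
  · rw [UU, if_neg (by omega)]
    simp

lemma unrm_rec {N n : ℕ} (a : ℕ → ℝ) (h : n + 1 ≤ N) :
    unrm N a n = a (n + 1) * unrm N a (n + 1) - unrm N a (n + 2) := by
  rw [unrm, unrm, unrm, sol_rec a h]
  ring

lemma unrm_gt {N n : ℕ} (a : ℕ → ℝ) (h : N < n) : unrm N a n = 0 := by
  rw [unrm, sol_gt a h, zero_div]

lemma UU_supp {N : ℕ} {V : ℤ → ℝ} {E : ℝ} (n : ℤ) (hn : (N : ℤ) < |n|) : UU N V E n = 0 := by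
  rw [UU]
  split_ifs with h
  · apply unrm_gt
    rw [abs_of_nonneg h] at hn
    omega
  · apply unrm_gt
    push Not at h
    rw [abs_of_neg h] at hn
    omega

lemma rr_eq {N : ℕ} {V : ℤ → ℝ} {E : ℝ} (hE : E ∉ Zr N V) :
    ∑ n ∈ Finset.Icc (-(N : ℤ)) N, UU N V E n * UU N V E n = rr N V E := by
  rw [sum_split N (fun n => UU N V E n * UU N V E n), rr]
  simp only [UU_nat, UU_neg hE, UU_zero hE]
  simp only [← sq]
  ring

lemma rr_pos (N : ℕ) (V : ℤ → ℝ) (E : ℝ) : 1 ≤ rr N V E := by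
  unfold rr
  have h1 : 0 ≤ ∑ n ∈ Finset.Icc 1 N, (unrm N (aR V E) n) ^ 2 :=
    Finset.sum_nonneg fun _ _ => sq_nonneg _
  have h2 : 0 ≤ ∑ n ∈ Finset.Icc 1 N, (unrm N (aL V E) n) ^ 2 :=
    Finset.sum_nonneg fun _ _ => sq_nonneg _
  linarith

/-- the eigenvalue equation of UU for the modified potential -/
lemma UU_eig {N : ℕ} {V : ℤ → ℝ} {δ t E : ℝ} (hδ : 0 < δ) (hE : E ∉ Zr N V)
    (ht : tst N V δ E = t) (n : ℤ) (hn : |n| ≤ (N : ℤ)) :
    UU N V E (n + 1) + UU N V E (n - 1) + (Function.update V 0 (V 0 + δ * t)) n * UU N V E n =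
      E * UU N V E n := by
  rcases lt_trichotomy n 0 with h | h | h
  · obtain ⟨m, rfl⟩ : ∃ m : ℕ, n = -((m : ℤ) + 1) := ⟨(-n - 1).toNat, by omega⟩
    rw [Function.update_of_ne (by omega)]
    rw [abs_neg, abs_of_nonneg (by omega)] at hn
    have e1 : -((m : ℤ) + 1) + 1 = -((m : ℕ) : ℤ) := by ring
    have e2 : -((m : ℤ) + 1) - 1 = -((m + 2 : ℕ) : ℤ) := by push_cast; ring
    have e3 : -((m : ℤ) + 1) = -((m + 1 : ℕ) : ℤ) := by push_cast; ring
    rw [e1, e2, e3, UU_neg hE, UU_neg hE, UU_neg hE, unrm_rec (aL V E) (by omega : m + 1 ≤ N), aL]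
    ring
  · subst h
    rw [Function.update_self, zero_add, zero_sub, UU_zero hE]
    have e1 := UU_nat N V E 1
    have e2 := UU_neg hE 1
    rw [Nat.cast_one] at e1 e2
    rw [e1, e2]
    rw [tst, div_eq_iff hδ.ne'] at ht
    linear_combination -ht
  · obtain ⟨m, rfl⟩ : ∃ m : ℕ, n = (m : ℤ) + 1 := ⟨(n - 1).toNat, by omega⟩
    rw [Function.update_of_ne (by omega)]
    rw [abs_of_nonneg (by omega)] at hn
    have e1 : (m : ℤ) + 1 + 1 = ((m + 2 : ℕ) : ℤ) := by push_cast; ring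
    have e2 : (m : ℤ) + 1 - 1 = ((m : ℕ) : ℤ) := by ring
    have e3 : (m : ℤ) + 1 = ((m + 1 : ℕ) : ℤ) := by push_cast; ring
    rw [e1, e2, e3, UU_nat, UU_nat, UU_nat, unrm_rec (aR V E) (by omega : m + 1 ≤ N), aR]
    ring

/-! ### the structure of a decomposition -/

lemma dec_sq {N : ℕ} {W : ℤ → ℝ} {ψ : Fin (2 * N + 1) → ℤ → ℝ} {e : Fin (2 * N + 1) → ℝ}
    (h : IsDec N W ψ e) (j : Fin (2 * N + 1)) :
    ∑ n ∈ Finset.Icc (-(N : ℤ)) N, ψ j n * ψ j n = ψ j 0 := by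
  have h1 : ∑ n ∈ Finset.Icc (-(N : ℤ)) N, (∑ i, ψ i n) * ψ j n = ψ j 0 := by
    have : ∀ n : ℤ, (∑ i, ψ i n) * ψ j n = (if n = 0 then 1 else 0) * ψ j n := fun n => by
      rw [h.sum]
    simp_rw [this]
    exact sum_delta N (ψ j)
  rw [← h1]
  simp_rw [Finset.sum_mul]
  rw [Finset.sum_comm, Finset.sum_eq_single j]
  · intro i _ hij
    exact h.orth i j hij
  · intro hj
    exact absurd (Finset.mem_univ j) hj

lemma dec_zero {N : ℕ} {W : ℤ → ℝ} {ψ : Fin (2 * N + 1) → ℤ → ℝ} {e : Fin (2 * N + 1) → ℝ}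
    (h : IsDec N W ψ e) {j : Fin (2 * N + 1)} (hj : ψ j 0 = 0) (n : ℤ) : ψ j n = 0 := by
  by_cases hn : (N : ℤ) < |n|
  · exact h.supp j n hn
  · push Not at hn
    have h1 := dec_sq h j
    rw [hj, Finset.sum_eq_zero_iff_of_nonneg (fun n _ => mul_self_nonneg _)] at h1
    exact mul_self_eq_zero.mp (h1 n (Finset.mem_Icc.mpr (abs_le.mp hn)))

lemma dec_struct {N : ℕ} {V : ℤ → ℝ} {δ t : ℝ} (hδ : 0 < δ)
    {ψ : Fin (2 * N + 1) → ℤ → ℝ} {e : Fin (2 * N + 1) → ℝ}
    (h : IsDec N (Function.update V 0 (V 0 + δ * t)) ψ e) {j : Fin (2 * N + 1)} (hj : ψ j 0 ≠ 0) :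
    e j ∉ Zr N V ∧ (∀ n, ψ j n = ψ j 0 * UU N V (e j) n) ∧ tst N V δ (e j) = t := by
  -- right half line
  have hR : ∀ n : ℕ, n ≤ N → ψ j n = ψ j N * sol N (aR V (e j)) n := by
    apply sol_uniq (f := fun n : ℕ => ψ j n)
    · apply h.supp
      rw [abs_of_nonneg (by omega)]
      push_cast
      omega
    · intro n hn
      have h1 := h.eig j ((n + 1 : ℕ) : ℤ) (by rw [abs_of_nonneg (by omega)]; exact_mod_cast hn)
      rw [Function.update_of_ne (by omega)] at h1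
      have e1 : ((n + 1 : ℕ) : ℤ) + 1 = ((n + 2 : ℕ) : ℤ) := by push_cast; ring
      have e2 : ((n + 1 : ℕ) : ℤ) - 1 = ((n : ℕ) : ℤ) := by push_cast; ring
      rw [e1, e2] at h1
      simp only [aR]
      linear_combination h1
  have hL : ∀ n : ℕ, n ≤ N → ψ j (-(n : ℤ)) = ψ j (-(N : ℤ)) * sol N (aL V (e j)) n := by
    apply sol_uniq (f := fun n : ℕ => ψ j (-(n : ℤ)))
    · apply h.supp
      rw [abs_neg, abs_of_nonneg (by omega)]
      push_cast
      omega
    · intro n hn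
      have h1 := h.eig j (-((n + 1 : ℕ) : ℤ))
        (by rw [abs_neg, abs_of_nonneg (by omega)]; exact_mod_cast hn)
      rw [Function.update_of_ne (by omega)] at h1
      have e1 : -((n + 1 : ℕ) : ℤ) - 1 = -((n + 2 : ℕ) : ℤ) := by push_cast; ring
      have e2 : -((n + 1 : ℕ) : ℤ) + 1 = -((n : ℕ) : ℤ) := by push_cast; ring
      rw [e1, e2] at h1
      simp only [aL]
      linear_combination h1
  have hR0 := hR 0 (Nat.zero_le _)
  have hL0 := hL 0 (Nat.zero_le _)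
  simp only [Nat.cast_zero, neg_zero] at hR0 hL0
  have hRne : sol N (aR V (e j)) 0 ≠ 0 := fun hz => hj (by rw [hR0, hz, mul_zero])
  have hLne : sol N (aL V (e j)) 0 ≠ 0 := fun hz => hj (by rw [hL0, hz, mul_zero])
  have hE : e j ∉ Zr N V := by
    rintro (hz | hz)
    · exact hRne hz
    · exact hLne hz
  have hform : ∀ n, ψ j n = ψ j 0 * UU N V (e j) n := by
    intro n
    by_cases hn : (N : ℤ) < |n|
    · rw [h.supp j n hn, UU_supp n hn, mul_zero]
    · push Not at hn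
      rcases le_or_gt 0 n with h0 | h0
      · obtain ⟨m, rfl⟩ := Int.eq_ofNat_of_zero_le h0
        rw [abs_of_nonneg h0] at hn
        rw [UU_nat, hR m (by omega), hR0, unrm]
        field_simp
      · obtain ⟨m, rfl⟩ : ∃ m : ℕ, n = -(m : ℤ) := ⟨(-n).toNat, by omega⟩
        rw [abs_neg, abs_of_nonneg (by omega)] at hn
        rw [UU_neg hE, hL m (by omega), hL0, unrm]
        field_simp
  refine ⟨hE, hform, ?_⟩
  have h1 := h.eig j 0 (by simp)
  rw [Function.update_self, zero_add, zero_sub, hform 1, hform (-1)] at h1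
  have e1 := UU_nat N V (e j) 1
  have e2 := UU_neg hE 1
  rw [Nat.cast_one] at e1 e2
  rw [e1, e2] at h1
  rw [tst, div_eq_iff hδ.ne']
  have h2 : ψ j 0 * (unrm N (aR V (e j)) 1 + unrm N (aL V (e j)) 1 + (V 0 + δ * t) - e j) = 0 := by
    linear_combination h1
  rcases mul_eq_zero.mp h2 with h3 | h3
  · exact absurd h3 hj
  · linear_combination -h3

lemma dec_val {N : ℕ} {V : ℤ → ℝ} {δ t : ℝ} (hδ : 0 < δ)
    {ψ : Fin (2 * N + 1) → ℤ → ℝ} {e : Fin (2 * N + 1) → ℝ}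
    (h : IsDec N (Function.update V 0 (V 0 + δ * t)) ψ e) {j : Fin (2 * N + 1)} (hj : ψ j 0 ≠ 0) :
    ψ j 0 = (rr N V (e j))⁻¹ := by
  obtain ⟨hE, hform, -⟩ := dec_struct hδ h hj
  have h1 := dec_sq h j
  have h2 : ∑ n ∈ Finset.Icc (-(N : ℤ)) N, ψ j n * ψ j n = ψ j 0 ^ 2 * rr N V (e j) := by
    rw [← rr_eq hE, Finset.mul_sum]
    refine Finset.sum_congr rfl fun n _ => ?_
    rw [hform n]
    ring
  rw [h2] at h1
  have h3 : ψ j 0 * rr N V (e j) = 1 := by
    have : ψ j 0 * (ψ j 0 * rr N V (e j) - 1) = 0 := by linear_combination h1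
    rcases mul_eq_zero.mp this with h4 | h4
    · exact absurd h4 hj
    · linarith
  exact eq_inv_of_mul_eq_one_left h3

lemma dec_inj {N : ℕ} {V : ℤ → ℝ} {δ t : ℝ} (hδ : 0 < δ)
    {ψ : Fin (2 * N + 1) → ℤ → ℝ} {e : Fin (2 * N + 1) → ℝ}
    (h : IsDec N (Function.update V 0 (V 0 + δ * t)) ψ e) {i j : Fin (2 * N + 1)}
    (hi : ψ i 0 ≠ 0) (hj : ψ j 0 ≠ 0) (hij : e i = e j) : i = j := by
  by_contra hne
  have h1 := h.orth i j hne
  obtain ⟨hE, hformi, -⟩ := dec_struct hδ h hi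
  obtain ⟨-, hformj, -⟩ := dec_struct hδ h hj
  have h2 : ∑ n ∈ Finset.Icc (-(N : ℤ)) N, ψ i n * ψ j n = ψ i 0 * ψ j 0 * rr N V (e i) := by
    rw [← rr_eq hE, Finset.mul_sum]
    refine Finset.sum_congr rfl fun n _ => ?_
    rw [hformi n, hformj n, ← hij]
    ring
  rw [h2] at h1
  have h3 := rr_pos N V (e i)
  have : ψ i 0 * ψ j 0 * rr N V (e i) ≠ 0 := mul_ne_zero (mul_ne_zero hi hj) (by linarith)
  exact this h1

lemma dec_surj {N : ℕ} {V : ℤ → ℝ} {δ t : ℝ} (hδ : 0 < δ)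
    {ψ : Fin (2 * N + 1) → ℤ → ℝ} {e : Fin (2 * N + 1) → ℝ}
    (h : IsDec N (Function.update V 0 (V 0 + δ * t)) ψ e) {E : ℝ} (hE : E ∉ Zr N V)
    (ht : tst N V δ E = t) : ∃ j, ψ j 0 ≠ 0 ∧ e j = E := by
  by_contra hcon
  push Not at hcon
  have h1 : ∑ n ∈ Finset.Icc (-(N : ℤ)) N, (∑ i, ψ i n) * UU N V E n = 1 := by
    have : ∀ n : ℤ, (∑ i, ψ i n) * UU N V E n = (if n = 0 then 1 else 0) * UU N V E n :=
      fun n => by rw [h.sum]
    simp_rw [this]
    rw [sum_delta N (UU N V E), UU_zero hE]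
  simp_rw [Finset.sum_mul] at h1
  rw [Finset.sum_comm, Finset.sum_eq_zero] at h1
  · exact zero_ne_one h1
  · intro j _
    by_cases hj : ψ j 0 = 0
    · apply Finset.sum_eq_zero
      intro n _
      rw [dec_zero h hj n, zero_mul]
    · exact eig_orth (h.supp j) (fun n hn => UU_supp n hn) (h.eig j)
        (fun n hn => UU_eig hδ hE ht n hn) (hcon j hj)

end Pool.Agent.R993.LP.BB
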