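import Pool.Agent.R993.LP.B1

namespace Pool.Agent.R993.LP.BB

open MeasureTheory Filter Topology Pool.Agent.R993.LP
open scoped ENNReal Matrix

/-! ### existence of a decomposition -/

/-- the restriction of the operator to the window, as a matrix -/
noncomputable def mat (N : ℕ) (W : ℤ → ℝ) : Matrix (Fin (2 * N + 1)) (Fin (2 * N + 1)) ℝ :=
  Matrix.of fun i k => (if k = i then W ((i : ℤ) - N) else 0) +
    (if (k : ℕ) = i + 1 then 1 else 0) + (if (i : ℕ) = k + 1 then 1 else 0)

lemma mat_herm (N : ℕ) (W : ℤ → ℝ) : (mat N W).IsHermitian := by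
  ext i k
  simp only [Matrix.conjTranspose_apply, mat, Matrix.of_apply, star_trivial]
  by_cases h : i = k
  · subst h; simp
  · rw [if_neg h, if_neg (Ne.symm h)]
    ring

/-- extension of a vector by zero -/
noncomputable def vext (N : ℕ) (v : Fin (2 * N + 1) → ℝ) (n : ℤ) : ℝ :=
  if h : |n| ≤ (N : ℤ) then v ⟨(n + N).toNat, by have := abs_le.mp h; omega⟩ else 0

lemma vext_fin (N : ℕ) (v : Fin (2 * N + 1) → ℝ) (i : Fin (2 * N + 1)) :
    vext N v ((i : ℤ) - N) = v i := by
  have hi := i.isLt
  rw [vext, dif_pos (by rw [abs_le]; omega)]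
  congr 1
  apply Fin.ext
  simp

lemma vext_gt (N : ℕ) (v : Fin (2 * N + 1) → ℝ) (n : ℤ) (h : (N : ℤ) < |n|) : vext N v n = 0 := by
  rw [vext, dif_neg (not_le.mpr h)]

lemma sum_fin (N : ℕ) (F : ℤ → ℝ) :
    ∑ n ∈ Finset.Icc (-(N : ℤ)) N, F n = ∑ i : Fin (2 * N + 1), F ((i : ℤ) - N) := by
  symm
  apply Finset.sum_bij (fun (i : Fin (2 * N + 1)) _ => ((i : ℤ) - N))
  · intro i _
    have := i.isLt
    rw [Finset.mem_Icc]; omega
  · intro i _ j _ h
    apply Fin.ext
    have : (i : ℤ) = j := by linarith
    exact_mod_cast this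
  · intro n hn
    rw [Finset.mem_Icc] at hn
    refine ⟨⟨(n + N).toNat, by omega⟩, Finset.mem_univ _, ?_⟩
    simp only
    omega
  · intro i _
    rfl

lemma mat_mulVec (N : ℕ) (W : ℤ → ℝ) (v : Fin (2 * N + 1) → ℝ) (i : Fin (2 * N + 1)) :
    (mat N W *ᵥ v) i = vext N v ((i : ℤ) - N + 1) + vext N v ((i : ℤ) - N - 1) +
      W ((i : ℤ) - N) * vext N v ((i : ℤ) - N) := by
  have hi := i.isLt
  have h1 : ∑ k : Fin (2 * N + 1), (if k = i then W ((i : ℤ) - N) else 0) * v k =
      W ((i : ℤ) - N) * v i := by
    simp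
  have h2 : ∑ k : Fin (2 * N + 1), (if (k : ℕ) = i + 1 then (1 : ℝ) else 0) * v k =
      vext N v ((i : ℤ) - N + 1) := by
    by_cases h : (i : ℕ) + 1 < 2 * N + 1
    · rw [Finset.sum_eq_single (⟨i + 1, h⟩ : Fin (2 * N + 1))]
      · have := vext_fin N v ⟨i + 1, h⟩
        simp only [Nat.cast_add, Nat.cast_one] at this
        rw [show (i : ℤ) - N + 1 = (i : ℤ) + 1 - N by ring, this]
        simp
      · intro b _ hb
        rw [if_neg, zero_mul]
        intro hb'
        exact hb (Fin.ext hb')
      · intro h'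
        exact absurd (Finset.mem_univ _) h'
    · rw [vext_gt, Finset.sum_eq_zero]
      · intro k _
        have := k.isLt
        rw [if_neg (by omega), zero_mul]
      · rw [lt_abs]; omega
  have h3 : ∑ k : Fin (2 * N + 1), (if (i : ℕ) = k + 1 then (1 : ℝ) else 0) * v k =
      vext N v ((i : ℤ) - N - 1) := by
    by_cases h : 1 ≤ (i : ℕ)
    · rw [Finset.sum_eq_single (⟨i - 1, by omega⟩ : Fin (2 * N + 1))]
      · have := vext_fin N v ⟨i - 1, by omega⟩
        simp only [Nat.cast_sub h, Nat.cast_one] at this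
        rw [show (i : ℤ) - N - 1 = (i : ℤ) - 1 - N by ring, this]
        simp only
        rw [if_pos (by omega), one_mul]
      · intro b _ hb
        rw [if_neg, zero_mul]
        intro hb'
        apply hb
        apply Fin.ext
        simp only
        omega
      · intro h'
        exact absurd (Finset.mem_univ _) h'
    · rw [vext_gt, Finset.sum_eq_zero]
      · intro k _
        rw [if_neg (by omega), zero_mul]
      · rw [lt_abs]; omega
  rw [vext_fin, ← h1, ← h2, ← h3, Matrix.mulVec, dotProduct, ← Finset.sum_add_distrib,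
    ← Finset.sum_add_distrib]
  refine Finset.sum_congr rfl fun k _ => ?_
  rw [mat, Matrix.of_apply]
  ring

lemma exists_dec (N : ℕ) (W : ℤ → ℝ) : ∃ ψ e, IsDec N W ψ e := by
  have hA := mat_herm N W
  set φ := hA.eigenvectorBasis with hφ
  have hval : ∀ j, mat N W *ᵥ (φ j) = hA.eigenvalues j • (φ j : Fin (2 * N + 1) → ℝ) := fun j =>
    hA.mulVec_eigenvectorBasis j
  let c : Fin (2 * N + 1) := ⟨N, by omega⟩
  refine ⟨fun j n => φ j c * vext N (φ j) n, hA.eigenvalues, ?_, ?_, ?_, ?_⟩
  · intro j n hn
    simp only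
    rw [vext_gt N _ n hn, mul_zero]
  · intro j n hn
    have hn' := abs_le.mp hn
    let i : Fin (2 * N + 1) := ⟨(n + N).toNat, by omega⟩
    have hi : (i : ℤ) - N = n := by
      simp only [i]
      omega
    have h1 := mat_mulVec N W (φ j) i
    rw [hval j, hi] at h1
    have h2 := vext_fin N (φ j) i
    rw [hi] at h2
    simp only [Pi.smul_apply, smul_eq_mul] at h1
    rw [← h2] at h1
    simp only
    linear_combination (-(φ j c)) * h1
  · intro i j hij
    have h1 : inner ℝ (φ i) (φ j) = (0 : ℝ) := φ.orthonormal.2 hij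
    rw [sum_fin]
    simp only [vext_fin]
    have h2 : inner ℝ (φ i) (φ j) = ∑ k, φ i k * φ j k := by
      rw [PiLp.inner_apply]
      refine Finset.sum_congr rfl fun k _ => ?_
      simp [mul_comm]
    rw [h2] at h1
    have h3 : ∑ k : Fin (2 * N + 1), φ i c * φ i k * (φ j c * φ j k) =
        φ i c * φ j c * ∑ k, φ i k * φ j k := by
      rw [Finset.mul_sum]
      refine Finset.sum_congr rfl fun k _ => ?_
      ring
    rw [h3, h1, mul_zero]
  · intro n
    simp only
    by_cases hn : (N : ℤ) < |n|
    · rw [if_neg (by rintro rfl; rw [abs_zero] at hn; omega)]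
      apply Finset.sum_eq_zero
      intro j _
      rw [vext_gt N _ n hn, mul_zero]
    · push Not at hn
      have hn' := abs_le.mp hn
      let i : Fin (2 * N + 1) := ⟨(n + N).toNat, by omega⟩
      have hi : (i : ℤ) - N = n := by
        simp only [i]
        omega
      have h1 := φ.sum_repr (EuclideanSpace.single c (1 : ℝ))
      have h2 := congrArg (fun v : EuclideanSpace ℝ (Fin (2 * N + 1)) => v i) h1
      simp only at h2
      have h3 : ∀ j, φ.repr (EuclideanSpace.single c (1 : ℝ)) j = φ j c := by
        intro j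
        rw [φ.repr_apply_apply, EuclideanSpace.inner_single_right]
        simp
      simp only [h3] at h2
      have h4 : (∑ j, (φ j c) • (φ j)).ofLp i = ∑ j, φ j c * φ j i := by
        simp
      rw [h4] at h2
      have h5 : ∀ j, vext N (φ j) n = φ j i := by
        intro j
        have := vext_fin N (φ j) i
        rwa [hi] at this
      simp only [h5]
      rw [h2]
      by_cases hn0 : n = 0
      · have : i = c := by
          apply Fin.ext
          simp only [i, c]
          omega
        rw [if_pos hn0, this]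
        simp
      · have : i ≠ c := by
          intro h
          have := congrArg Fin.val h
          simp only [i, c] at this
          omega
        rw [if_neg hn0]
        simp [this]

end Pool.Agent.R993.LP.BB
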