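import Mathlib

/-! # Limit-periodic operators with pure point spectrum: basic definitions

Common definitions for the proof of MP_0eac64_mp (frozen statement S15671). -/

namespace Pool.Agent.R993.LP

open MeasureTheory Filter Topology
open scoped ENNReal

/-- the tent function on [-1,1] -/
noncomputable def tent (t : ℝ) : ℝ := max 0 (1 - |t|)

/-- the density of the single site law, supported on [-1,2] -/
noncomputable def rho (t : ℝ) : ℝ := (tent t + tent (t - 1)) / 2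

/-- the single site law -/
noncomputable def law : Measure ℝ := volume.withDensity (fun t => ENNReal.ofReal (rho t))

/-- one step of the transfer recursion -/
def stp (a : ℝ) (v : ℝ × ℝ) : ℝ × ℝ := (a * v.1 - v.2, v.1)

/-- n steps of the transfer recursion, a 0 is applied first -/
def run (a : ℕ → ℝ) : ℕ → ℝ × ℝ → ℝ × ℝ
  | 0, v => v
  | n + 1, v => stp (a n) (run a n v)

/-- average of F over one random transfer step -/
noncomputable def avg (δ c : ℝ) (F : ℝ × ℝ → ℝ≥0∞) (v : ℝ × ℝ) : ℝ≥0∞ :=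
  ∫⁻ t, F (stp (c - δ * t) v) ∂law

/-- average of F over n independent random transfer steps, c 0 is applied first -/
noncomputable def iter (δ : ℝ) : ℕ → (ℕ → ℝ) → (ℝ × ℝ → ℝ≥0∞) → (ℝ × ℝ → ℝ≥0∞)
  | 0, _, F => F
  | n + 1, c, F => avg δ (c 0) (iter δ n (fun i => c (i + 1)) F)

/-- the function |w₁|^(-1/2) -/
noncomputable def hs (w : ℝ × ℝ) : ℝ≥0∞ := ‖w.1‖ₑ ^ (-(1 / 2) : ℝ)

/-- the solution of s (n-1) = a n * s n - s (n+1), n = N, ..., 1, with s N = 1, s (N+1) = 0,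
extended by 0 beyond N -/
noncomputable def sol (N : ℕ) (a : ℕ → ℝ) (n : ℕ) : ℝ :=
  if n ≤ N then (run (fun i => a (N - i)) (N - n) (1, 0)).1 else 0

/-- the normalised solution -/
noncomputable def unrm (N : ℕ) (a : ℕ → ℝ) (n : ℕ) : ℝ := sol N a n / sol N a 0

/-- coefficients on the right half line -/
def aR (V : ℤ → ℝ) (E : ℝ) (n : ℕ) : ℝ := E - V n

/-- coefficients on the left half line -/
def aL (V : ℤ → ℝ) (E : ℝ) (n : ℕ) : ℝ := E - V (-n)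

/-- the value of the potential at 0 for which E is an eigenvalue, relative to V 0, in units δ -/
noncomputable def tst (N : ℕ) (V : ℤ → ℝ) (δ E : ℝ) : ℝ :=
  (E - V 0 - unrm N (aR V E) 1 - unrm N (aL V E) 1) / δ

/-- the squared norm of the eigenfunction normalised to be 1 at 0 -/
noncomputable def rr (N : ℕ) (V : ℤ → ℝ) (E : ℝ) : ℝ :=
  1 + ∑ n ∈ Finset.Icc 1 N, (unrm N (aR V E) n) ^ 2 + ∑ n ∈ Finset.Icc 1 N, (unrm N (aL V E) n) ^ 2

/-- orthogonal decompositions of δ₀ into eigenvectors of the restriction to [-N,N] -/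
structure IsDec (N : ℕ) (V : ℤ → ℝ) (ψ : Fin (2 * N + 1) → ℤ → ℝ) (e : Fin (2 * N + 1) → ℝ) :
    Prop where
  supp : ∀ j (n : ℤ), (N : ℤ) < |n| → ψ j n = 0
  eig : ∀ j (n : ℤ), |n| ≤ (N : ℤ) → ψ j (n + 1) + ψ j (n - 1) + V n * ψ j n = e j * ψ j n
  orth : ∀ i j, i ≠ j → ∑ n ∈ Finset.Icc (-(N : ℤ)) N, ψ i n * ψ j n = 0
  sum : ∀ n : ℤ, ∑ j, ψ j n = if n = 0 then 1 else 0

/-- the localisation functional: infimum of the sum of the weights to the power 15/16 -/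
noncomputable def Zf (N : ℕ) (V : ℤ → ℝ) : ℝ≥0∞ :=
  ⨅ (ψ : Fin (2 * N + 1) → ℤ → ℝ) (e : Fin (2 * N + 1) → ℝ) (_ : IsDec N V ψ e),
    ∑ j, ENNReal.ofReal (ψ j 0) ^ (15 / 16 : ℝ)

/-- the eigenvectors of the Schrödinger operator with potential V on the whole line -/
def eigs (V : ℤ → ℝ) : Set (lp (fun _ : ℤ => ℂ) 2) :=
  {ψ | ∃ E : ℝ, ∀ n : ℤ, ψ (n + 1) + ψ (n - 1) + (V n : ℂ) * ψ n = (E : ℂ) * ψ n}

/-! The three main inputs have the following statements.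

A. theorem fm {δ M : ℝ} (hδ : 0 < δ) (hδ1 : δ ≤ 1) (hM : 0 ≤ M) :
    ∃ C q : ℝ≥0∞, C ≠ ⊤ ∧ q < 1 ∧ ∀ c : ℕ → ℝ, (∀ i, |c i| ≤ M) → ∀ n : ℕ, 1 ≤ n →
      ∀ v : ℝ × ℝ, iter δ n c hs v ≤ C * q ^ n * ‖v‖ₑ ^ (-(1 / 2) : ℝ)

B. theorem dual (N : ℕ) (V : ℤ → ℝ) {δ : ℝ} (hδ : 0 < δ) :
    ∫⁻ t, Zf N (Function.update V 0 (V 0 + δ * t)) ∂law
      = ∫⁻ E : ℝ, ENNReal.ofReal (δ⁻¹ * rho (tst N V δ E)) * ENNReal.ofReal (rr N V E) ^ (1 / 16 : ℝ)

C. theorem measurable_Zf (N : ℕ) : Measurable (Zf N)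
   theorem compactness {V : ℤ → ℝ} {M : ℝ} (hV : ∀ n, |V n| ≤ M) (W : ℕ → ℕ) (hW : Tendsto W atTop atTop)
     {A : ℝ≥0∞} (hA : A ≠ ⊤) (h : ∃ᶠ k in atTop, Zf (W k) V ≤ A) :
     lp.single 2 (0 : ℤ) (1 : ℂ) ∈ (Submodule.span ℂ (eigs V)).topologicalClosure
-/

end Pool.Agent.R993.LP
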