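import Mathlib
import Pool.Agent.R993.LP.Defs

/-! # Lower semicontinuity and compactness of the localisation functional (helper784)

Subtask LP-C of MP_0eac64_mp. -/

namespace Pool.Agent.R993.LP

open MeasureTheory Filter Topology
open scoped ENNReal

section facts

variable {N : ℕ} {V : ℤ → ℝ} {ψ : Fin (2 * N + 1) → ℤ → ℝ} {e : Fin (2 * N + 1) → ℝ}

lemma IsDec.val (h : IsDec N V ψ e) (i : Fin (2 * N + 1)) :
    ψ i 0 = ∑ n ∈ Finset.Icc (-(N : ℤ)) N, ψ i n ^ 2 := by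
  have h1 : ∑ n ∈ Finset.Icc (-(N : ℤ)) N, ψ i n * ∑ j, ψ j n = ψ i 0 := by
    simp only [h.sum, mul_ite, mul_one, mul_zero]
    rw [Finset.sum_ite_eq']
    simp
  have h2 : ∑ n ∈ Finset.Icc (-(N : ℤ)) N, ψ i n * ∑ j, ψ j n
      = ∑ j, ∑ n ∈ Finset.Icc (-(N : ℤ)) N, ψ i n * ψ j n := by
    simp only [Finset.mul_sum]
    exact Finset.sum_comm
  rw [← h1, h2, Finset.sum_eq_single i]
  · exact Finset.sum_congr rfl fun n _ => by ring
  · intro j _ hj
    exact h.orth i j (Ne.symm hj)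
  · simp

lemma IsDec.sq_le (h : IsDec N V ψ e) (i : Fin (2 * N + 1)) (n : ℤ) :
    ψ i n ^ 2 ≤ ψ i 0 := by
  by_cases hn : n ∈ Finset.Icc (-(N : ℤ)) N
  · rw [h.val i]
    exact Finset.single_le_sum (f := fun n => ψ i n ^ 2) (fun _ _ => sq_nonneg _) hn
  · have h0 : ψ i n = 0 := by
      apply h.supp
      by_contra hcon
      apply hn
      rw [Finset.mem_Icc]
      exact abs_le.1 (not_lt.1 hcon)
    rw [h0, h.val i]
    have : (0 : ℝ) ≤ ∑ n ∈ Finset.Icc (-(N : ℤ)) N, ψ i n ^ 2 :=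
      Finset.sum_nonneg fun _ _ => sq_nonneg _
    simpa using this

lemma IsDec.nonneg (h : IsDec N V ψ e) (i : Fin (2 * N + 1)) : 0 ≤ ψ i 0 :=
  (sq_nonneg _).trans (h.sq_le i 0)

lemma IsDec.le_one (h : IsDec N V ψ e) (i : Fin (2 * N + 1)) : ψ i 0 ≤ 1 := by
  have h1 := h.sq_le i 0
  have h2 := h.nonneg i
  nlinarith

lemma IsDec.abs_le_one (h : IsDec N V ψ e) (i : Fin (2 * N + 1)) (n : ℤ) : |ψ i n| ≤ 1 := by
  have h1 := (h.sq_le i n).trans (h.le_one i)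
  exact abs_le_one_iff_mul_self_le_one.2 (by nlinarith)

lemma IsDec.total (h : IsDec N V ψ e) : ∑ j, ψ j 0 = 1 := by
  rw [h.sum]; simp

lemma IsDec.sum_sq (h : IsDec N V ψ e) (B : Finset (Fin (2 * N + 1))) :
    ∑ n ∈ Finset.Icc (-(N : ℤ)) N, (∑ j ∈ B, ψ j n) ^ 2 = ∑ j ∈ B, ψ j 0 := by
  have h1 : ∀ n, (∑ j ∈ B, ψ j n) ^ 2 = ∑ i ∈ B, ∑ j ∈ B, ψ i n * ψ j n := by
    intro n
    rw [sq, Finset.sum_mul_sum]
  simp only [h1]
  rw [Finset.sum_comm]
  refine Finset.sum_congr rfl fun i hi => ?_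
  rw [Finset.sum_comm, Finset.sum_eq_single i]
  · rw [h.val i]
    exact Finset.sum_congr rfl fun n _ => by ring
  · intro j _ hj
    exact h.orth i j (Ne.symm hj)
  · intro hi'
    exact absurd hi hi'

lemma IsDec.eig_bound (h : IsDec N V ψ e) {M : ℝ} (hM : ∀ n : ℤ, |n| ≤ (N : ℤ) → |V n| ≤ M)
    (i : Fin (2 * N + 1)) (hi : ψ i 0 ≠ 0) : |e i| ≤ M + 2 := by
  obtain ⟨n, hn, hmax⟩ := Finset.exists_max_image (Finset.Icc (-(N : ℤ)) N) (fun n => |ψ i n|)
    ⟨0, by simp⟩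
  have hn' : |n| ≤ (N : ℤ) := abs_le.2 (Finset.mem_Icc.1 hn)
  have hall : ∀ k, |ψ i k| ≤ |ψ i n| := by
    intro k
    by_cases hk : k ∈ Finset.Icc (-(N : ℤ)) N
    · exact hmax k hk
    · have h0 : ψ i k = 0 := by
        apply h.supp
        by_contra hcon
        apply hk
        rw [Finset.mem_Icc]
        exact abs_le.1 (not_lt.1 hcon)
      rw [h0, abs_zero]
      exact abs_nonneg _
  have hpos : 0 < |ψ i n| := (abs_pos.2 hi).trans_le (hall 0)
  have heq := h.eig i n hn'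
  have h1 : |e i| * |ψ i n| ≤ (M + 2) * |ψ i n| := by
    rw [← abs_mul, ← heq]
    have k1 := abs_add_le (ψ i (n + 1) + ψ i (n - 1)) (V n * ψ i n)
    have k2 := abs_add_le (ψ i (n + 1)) (ψ i (n - 1))
    have k3 := hall (n + 1)
    have k4 := hall (n - 1)
    have k5 : |V n * ψ i n| ≤ M * |ψ i n| := by
      rw [abs_mul]
      exact mul_le_mul_of_nonneg_right (hM n hn') (abs_nonneg _)
    linarith
  exact le_of_mul_le_mul_right h1 hpos

lemma IsDec.zero_of (h : IsDec N V ψ e) (i : Fin (2 * N + 1)) (hi : ψ i 0 = 0) (n : ℤ) :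
    ψ i n = 0 := by
  have := h.sq_le i n
  rw [hi] at this
  exact pow_eq_zero_iff (two_ne_zero) |>.1 (le_antisymm this (sq_nonneg _))

/-- replace the eigenvalues of zero vectors by zero. -/
lemma IsDec.fix (h : IsDec N V ψ e) :
    IsDec N V ψ (fun i => if ψ i 0 = 0 then 0 else e i) where
  supp := h.supp
  orth := h.orth
  sum := h.sum
  eig := by
    intro j n hn
    by_cases hj : ψ j 0 = 0
    · simp [hj, h.zero_of j hj]
    · simp only [hj, if_false]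
      exact h.eig j n hn

end facts

/-- compact space of candidates. -/
def KK (m : ℕ) (M : ℝ) : Set ((Fin m → ℤ → ℝ) × (Fin m → ℝ)) :=
  (Set.univ.pi fun _ => Set.univ.pi fun _ => Set.Icc (-1) 1) ×ˢ
    (Set.univ.pi fun _ => Set.Icc (-(M + 2)) (M + 2))

lemma KK_compact (m : ℕ) (M : ℝ) : IsCompact (KK m M) :=
  (isCompact_univ_pi fun _ => isCompact_univ_pi fun _ => isCompact_Icc).prod
    (isCompact_univ_pi fun _ => isCompact_Icc)

lemma mem_KK {m : ℕ} {M : ℝ} {p : (Fin m → ℤ → ℝ) × (Fin m → ℝ)} :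
    p ∈ KK m M ↔ (∀ i n, |p.1 i n| ≤ 1) ∧ ∀ i, |p.2 i| ≤ M + 2 := by
  simp only [KK, Set.mem_prod, Set.mem_univ_pi, Set.mem_Icc, abs_le]

/-- closed set of potentials bounded by `M` on the window with a decomposition of small weight. -/
def Cl (N : ℕ) (M : ℝ) (c : ℝ≥0∞) : Set (ℤ → ℝ) :=
  {V | (∀ n : ℤ, |n| ≤ (N : ℤ) → |V n| ≤ M) ∧
    ∃ (ψ : Fin (2 * N + 1) → ℤ → ℝ) (e : Fin (2 * N + 1) → ℝ), IsDec N V ψ e ∧
      ∑ j, ENNReal.ofReal (ψ j 0) ^ (15 / 16 : ℝ) ≤ c}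

lemma Cl_closed (N : ℕ) (M : ℝ) (c : ℝ≥0∞) : IsClosed (Cl N M c) := by
  have : CompactSpace (KK (2 * N + 1) M) := isCompact_iff_compactSpace.1 (KK_compact _ _)
  set Q : Set ((ℤ → ℝ) × KK (2 * N + 1) M) :=
    {q | (∀ n : ℤ, |n| ≤ (N : ℤ) → |q.1 n| ≤ M) ∧
      (∀ j (n : ℤ), (N : ℤ) < |n| → q.2.1.1 j n = 0) ∧
      (∀ j (n : ℤ), |n| ≤ (N : ℤ) → q.2.1.1 j (n + 1) + q.2.1.1 j (n - 1) + q.1 n * q.2.1.1 j n
        = q.2.1.2 j * q.2.1.1 j n) ∧
      (∀ i j, i ≠ j → ∑ n ∈ Finset.Icc (-(N : ℤ)) N, q.2.1.1 i n * q.2.1.1 j n = 0) ∧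
      (∀ n : ℤ, ∑ j, q.2.1.1 j n = if n = 0 then 1 else 0) ∧
      ∑ j, ENNReal.ofReal (q.2.1.1 j 0) ^ (15 / 16 : ℝ) ≤ c} with hQ
  have hcl : IsClosed Q := by
    have k1 : IsClosed {q : (ℤ → ℝ) × KK (2 * N + 1) M |
        ∀ n : ℤ, |n| ≤ (N : ℤ) → |q.1 n| ≤ M} := by
      simp only [Set.ofPred_forall]
      refine isClosed_iInter fun n => isClosed_iInter fun _ => ?_
      exact isClosed_le (by fun_prop) continuous_const
    have k2 : IsClosed {q : (ℤ → ℝ) × KK (2 * N + 1) M |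
        ∀ j (n : ℤ), (N : ℤ) < |n| → q.2.1.1 j n = 0} := by
      simp only [Set.ofPred_forall]
      refine isClosed_iInter fun j => isClosed_iInter fun n => isClosed_iInter fun _ => ?_
      exact isClosed_eq (by fun_prop) continuous_const
    have k3 : IsClosed {q : (ℤ → ℝ) × KK (2 * N + 1) M |
        ∀ j (n : ℤ), |n| ≤ (N : ℤ) → q.2.1.1 j (n + 1) + q.2.1.1 j (n - 1) + q.1 n * q.2.1.1 j n
        = q.2.1.2 j * q.2.1.1 j n} := by
      simp only [Set.ofPred_forall]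
      refine isClosed_iInter fun j => isClosed_iInter fun n => isClosed_iInter fun _ => ?_
      exact isClosed_eq (by fun_prop) (by fun_prop)
    have k4 : IsClosed {q : (ℤ → ℝ) × KK (2 * N + 1) M |
        ∀ i j, i ≠ j → ∑ n ∈ Finset.Icc (-(N : ℤ)) N, q.2.1.1 i n * q.2.1.1 j n = 0} := by
      simp only [Set.ofPred_forall]
      refine isClosed_iInter fun i => isClosed_iInter fun j => isClosed_iInter fun _ => ?_
      exact isClosed_eq (by fun_prop) continuous_const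
    have k5 : IsClosed {q : (ℤ → ℝ) × KK (2 * N + 1) M |
        ∀ n : ℤ, ∑ j, q.2.1.1 j n = if n = 0 then 1 else 0} := by
      simp only [Set.ofPred_forall]
      refine isClosed_iInter fun n => ?_
      exact isClosed_eq (by fun_prop) continuous_const
    have k6 : IsClosed {q : (ℤ → ℝ) × KK (2 * N + 1) M |
        ∑ j, ENNReal.ofReal (q.2.1.1 j 0) ^ (15 / 16 : ℝ) ≤ c} := by
      refine isClosed_le ?_ continuous_const
      refine continuous_finsetSum _ fun j _ => ?_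
      refine ENNReal.continuous_rpow_const.comp (ENNReal.continuous_ofReal.comp ?_)
      fun_prop
    exact k1.inter (k2.inter (k3.inter (k4.inter (k5.inter k6))))
  have himg : Cl N M c = Prod.fst '' Q := by
    ext V
    constructor
    · rintro ⟨hV, ψ, e, hd, hc⟩
      have hd' := hd.fix
      refine ⟨(V, ⟨(ψ, fun i => if ψ i 0 = 0 then 0 else e i), ?_⟩), ?_, rfl⟩
      · rw [mem_KK]
        refine ⟨fun i n => hd.abs_le_one i n, fun i => ?_⟩
        have hM0 : 0 ≤ M := (abs_nonneg _).trans (hV 0 (by simp))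
        by_cases hi : ψ i 0 = 0
        · simp only [hi, if_true, abs_zero]; linarith
        · simp only [hi, if_false]; exact hd.eig_bound hV i hi
      · exact ⟨hV, hd'.supp, hd'.eig, hd'.orth, hd'.sum, hc⟩
    · rintro ⟨⟨V', p⟩, ⟨h1, h2, h3, h4, h5, h6⟩, rfl⟩
      exact ⟨h1, p.1.1, p.1.2, ⟨h2, h3, h4, h5⟩, h6⟩
  rw [himg]
  exact isClosedMap_fst_of_compactSpace Q hcl

theorem measurable_Zf (N : ℕ) : Measurable (Zf N) := by
  refine measurable_of_Iio fun c => ?_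
  have h : Zf N ⁻¹' Set.Iio c = ⋃ (M : ℕ) (q : {q : ℚ // ENNReal.ofReal (q : ℝ) < c}),
      Cl N M (ENNReal.ofReal ((q : ℚ) : ℝ)) := by
    ext V
    simp only [Set.mem_preimage, Set.mem_Iio, Set.mem_iUnion]
    constructor
    · intro hV
      rw [Zf] at hV
      simp only [iInf_lt_iff] at hV
      obtain ⟨ψ, e, hd, hlt⟩ := hV
      obtain ⟨q, hq0, hq1, hq2⟩ := ENNReal.lt_iff_exists_rat_btwn.1 hlt
      obtain ⟨M, hM⟩ := exists_nat_ge (∑ n ∈ Finset.Icc (-(N : ℤ)) N, |V n|)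
      refine ⟨M, ⟨q, hq2⟩, ?_, ψ, e, hd, hq1.le⟩
      intro n hn
      refine le_trans ?_ hM
      exact Finset.single_le_sum (f := fun n => |V n|) (fun _ _ => abs_nonneg _)
        (Finset.mem_Icc.2 (abs_le.1 hn))
    · rintro ⟨M, ⟨q, hq⟩, -, ψ, e, hd, hle⟩
      refine lt_of_le_of_lt ?_ hq
      rw [Zf]
      exact (iInf₂_le_of_le ψ e (iInf_le_of_le hd hle))
  rw [h]
  exact MeasurableSet.iUnion fun M => MeasurableSet.iUnion fun q =>
    (Cl_closed N M _).measurableSet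

/-- padding of a finite family to a family indexed by `Fin m`. -/
lemma exists_pad {ι : Type*} [DecidableEq ι] (G : Finset ι) (m : ℕ) (hG : G.card ≤ m)
    (a : ι → (ℤ → ℝ)) (b : ι → ℝ) :
    ∃ p : (Fin m → ℤ → ℝ) × (Fin m → ℝ),
      (∀ i, ((p.1 i = 0 ∧ p.2 i = 0) ∨ ∃ j ∈ G, p.1 i = a j ∧ p.2 i = b j)) ∧
      ∀ n, ∑ i, p.1 i n = ∑ j ∈ G, a j n := by
  classical
  let σ := G.equivFin
  refine ⟨(fun i => if h : (i : ℕ) < G.card then a (σ.symm ⟨i, h⟩) else 0,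
    fun i => if h : (i : ℕ) < G.card then b (σ.symm ⟨i, h⟩) else 0), ?_, ?_⟩
  · intro i
    by_cases h : (i : ℕ) < G.card
    · right
      refine ⟨σ.symm ⟨i, h⟩, (σ.symm ⟨i, h⟩).2, ?_, ?_⟩ <;> simp [h]
    · left
      simp [h]
  · intro n
    set g : ℕ → ℝ := fun i => if h : i < G.card then a (σ.symm ⟨i, h⟩) n else 0 with hg
    have h1 : ∑ i : Fin m, ((if h : (i : ℕ) < G.card then a (σ.symm ⟨i, h⟩) else 0) : ℤ → ℝ) n
        = ∑ i : Fin m, g i := by
      refine Finset.sum_congr rfl fun i _ => ?_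
      by_cases h : (i : ℕ) < G.card
      · simp [hg, h]
      · simp [hg, h]
    rw [h1, ← Finset.sum_range]
    have h2 : ∑ i ∈ Finset.range G.card, g i = ∑ i ∈ Finset.range m, g i := by
      refine Finset.sum_subset (Finset.range_subset_range.2 hG) fun i _ hi => ?_
      rw [Finset.mem_range] at hi
      simp [hg, hi]
    rw [← h2, Finset.sum_range]
    have h3 : ∑ i : Fin G.card, g i = ∑ i : Fin G.card, a (σ.symm i) n := by
      refine Finset.sum_congr rfl fun i _ => ?_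
      simp [hg, i.2]
    rw [h3, Equiv.sum_comp σ.symm (fun j : G => a j n), Finset.sum_coe_sort G (fun j => a j n)]

/-- good approximations on a window. -/
lemma approx {V : ℤ → ℝ} {M : ℝ} (hV : ∀ n, |V n| ≤ M) {a s : ℝ} (ha : 0 ≤ a) (hs : 0 < s)
    {m : ℕ} (hm : 1 / s ^ 16 ≤ m) {N : ℕ} (hZ : Zf N V < ENNReal.ofReal (a + 1)) :
    ∃ p ∈ KK m M, (∀ i (n : ℤ), |n| ≤ (N : ℤ) →
        p.1 i (n + 1) + p.1 i (n - 1) + V n * p.1 i n = p.2 i * p.1 i n) ∧
      (∀ F : Finset ℤ, ∑ n ∈ F, ((if n = 0 then 1 else 0) - ∑ i, p.1 i n) ^ 2 ≤ s * (a + 1)) ∧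
      (∀ i (F : Finset ℤ), ∑ n ∈ F, p.1 i n ^ 2 ≤ 1) := by
  classical
  have hM0 : 0 ≤ M := (abs_nonneg _).trans (hV 0)
  rw [Zf] at hZ
  simp only [iInf_lt_iff] at hZ
  obtain ⟨ψ, e, hd, hlt⟩ := hZ
  have hreal : ∑ j, ψ j 0 ^ (15 / 16 : ℝ) ≤ a + 1 := by
    have h1 : ∑ j, ENNReal.ofReal (ψ j 0) ^ (15 / 16 : ℝ)
        = ENNReal.ofReal (∑ j, ψ j 0 ^ (15 / 16 : ℝ)) := by
      rw [ENNReal.ofReal_sum_of_nonneg fun j _ => Real.rpow_nonneg (hd.nonneg j) _]
      refine Finset.sum_congr rfl fun j _ => ?_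
      rw [ENNReal.ofReal_rpow_of_nonneg (hd.nonneg j) (by norm_num)]
    rw [h1] at hlt
    exact ((ENNReal.ofReal_lt_ofReal_iff (by linarith)).1 hlt).le
  set G : Finset (Fin (2 * N + 1)) := Finset.univ.filter fun j => s ^ 16 ≤ ψ j 0 with hG
  have hs16 : 0 < s ^ 16 := by positivity
  have hcard : G.card ≤ m := by
    have h1 : (G.card : ℝ) * s ^ 16 ≤ 1 := by
      calc (G.card : ℝ) * s ^ 16 = ∑ _j ∈ G, s ^ 16 := by simp
        _ ≤ ∑ j ∈ G, ψ j 0 := Finset.sum_le_sum fun j hj => (Finset.mem_filter.1 hj).2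
        _ ≤ ∑ j, ψ j 0 := Finset.sum_le_sum_of_subset_of_nonneg (Finset.filter_subset _ _)
            fun j _ _ => hd.nonneg j
        _ = 1 := hd.total
    have h2 : (G.card : ℝ) ≤ 1 / s ^ 16 := by
      rw [le_div_iff₀ hs16]; exact h1
    exact_mod_cast h2.trans hm
  obtain ⟨p, hp1, hp2⟩ := exists_pad G m hcard ψ e
  have hgood : ∀ j ∈ G, ψ j 0 ≠ 0 := fun j hj => by
    have := (Finset.mem_filter.1 hj).2
    linarith
  refine ⟨p, ?_, ?_, ?_, ?_⟩
  · rw [mem_KK]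
    refine ⟨fun i n => ?_, fun i => ?_⟩
    · rcases hp1 i with ⟨h1, -⟩ | ⟨j, -, h1, -⟩
      · rw [h1]; simp
      · rw [h1]; exact hd.abs_le_one j n
    · rcases hp1 i with ⟨-, h1⟩ | ⟨j, hj, -, h1⟩
      · rw [h1, abs_zero]; linarith
      · rw [h1]; exact hd.eig_bound (fun n _ => hV n) j (hgood j hj)
  · intro i n hn
    rcases hp1 i with ⟨h1, h2⟩ | ⟨j, hj, h1, h2⟩
    · rw [h1, h2]; simp
    · rw [h1, h2]; exact hd.eig j n hn
  · intro F
    have hsum : ∀ n : ℤ, ((if n = 0 then (1 : ℝ) else 0) - ∑ i, p.1 i n)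
        = ∑ j ∈ Gᶜ, ψ j n := by
      intro n
      rw [hp2 n, ← hd.sum n, ← Finset.sum_add_sum_compl G (fun j => ψ j n)]
      ring
    simp only [hsum]
    have hbad : ∑ j ∈ Gᶜ, ψ j 0 ≤ s * (a + 1) := by
      calc ∑ j ∈ Gᶜ, ψ j 0 ≤ ∑ j ∈ Gᶜ, s * ψ j 0 ^ (15 / 16 : ℝ) := by
            refine Finset.sum_le_sum fun j hj => ?_
            have hj' : ψ j 0 < s ^ 16 := by
              rw [Finset.mem_compl, hG, Finset.mem_filter, not_and] at hj
              exact not_le.1 (hj (Finset.mem_univ j))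
            have h0 := hd.nonneg j
            have h1 : ψ j 0 = ψ j 0 ^ (1 / 16 : ℝ) * ψ j 0 ^ (15 / 16 : ℝ) := by
              rcases h0.eq_or_lt with h | h
              · rw [← h]; norm_num
              · rw [← Real.rpow_add h]; norm_num
            have h2 : ψ j 0 ^ (1 / 16 : ℝ) ≤ s := by
              have h3 : ψ j 0 ^ (1 / 16 : ℝ) ≤ (s ^ 16) ^ (1 / 16 : ℝ) :=
                Real.rpow_le_rpow h0 hj'.le (by norm_num)
              have h4 : (s ^ 16) ^ (1 / 16 : ℝ) = s := by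
                rw [← Real.rpow_natCast, ← Real.rpow_mul hs.le]
                norm_num
              rwa [h4] at h3
            calc ψ j 0 = ψ j 0 ^ (1 / 16 : ℝ) * ψ j 0 ^ (15 / 16 : ℝ) := h1
              _ ≤ s * ψ j 0 ^ (15 / 16 : ℝ) :=
                mul_le_mul_of_nonneg_right h2 (Real.rpow_nonneg h0 _)
        _ ≤ ∑ j, s * ψ j 0 ^ (15 / 16 : ℝ) :=
            Finset.sum_le_sum_of_subset_of_nonneg (Finset.subset_univ _) fun j _ _ =>
              mul_nonneg hs.le (Real.rpow_nonneg (hd.nonneg j) _)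
        _ = s * ∑ j, ψ j 0 ^ (15 / 16 : ℝ) := by rw [Finset.mul_sum]
        _ ≤ s * (a + 1) := by gcongr
    refine le_trans ?_ hbad
    rw [← hd.sum_sq]
    have hz : ∀ n : ℤ, n ∉ Finset.Icc (-(N : ℤ)) N → ∑ j ∈ Gᶜ, ψ j n = 0 := by
      intro n hn
      refine Finset.sum_eq_zero fun j _ => ?_
      apply hd.supp
      by_contra hcon
      apply hn
      rw [Finset.mem_Icc]
      exact abs_le.1 (not_lt.1 hcon)
    calc ∑ n ∈ F, (∑ j ∈ Gᶜ, ψ j n) ^ 2
        ≤ ∑ n ∈ F ∪ Finset.Icc (-(N : ℤ)) N, (∑ j ∈ Gᶜ, ψ j n) ^ 2 :=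
          Finset.sum_le_sum_of_subset_of_nonneg Finset.subset_union_left
            fun _ _ _ => sq_nonneg _
      _ = ∑ n ∈ Finset.Icc (-(N : ℤ)) N, (∑ j ∈ Gᶜ, ψ j n) ^ 2 := by
          symm
          refine Finset.sum_subset Finset.subset_union_right fun n _ hn => ?_
          rw [hz n hn]; simp
  · intro i F
    rcases hp1 i with ⟨h1, h2⟩ | ⟨j, hj, h1, h2⟩
    · rw [h1]; simp
    · rw [h1]
      refine le_trans ?_ (hd.le_one j)
      rw [hd.val j]
      calc ∑ n ∈ F, ψ j n ^ 2 ≤ ∑ n ∈ F ∪ Finset.Icc (-(N : ℤ)) N, ψ j n ^ 2 :=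
            Finset.sum_le_sum_of_subset_of_nonneg Finset.subset_union_left
              fun _ _ _ => sq_nonneg _
        _ = ∑ n ∈ Finset.Icc (-(N : ℤ)) N, ψ j n ^ 2 := by
            symm
            refine Finset.sum_subset Finset.subset_union_right fun n _ hn => ?_
            have : ψ j n = 0 := by
              apply hd.supp
              by_contra hcon
              apply hn
              rw [Finset.mem_Icc]
              exact abs_le.1 (not_lt.1 hcon)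
            rw [this]; simp

/-- the compact sets of approximate decompositions with window at least `r`. -/
def CC (V : ℤ → ℝ) (m : ℕ) (M t : ℝ) (r : ℕ) : Set ((Fin m → ℤ → ℝ) × (Fin m → ℝ)) :=
  {p | p ∈ KK m M ∧ (∀ i (n : ℤ), |n| ≤ (r : ℤ) →
        p.1 i (n + 1) + p.1 i (n - 1) + V n * p.1 i n = p.2 i * p.1 i n) ∧
      (∀ F : Finset ℤ, ∑ n ∈ F, ((if n = 0 then 1 else 0) - ∑ i, p.1 i n) ^ 2 ≤ t) ∧
      (∀ i (F : Finset ℤ), ∑ n ∈ F, p.1 i n ^ 2 ≤ 1)}

lemma CC_closed (V : ℤ → ℝ) (m : ℕ) (M t : ℝ) (r : ℕ) : IsClosed (CC V m M t r) := by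
  have k1 : IsClosed {p : (Fin m → ℤ → ℝ) × (Fin m → ℝ) | ∀ i (n : ℤ), |n| ≤ (r : ℤ) →
        p.1 i (n + 1) + p.1 i (n - 1) + V n * p.1 i n = p.2 i * p.1 i n} := by
    simp only [Set.ofPred_forall]
    refine isClosed_iInter fun j => isClosed_iInter fun n => isClosed_iInter fun _ => ?_
    exact isClosed_eq (by fun_prop) (by fun_prop)
  have k2 : IsClosed {p : (Fin m → ℤ → ℝ) × (Fin m → ℝ) |
      ∀ F : Finset ℤ, ∑ n ∈ F, ((if n = 0 then 1 else 0) - ∑ i, p.1 i n) ^ 2 ≤ t} := by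
    simp only [Set.ofPred_forall]
    refine isClosed_iInter fun F => ?_
    exact isClosed_le (by fun_prop) continuous_const
  have k3 : IsClosed {p : (Fin m → ℤ → ℝ) × (Fin m → ℝ) |
      ∀ i (F : Finset ℤ), ∑ n ∈ F, p.1 i n ^ 2 ≤ 1} := by
    simp only [Set.ofPred_forall]
    refine isClosed_iInter fun i => isClosed_iInter fun F => ?_
    exact isClosed_le (by fun_prop) continuous_const
  exact (KK_compact m M).isClosed.inter (k1.inter (k2.inter k3))

lemma limit_exists {V : ℤ → ℝ} {M : ℝ} (hV : ∀ n, |V n| ≤ M) (W : ℕ → ℕ)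
    (hW : Tendsto W atTop atTop) {a s : ℝ} (ha : 0 ≤ a) (hs : 0 < s)
    (h : ∃ᶠ k in atTop, Zf (W k) V < ENNReal.ofReal (a + 1)) {m : ℕ} (hm : 1 / s ^ 16 ≤ m) :
    ∃ p : (Fin m → ℤ → ℝ) × (Fin m → ℝ), ∀ r, p ∈ CC V m M (s * (a + 1)) r := by
  have hne : (⋂ r, CC V m M (s * (a + 1)) r).Nonempty := by
    refine IsCompact.nonempty_iInter_of_sequence_nonempty_isCompact_isClosed _ ?_ ?_ ?_ ?_
    · rintro r p ⟨h1, h2, h3, h4⟩
      refine ⟨h1, fun i n hn => h2 i n (hn.trans (by push_cast; omega)), h3, h4⟩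
    · intro r
      obtain ⟨k, hk1, hk2⟩ := (h.and_eventually (hW.eventually_ge_atTop r)).exists
      obtain ⟨p, hp, h1, h2, h3⟩ := approx hV ha hs hm hk1
      exact ⟨p, hp, fun i n hn => h1 i n (hn.trans (by exact_mod_cast hk2)), h2, h3⟩
    · exact (KK_compact m M).of_isClosed_subset (CC_closed _ _ _ _ _) fun p hp => hp.1
    · intro r
      exact CC_closed _ _ _ _ _
  obtain ⟨p, hp⟩ := hne
  exact ⟨p, fun r => Set.mem_iInter.1 hp r⟩

theorem compactness {V : ℤ → ℝ} {M : ℝ} (hV : ∀ n, |V n| ≤ M) (W : ℕ → ℕ)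
    (hW : Tendsto W atTop atTop)
    {A : ℝ≥0∞} (hA : A ≠ ⊤) (h : ∃ᶠ k in atTop, Zf (W k) V ≤ A) :
    lp.single 2 (0 : ℤ) (1 : ℂ) ∈ (Submodule.span ℂ (eigs V)).topologicalClosure := by
  set a : ℝ := A.toReal with ha'
  have ha : 0 ≤ a := ENNReal.toReal_nonneg
  have h' : ∃ᶠ k in atTop, Zf (W k) V < ENNReal.ofReal (a + 1) := by
    refine h.mono fun k hk => lt_of_le_of_lt hk ?_
    rw [← ENNReal.ofReal_toReal hA]
    exact (ENNReal.ofReal_lt_ofReal_iff (by linarith)).2 (by linarith)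
  have goal : lp.single 2 (0 : ℤ) (1 : ℂ) ∈ closure (Submodule.span ℂ (eigs V) :
      Set (lp (fun _ : ℤ => ℂ) 2)) := by
    rw [Metric.mem_closure_iff]
    intro ε hε
    set η : ℝ := ε / 2 with hη
    have hη0 : 0 < η := by positivity
    set s : ℝ := η ^ 2 / (a + 1) with hs'
    have hs : 0 < s := by positivity
    have hsa : s * (a + 1) = η ^ 2 := by rw [hs']; field_simp
    obtain ⟨m, hm⟩ := exists_nat_ge (1 / s ^ 16)
    obtain ⟨p, hp⟩ := limit_exists hV W hW ha hs h' hm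
    rw [hsa] at hp
    obtain ⟨-, -, h3, h4⟩ := hp 0
    have heq : ∀ i (n : ℤ), p.1 i (n + 1) + p.1 i (n - 1) + V n * p.1 i n
        = p.2 i * p.1 i n := by
      intro i n
      exact (hp n.natAbs).2.1 i n (by rw [Int.natCast_natAbs])
    have h2r : (2 : ℝ≥0∞).toReal = ((2 : ℕ) : ℝ) := by simp
    have hmem : ∀ i, Memℓp (fun n : ℤ => ((p.1 i n : ℝ) : ℂ)) 2 := by
      intro i
      refine memℓp_gen' (C := 1) fun F => ?_
      refine le_trans (le_of_eq ?_) (h4 i F)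
      refine Finset.sum_congr rfl fun n _ => ?_
      rw [h2r, Real.rpow_natCast, Complex.norm_real, Real.norm_eq_abs, sq_abs]
    let x : Fin m → lp (fun _ : ℤ => ℂ) 2 := fun i => ⟨fun n : ℤ => ((p.1 i n : ℝ) : ℂ), hmem i⟩
    have hx : ∀ i n, (x i) n = ((p.1 i n : ℝ) : ℂ) := fun i n => rfl
    refine ⟨∑ i, x i, ?_, ?_⟩
    · refine Submodule.sum_mem _ fun i _ => Submodule.subset_span ?_
      refine ⟨p.2 i, fun n => ?_⟩
      rw [hx, hx, hx]
      have := congrArg (fun r : ℝ => (r : ℂ)) (heq i n)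
      push_cast at this
      exact this
    · rw [dist_eq_norm]
      refine lt_of_le_of_lt (b := η) ?_ (by rw [hη]; linarith)
      refine lp.norm_le_of_forall_sum_le (by norm_num) hη0.le fun F => ?_
      have h5 : η ^ (2 : ℝ≥0∞).toReal = η ^ 2 := by
        rw [h2r, Real.rpow_natCast]
      rw [h5]
      refine le_trans (le_of_eq ?_) (h3 F)
      refine Finset.sum_congr rfl fun n _ => ?_
      have h6 : (lp.single 2 (0 : ℤ) (1 : ℂ) - ∑ i, x i : lp (fun _ : ℤ => ℂ) 2) n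
          = (((if n = 0 then 1 else 0) - ∑ i, p.1 i n : ℝ) : ℂ) := by
        rw [lp.coeFn_sub, Pi.sub_apply, lp.coeFn_sum, Finset.sum_apply]
        simp only [hx]
        push_cast
        congr 1
        by_cases hn : n = 0
        · subst hn; simp
        · simp [hn]
      rw [h6, h2r, Real.rpow_natCast, Complex.norm_real, Real.norm_eq_abs, sq_abs]
  exact goal

end Pool.Agent.R993.LP
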