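import Pool.Agent.R993.LP.Sol

/-! # Comparison of two windows: pointwise inequality and expectations -/

namespace Pool.Agent.R993.LP.M

open MeasureTheory Filter Topology
open scoped ENNReal

/-- bound for the square root of the modulus of the normalised solution -/
noncomputable def xs (N : ℕ) (a : ℕ → ℝ) (n : ℕ) : ℝ≥0∞ :=
  ‖sol N a n‖ₑ ^ (1 / 2 : ℝ) * ‖sol N a 0‖ₑ ^ (-(1 / 2) : ℝ)

/-- bound for the square root of the modulus of the ratio of the left solution -/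
noncomputable def xr (N : ℕ) (a : ℕ → ℝ) (n : ℕ) : ℝ≥0∞ :=
  ‖lft a n‖ₑ ^ (1 / 2 : ℝ) * ‖lft a (N + 1)‖ₑ ^ (-(1 / 2) : ℝ)

lemma pow_div_le {x y : ℝ} (hy : y ≠ 0) : ‖x / y‖ₑ ^ (1 / 8 : ℝ)
    = (‖x‖ₑ ^ (1 / 2 : ℝ) * ‖y‖ₑ ^ (-(1 / 2) : ℝ)) ^ (1 / 4 : ℝ) := by
  rw [div_eq_mul_inv, enorm_mul, enorm_inv hy, ENNReal.mul_rpow_of_nonneg _ _ (by norm_num),
    ENNReal.mul_rpow_of_nonneg _ _ (by norm_num), ← ENNReal.rpow_mul, ← ENNReal.rpow_mul,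
    ← ENNReal.rpow_neg_one, ← ENNReal.rpow_mul]
  norm_num

lemma unrm_le_xs (N : ℕ) (a : ℕ → ℝ) (n : ℕ) :
    ‖unrm N a n‖ₑ ^ (1 / 8 : ℝ) ≤ (xs N a n) ^ (1 / 4 : ℝ) := by
  unfold unrm xs
  by_cases h : sol N a 0 = 0
  · rw [h, div_zero, enorm_zero, ENNReal.zero_rpow_of_pos (by norm_num)]
    exact zero_le
  · exact (pow_div_le h).le

lemma diff_le {N N' : ℕ} (hNN : N ≤ N') {a : ℕ → ℝ} (h1 : sol N a 0 ≠ 0) (h2 : sol N' a 0 ≠ 0)
    (h3 : lft a (N + 1) ≠ 0) {n : ℕ} (hn : n ≤ N + 1) :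
    ‖unrm N' a n - unrm N a n‖ₑ ^ (1 / 8 : ℝ)
      ≤ (xs N' a (N + 1)) ^ (1 / 4 : ℝ) * (xr N a n) ^ (1 / 4 : ℝ) := by
  rw [diff_eq hNN h1 h2 h3 hn, enorm_mul, ENNReal.mul_rpow_of_nonneg _ _ (by norm_num)]
  gcongr
  · exact unrm_le_xs _ _ _
  · exact (pow_div_le h3).le

/-- one coordinate of the norm -/
lemma norm_step {A x y : ℝ} (hA : 0 ≤ A) :
    ENNReal.ofReal (A + x ^ 2) ^ (1 / 16 : ℝ)
      ≤ ENNReal.ofReal (A + y ^ 2) ^ (1 / 16 : ℝ) + ‖x - y‖ₑ ^ (1 / 8 : ℝ) := by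
  have e : ∀ z : ℝ, 0 ≤ z → ENNReal.ofReal z ^ (1 / 16 : ℝ)
      = ENNReal.ofReal (Real.sqrt z) ^ (1 / 8 : ℝ) := by
    intro z hz
    conv_lhs => rw [← Real.sq_sqrt hz]
    rw [ENNReal.ofReal_pow (Real.sqrt_nonneg _), ← ENNReal.rpow_natCast, ← ENNReal.rpow_mul]
    norm_num
  rw [e _ (by positivity), e _ (by positivity)]
  have h1 : Real.sqrt (A + x ^ 2) ≤ Real.sqrt (A + y ^ 2) + |x - y| := by
    rw [Real.sqrt_le_left (by positivity)]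
    have h2 := Real.sq_sqrt (show 0 ≤ A + y ^ 2 by positivity)
    have h3 : |y| ≤ Real.sqrt (A + y ^ 2) := by
      rw [← Real.sqrt_sq_eq_abs]
      exact Real.sqrt_le_sqrt (by linarith)
    have h4 : x ^ 2 = y ^ 2 + 2 * y * (x - y) + (x - y) ^ 2 := by ring
    have h5 : y * (x - y) ≤ |y| * |x - y| := by
      rw [← abs_mul]; exact le_abs_self _
    have h6 : |y| * |x - y| ≤ Real.sqrt (A + y ^ 2) * |x - y| :=
      mul_le_mul_of_nonneg_right h3 (abs_nonneg _)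
    have h7 : |x - y| ^ 2 = (x - y) ^ 2 := sq_abs _
    nlinarith
  calc ENNReal.ofReal (Real.sqrt (A + x ^ 2)) ^ (1 / 8 : ℝ)
      ≤ (ENNReal.ofReal (Real.sqrt (A + y ^ 2)) + ‖x - y‖ₑ) ^ (1 / 8 : ℝ) := by
        gcongr
        rw [← ofReal_norm, Real.norm_eq_abs, ← ENNReal.ofReal_add (Real.sqrt_nonneg _)
          (abs_nonneg _)]
        exact ENNReal.ofReal_le_ofReal h1
    _ ≤ _ := ENNReal.rpow_add_le_add_rpow _ _ (by norm_num) (by norm_num)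

lemma norm_fin (s : Finset ℕ) {A : ℝ} (hA : 0 ≤ A) (f g : ℕ → ℝ) :
    ENNReal.ofReal (A + ∑ i ∈ s, f i ^ 2) ^ (1 / 16 : ℝ)
      ≤ ENNReal.ofReal (A + ∑ i ∈ s, g i ^ 2) ^ (1 / 16 : ℝ)
        + ∑ i ∈ s, ‖f i - g i‖ₑ ^ (1 / 8 : ℝ) := by
  induction s using Finset.induction generalizing A with
  | empty => simp
  | insert j s hj ih =>
    rw [Finset.sum_insert hj, Finset.sum_insert hj, Finset.sum_insert hj]
    have h1 := ih (A := A + f j ^ 2) (by positivity)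
    have hg : 0 ≤ A + ∑ i ∈ s, g i ^ 2 := by positivity
    have h2 := norm_step (x := f j) (y := g j) hg
    calc ENNReal.ofReal (A + (f j ^ 2 + ∑ i ∈ s, f i ^ 2)) ^ (1 / 16 : ℝ)
        = ENNReal.ofReal (A + f j ^ 2 + ∑ i ∈ s, f i ^ 2) ^ (1 / 16 : ℝ) := by rw [add_assoc]
      _ ≤ ENNReal.ofReal (A + f j ^ 2 + ∑ i ∈ s, g i ^ 2) ^ (1 / 16 : ℝ)
          + ∑ i ∈ s, ‖f i - g i‖ₑ ^ (1 / 8 : ℝ) := h1
      _ = ENNReal.ofReal (A + ∑ i ∈ s, g i ^ 2 + f j ^ 2) ^ (1 / 16 : ℝ)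
          + ∑ i ∈ s, ‖f i - g i‖ₑ ^ (1 / 8 : ℝ) := by
            congr 3; ring
      _ ≤ (ENNReal.ofReal (A + ∑ i ∈ s, g i ^ 2 + g j ^ 2) ^ (1 / 16 : ℝ)
          + ‖f j - g j‖ₑ ^ (1 / 8 : ℝ)) + ∑ i ∈ s, ‖f i - g i‖ₑ ^ (1 / 8 : ℝ) := by gcongr
      _ = _ := by
            rw [add_assoc]
            congr 3
            ring

lemma sum_ext_zero {N N' : ℕ} (hNN : N ≤ N') (a : ℕ → ℝ) :
    ∑ n ∈ Finset.Icc 1 N, (unrm N a n) ^ 2 = ∑ n ∈ Finset.Icc 1 N', (unrm N a n) ^ 2 := by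
  apply Finset.sum_subset (Finset.Icc_subset_Icc_right hNN)
  intro n hn hn'
  rw [Finset.mem_Icc] at hn hn'
  rw [unrm_gt a (by omega)]
  ring

lemma sum_split {N N' : ℕ} (hNN : N ≤ N') (f : ℕ → ℝ≥0∞) :
    ∑ n ∈ Finset.Icc 1 N', f n = ∑ n ∈ Finset.Icc 1 N, f n + ∑ n ∈ Finset.Ioc N N', f n := by
  rw [← Finset.sum_union]
  · congr 1
    ext n
    simp only [Finset.mem_union, Finset.mem_Icc, Finset.mem_Ioc]
    omega
  · rw [Finset.disjoint_left]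
    intro n h1 h2
    simp only [Finset.mem_Icc, Finset.mem_Ioc] at h1 h2
    omega

/-- the norms of two windows -/
lemma rr_le {N N' : ℕ} (hNN : N ≤ N') (V : ℤ → ℝ) (E : ℝ) :
    ENNReal.ofReal (rr N' V E) ^ (1 / 16 : ℝ) ≤ ENNReal.ofReal (rr N V E) ^ (1 / 16 : ℝ)
      + (∑ n ∈ Finset.Icc 1 N, ‖unrm N' (aR V E) n - unrm N (aR V E) n‖ₑ ^ (1 / 8 : ℝ)
        + ∑ n ∈ Finset.Ioc N N', ‖unrm N' (aR V E) n‖ₑ ^ (1 / 8 : ℝ))
      + (∑ n ∈ Finset.Icc 1 N, ‖unrm N' (aL V E) n - unrm N (aL V E) n‖ₑ ^ (1 / 8 : ℝ)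
        + ∑ n ∈ Finset.Ioc N N', ‖unrm N' (aL V E) n‖ₑ ^ (1 / 8 : ℝ)) := by
  unfold rr
  rw [sum_ext_zero hNN (aR V E), sum_ext_zero hNN (aL V E)]
  have key : ∀ a : ℕ → ℝ, ∑ n ∈ Finset.Icc 1 N', ‖unrm N' a n - unrm N a n‖ₑ ^ (1 / 8 : ℝ)
      = ∑ n ∈ Finset.Icc 1 N, ‖unrm N' a n - unrm N a n‖ₑ ^ (1 / 8 : ℝ)
        + ∑ n ∈ Finset.Ioc N N', ‖unrm N' a n‖ₑ ^ (1 / 8 : ℝ) := by
    intro a
    rw [sum_split hNN]
    congr 1
    apply Finset.sum_congr rfl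
    intro n hn
    rw [Finset.mem_Ioc] at hn
    rw [unrm_gt a hn.1, sub_zero]
  rw [← key, ← key]
  have hp : ∀ a : ℕ → ℝ, ∀ s : Finset ℕ, ∀ M : ℕ, 0 ≤ ∑ n ∈ s, (unrm M a n) ^ 2 :=
    fun a s M => Finset.sum_nonneg fun _ _ => sq_nonneg _
  calc ENNReal.ofReal (1 + ∑ n ∈ Finset.Icc 1 N', (unrm N' (aR V E) n) ^ 2
        + ∑ n ∈ Finset.Icc 1 N', (unrm N' (aL V E) n) ^ 2) ^ (1 / 16 : ℝ)
      ≤ ENNReal.ofReal (1 + ∑ n ∈ Finset.Icc 1 N', (unrm N' (aR V E) n) ^ 2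
        + ∑ n ∈ Finset.Icc 1 N', (unrm N (aL V E) n) ^ 2) ^ (1 / 16 : ℝ)
        + ∑ n ∈ Finset.Icc 1 N', ‖unrm N' (aL V E) n - unrm N (aL V E) n‖ₑ ^ (1 / 8 : ℝ) := by
        apply norm_fin
        have := hp (aR V E) (Finset.Icc 1 N') N'
        linarith
    _ ≤ (ENNReal.ofReal (1 + ∑ n ∈ Finset.Icc 1 N', (unrm N (aR V E) n) ^ 2
        + ∑ n ∈ Finset.Icc 1 N', (unrm N (aL V E) n) ^ 2) ^ (1 / 16 : ℝ)
        + ∑ n ∈ Finset.Icc 1 N', ‖unrm N' (aR V E) n - unrm N (aR V E) n‖ₑ ^ (1 / 8 : ℝ))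
        + ∑ n ∈ Finset.Icc 1 N', ‖unrm N' (aL V E) n - unrm N (aL V E) n‖ₑ ^ (1 / 8 : ℝ) := by
        gcongr
        have e1 : 1 + ∑ n ∈ Finset.Icc 1 N', (unrm N' (aR V E) n) ^ 2
            + ∑ n ∈ Finset.Icc 1 N', (unrm N (aL V E) n) ^ 2
            = (1 + ∑ n ∈ Finset.Icc 1 N', (unrm N (aL V E) n) ^ 2)
              + ∑ n ∈ Finset.Icc 1 N', (unrm N' (aR V E) n) ^ 2 := by ring
        have e2 : 1 + ∑ n ∈ Finset.Icc 1 N', (unrm N (aR V E) n) ^ 2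
            + ∑ n ∈ Finset.Icc 1 N', (unrm N (aL V E) n) ^ 2
            = (1 + ∑ n ∈ Finset.Icc 1 N', (unrm N (aL V E) n) ^ 2)
              + ∑ n ∈ Finset.Icc 1 N', (unrm N (aR V E) n) ^ 2 := by ring
        rw [e1, e2]
        apply norm_fin
        have := hp (aL V E) (Finset.Icc 1 N') N
        linarith

/-- an a priori bound of the norm -/
lemma rr_le_sum (N : ℕ) (V : ℤ → ℝ) (E : ℝ) :
    ENNReal.ofReal (rr N V E) ^ (1 / 16 : ℝ) ≤ 1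
      + ∑ n ∈ Finset.Icc 1 N, (xs N (aR V E) n) ^ (1 / 4 : ℝ)
      + ∑ n ∈ Finset.Icc 1 N, (xs N (aL V E) n) ^ (1 / 4 : ℝ) := by
  have h := rr_le (Nat.zero_le N) V E
  have e0 : ENNReal.ofReal (rr 0 V E) ^ (1 / 16 : ℝ) = 1 := by
    unfold rr
    simp
  rw [e0] at h
  have e1 : Finset.Icc 1 0 = (∅ : Finset ℕ) := rfl
  rw [e1, Finset.sum_empty, Finset.sum_empty, zero_add, zero_add] at h
  have e2 : Finset.Ioc 0 N = Finset.Icc 1 N := by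
    ext n; simp only [Finset.mem_Ioc, Finset.mem_Icc]; omega
  rw [e2] at h
  refine h.trans ?_
  gcongr
  · exact unrm_le_xs _ _ _
  · exact unrm_le_xs _ _ _

lemma tent_nonneg (t : ℝ) : 0 ≤ tent t := le_max_left _ _

lemma tent_le_one (t : ℝ) : tent t ≤ 1 := by
  unfold tent
  apply max_le zero_le_one
  have := abs_nonneg t
  linarith

lemma tent_lip (s t : ℝ) : |tent s - tent t| ≤ |s - t| := by
  unfold tent
  have h1 : |max 0 (1 - |s|) - max 0 (1 - |t|)| ≤ |(1 - |s|) - (1 - |t|)| := by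
    have := abs_max_sub_max_le_abs (1 - |s|) (1 - |t|) 0
    rwa [max_comm (1 - |s|) 0, max_comm (1 - |t|) 0] at this
  refine h1.trans ?_
  have h2 : (1 - |s|) - (1 - |t|) = |t| - |s| := by ring
  rw [h2, abs_sub_comm s t]
  exact abs_abs_sub_abs_le_abs_sub t s

lemma rho_nonneg (t : ℝ) : 0 ≤ rho t := by
  unfold rho
  have := tent_nonneg t
  have := tent_nonneg (t - 1)
  linarith

lemma rho_le_one (t : ℝ) : rho t ≤ 1 := by
  unfold rho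
  have := tent_le_one t
  have := tent_le_one (t - 1)
  linarith

lemma rho_lip (s t : ℝ) : |rho s - rho t| ≤ |s - t| := by
  unfold rho
  have h1 := tent_lip s t
  have h2 := tent_lip (s - 1) (t - 1)
  have e : s - 1 - (t - 1) = s - t := by ring
  rw [e] at h2
  have e2 : (tent s + tent (s - 1)) / 2 - (tent t + tent (t - 1)) / 2
      = ((tent s - tent t) + (tent (s - 1) - tent (t - 1))) / 2 := by ring
  rw [e2, abs_div, abs_two]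
  have h3 := abs_add_le (tent s - tent t) (tent (s - 1) - tent (t - 1))
  linarith

lemma rho_eq_zero {t : ℝ} (h : 2 < |t|) : rho t = 0 := by
  unfold rho tent
  have h1 : 1 - |t| ≤ 0 := by linarith
  have h2 : 1 - |t - 1| ≤ 0 := by
    have := abs_sub_abs_le_abs_sub t 1
    rw [abs_one] at this
    linarith
  rw [max_eq_left h1, max_eq_left h2]
  norm_num

/-- the density at two nearby points -/
lemma rho_cmp (s t : ℝ) :
    ENNReal.ofReal (rho s) ≤ ENNReal.ofReal (rho t) + ‖s - t‖ₑ ^ (1 / 8 : ℝ) := by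
  by_cases h : |s - t| ≤ 1
  · have h1 : rho s ≤ rho t + |s - t| := by
      have := rho_lip s t
      have := le_abs_self (rho s - rho t)
      linarith
    calc ENNReal.ofReal (rho s) ≤ ENNReal.ofReal (rho t + |s - t|) := ENNReal.ofReal_le_ofReal h1
      _ = ENNReal.ofReal (rho t) + ‖s - t‖ₑ := by
          rw [ENNReal.ofReal_add (rho_nonneg t) (abs_nonneg _), ← Real.norm_eq_abs, ofReal_norm]
      _ = ENNReal.ofReal (rho t) + ‖s - t‖ₑ ^ (1 : ℝ) := by rw [ENNReal.rpow_one]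
      _ ≤ _ := by
          refine add_le_add le_rfl ?_
          apply ENNReal.rpow_le_rpow_of_exponent_ge
          · rw [← ofReal_norm, Real.norm_eq_abs]
            exact ENNReal.ofReal_le_one.2 h
          · norm_num
  · push Not at h
    calc ENNReal.ofReal (rho s) ≤ 1 := ENNReal.ofReal_le_one.2 (rho_le_one s)
      _ ≤ ‖s - t‖ₑ ^ (1 / 8 : ℝ) := by
          apply ENNReal.one_le_rpow
          · rw [← ofReal_norm, Real.norm_eq_abs]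
            exact ENNReal.one_le_ofReal.2 h.le
          · norm_num
      _ ≤ _ := le_add_self

/-- the pointwise comparison of two windows -/
lemma pointwise {N N' : ℕ} (hN : 1 ≤ N) (hNN : N ≤ N') (V : ℤ → ℝ) {δ : ℝ} (hδ : 0 < δ) (E : ℝ)
    (r1 : sol N (aR V E) 0 ≠ 0) (r2 : sol N' (aR V E) 0 ≠ 0) (r3 : lft (aR V E) (N + 1) ≠ 0)
    (l1 : sol N (aL V E) 0 ≠ 0) (l2 : sol N' (aL V E) 0 ≠ 0) (l3 : lft (aL V E) (N + 1) ≠ 0) :
    ENNReal.ofReal (rho (tst N' V δ E)) * ENNReal.ofReal (rr N' V E) ^ (1 / 16 : ℝ)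
      ≤ ENNReal.ofReal (rho (tst N V δ E)) * ENNReal.ofReal (rr N V E) ^ (1 / 16 : ℝ)
        + (ENNReal.ofReal δ⁻¹ ^ (1 / 8 : ℝ)
          * ((xs N' (aR V E) (N + 1)) ^ (1 / 4 : ℝ) * (xr N (aR V E) 1) ^ (1 / 4 : ℝ)
            + (xs N' (aL V E) (N + 1)) ^ (1 / 4 : ℝ) * (xr N (aL V E) 1) ^ (1 / 4 : ℝ))
          * (1 + ∑ n ∈ Finset.Icc 1 N, (xs N (aR V E) n) ^ (1 / 4 : ℝ)
            + ∑ n ∈ Finset.Icc 1 N, (xs N (aL V E) n) ^ (1 / 4 : ℝ))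
          + (∑ n ∈ Finset.Icc 1 N, (xs N' (aR V E) (N + 1)) ^ (1 / 4 : ℝ)
              * (xr N (aR V E) n) ^ (1 / 4 : ℝ)
            + ∑ n ∈ Finset.Ioc N N', (xs N' (aR V E) n) ^ (1 / 4 : ℝ))
          + (∑ n ∈ Finset.Icc 1 N, (xs N' (aL V E) (N + 1)) ^ (1 / 4 : ℝ)
              * (xr N (aL V E) n) ^ (1 / 4 : ℝ)
            + ∑ n ∈ Finset.Ioc N N', (xs N' (aL V E) n) ^ (1 / 4 : ℝ))) := by
  set R := ENNReal.ofReal (rr N V E) ^ (1 / 16 : ℝ) with hR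
  set S0 := 1 + ∑ n ∈ Finset.Icc 1 N, (xs N (aR V E) n) ^ (1 / 4 : ℝ)
            + ∑ n ∈ Finset.Icc 1 N, (xs N (aL V E) n) ^ (1 / 4 : ℝ) with hS0
  set BR := ∑ n ∈ Finset.Icc 1 N, (xs N' (aR V E) (N + 1)) ^ (1 / 4 : ℝ)
              * (xr N (aR V E) n) ^ (1 / 4 : ℝ)
            + ∑ n ∈ Finset.Ioc N N', (xs N' (aR V E) n) ^ (1 / 4 : ℝ) with hBR
  set BL := ∑ n ∈ Finset.Icc 1 N, (xs N' (aL V E) (N + 1)) ^ (1 / 4 : ℝ)
              * (xr N (aL V E) n) ^ (1 / 4 : ℝ)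
            + ∑ n ∈ Finset.Ioc N N', (xs N' (aL V E) n) ^ (1 / 4 : ℝ) with hBL
  set D1 := ((xs N' (aR V E) (N + 1)) ^ (1 / 4 : ℝ) * (xr N (aR V E) 1) ^ (1 / 4 : ℝ)
            + (xs N' (aL V E) (N + 1)) ^ (1 / 4 : ℝ) * (xr N (aL V E) 1) ^ (1 / 4 : ℝ)) with hD1
  have hrr : ENNReal.ofReal (rr N' V E) ^ (1 / 16 : ℝ) ≤ R + BR + BL := by
    refine (rr_le hNN V E).trans ?_
    rw [hBR, hBL]
    gcongr with n hn n hn n hn n hn
    · rw [Finset.mem_Icc] at hn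
      exact diff_le hNN r1 r2 r3 (by omega)
    · exact unrm_le_xs _ _ _
    · rw [Finset.mem_Icc] at hn
      exact diff_le hNN l1 l2 l3 (by omega)
    · exact unrm_le_xs _ _ _
  have ht : ‖tst N' V δ E - tst N V δ E‖ₑ ^ (1 / 8 : ℝ) ≤ ENNReal.ofReal δ⁻¹ ^ (1 / 8 : ℝ) * D1 := by
    have e : tst N' V δ E - tst N V δ E
        = δ⁻¹ * (-((unrm N' (aR V E) 1 - unrm N (aR V E) 1)
          + (unrm N' (aL V E) 1 - unrm N (aL V E) 1))) := by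
      unfold tst
      field_simp
      ring
    rw [e, enorm_mul, ENNReal.mul_rpow_of_nonneg _ _ (by norm_num), enorm_neg]
    have e2 : ‖δ⁻¹‖ₑ = ENNReal.ofReal δ⁻¹ := by
      rw [← ofReal_norm, Real.norm_eq_abs, abs_of_pos (inv_pos.2 hδ)]
    rw [e2]
    gcongr
    refine (ENNReal.rpow_le_rpow (enorm_add_le _ _) (by norm_num)).trans ?_
    refine (ENNReal.rpow_add_le_add_rpow _ _ (by norm_num) (by norm_num)).trans ?_
    rw [hD1]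
    gcongr
    · exact diff_le hNN r1 r2 r3 (by omega)
    · exact diff_le hNN l1 l2 l3 (by omega)
  have hρ : ENNReal.ofReal (rho (tst N' V δ E))
      ≤ ENNReal.ofReal (rho (tst N V δ E)) + ENNReal.ofReal δ⁻¹ ^ (1 / 8 : ℝ) * D1 :=
    (rho_cmp _ _).trans (by gcongr)
  have hρ1 : ENNReal.ofReal (rho (tst N' V δ E)) ≤ 1 := ENNReal.ofReal_le_one.2 (rho_le_one _)
  calc ENNReal.ofReal (rho (tst N' V δ E)) * ENNReal.ofReal (rr N' V E) ^ (1 / 16 : ℝ)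
      ≤ ENNReal.ofReal (rho (tst N' V δ E)) * (R + BR + BL) := by gcongr
    _ = ENNReal.ofReal (rho (tst N' V δ E)) * R
        + ENNReal.ofReal (rho (tst N' V δ E)) * BR
        + ENNReal.ofReal (rho (tst N' V δ E)) * BL := by ring
    _ ≤ (ENNReal.ofReal (rho (tst N V δ E)) + ENNReal.ofReal δ⁻¹ ^ (1 / 8 : ℝ) * D1) * R
        + 1 * BR + 1 * BL := by gcongr
    _ = ENNReal.ofReal (rho (tst N V δ E)) * R + (ENNReal.ofReal δ⁻¹ ^ (1 / 8 : ℝ) * D1 * R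
        + BR + BL) := by ring
    _ ≤ _ := by
        gcongr
        exact rr_le_sum N V E

end Pool.Agent.R993.LP.M
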