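import Pool.Agent.R993.LP.Cmp

/-! # Comparison of two windows in expectation, at a fixed energy -/

namespace Pool.Agent.R993.LP.M

open MeasureTheory Filter Topology
open scoped ENNReal

lemma holder3 {α : Type*} [MeasurableSpace α] {μ : Measure α} [IsProbabilityMeasure μ]
    {X Y Z : α → ℝ≥0∞} (hX : Measurable X) (hY : Measurable Y) (hZ : Measurable Z) :
    ∫⁻ a, X a ^ (1 / 4 : ℝ) * Y a ^ (1 / 4 : ℝ) * Z a ^ (1 / 4 : ℝ) ∂μ
      ≤ (∫⁻ a, X a ∂μ) ^ (1 / 4 : ℝ) * (∫⁻ a, Y a ∂μ) ^ (1 / 4 : ℝ)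
        * (∫⁻ a, Z a ∂μ) ^ (1 / 4 : ℝ) := by
  have h := ENNReal.lintegral_prod_norm_pow_le (μ := μ) (Finset.univ : Finset (Fin 4))
    (f := ![X, Y, Z, fun _ => 1]) (p := fun _ => (1 / 4 : ℝ)) (by
      intro i _
      fin_cases i
      · exact hX.aemeasurable
      · exact hY.aemeasurable
      · exact hZ.aemeasurable
      · exact aemeasurable_const) (by norm_num) (by intro i _; norm_num)
  simpa [Fin.prod_univ_four] using h

lemma holder2 {α : Type*} [MeasurableSpace α] {μ : Measure α} [IsProbabilityMeasure μ]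
    {X Y : α → ℝ≥0∞} (hX : Measurable X) (hY : Measurable Y) :
    ∫⁻ a, X a ^ (1 / 4 : ℝ) * Y a ^ (1 / 4 : ℝ) ∂μ
      ≤ (∫⁻ a, X a ∂μ) ^ (1 / 4 : ℝ) * (∫⁻ a, Y a ∂μ) ^ (1 / 4 : ℝ) := by
  have h := holder3 (μ := μ) hX hY (Z := fun _ => 1) measurable_const
  simpa using h

lemma holder1 {α : Type*} [MeasurableSpace α] {μ : Measure α} [IsProbabilityMeasure μ]
    {X : α → ℝ≥0∞} (hX : Measurable X) :
    ∫⁻ a, X a ^ (1 / 4 : ℝ) ∂μ ≤ (∫⁻ a, X a ∂μ) ^ (1 / 4 : ℝ) := by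
  have h := holder2 (μ := μ) hX (Y := fun _ => 1) measurable_const
  simpa using h

variable {F : Type*} [Fintype F] [DecidableEq F]

omit [Fintype F] [DecidableEq F] in
lemma measurable_sol {α : Type*} [MeasurableSpace α] (N n : ℕ) {a : α → ℕ → ℝ}
    (ha : ∀ i, Measurable fun y => a y i) : Measurable (fun y => sol N (a y) n) := by
  unfold sol
  split_ifs with h
  · have : ∀ k, Measurable (fun y => run (fun i => a y (N - i)) k (1, 0)) := by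
      intro k
      induction k with
      | zero => exact measurable_const
      | succ k ih => exact measurable_stp (ha _) ih
    exact (this _).fst
  · exact measurable_const

lemma measurable_lft {α : Type*} [MeasurableSpace α] (n : ℕ) {a : α → ℕ → ℝ}
    (ha : ∀ i, Measurable fun y => a y i) : Measurable (fun y => lft (a y) n) := by
  unfold lft
  have : ∀ k, Measurable (fun y => run (fun i => a y (i + 1)) k (1, 0)) := by
    intro k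
    induction k with
    | zero => exact measurable_const
    | succ k ih => exact measurable_stp (ha _) ih
  exact (this _).snd

lemma measurable_unrm {α : Type*} [MeasurableSpace α] (N n : ℕ) {a : α → ℕ → ℝ}
    (ha : ∀ i, Measurable fun y => a y i) : Measurable (fun y => unrm N (a y) n) :=
  (measurable_sol N n ha).div (measurable_sol N 0 ha)

lemma measurable_xs {α : Type*} [MeasurableSpace α] (N n : ℕ) {a : α → ℕ → ℝ}
    (ha : ∀ i, Measurable fun y => a y i) : Measurable (fun y => xs N (a y) n) := by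
  unfold xs
  have h1 := measurable_sol N n ha
  have h2 := measurable_sol N 0 ha
  fun_prop

lemma measurable_xr {α : Type*} [MeasurableSpace α] (N n : ℕ) {a : α → ℕ → ℝ}
    (ha : ∀ i, Measurable fun y => a y i) : Measurable (fun y => xr N (a y) n) := by
  unfold xr
  have h1 := measurable_lft n ha
  have h2 := measurable_lft (N + 1) ha
  fun_prop

/-- the coefficients are c n - δ y (p n) -/
def Lin (δ : ℝ) (N : ℕ) (c : ℕ → ℝ) (p : ℕ → F) (a : (F → ℝ) → ℕ → ℝ) : Prop :=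
  ∀ y n, 1 ≤ n → n ≤ N → a y n = c n - δ * y (p n)

omit [Fintype F] [DecidableEq F] in
lemma Lin.mono {δ : ℝ} {N N' : ℕ} {c : ℕ → ℝ} {p : ℕ → F} {a : (F → ℝ) → ℕ → ℝ}
    (h : Lin δ N' c p a) (hN : N ≤ N') : Lin δ N c p a :=
  fun y n h1 h2 => h y n h1 (h2.trans hN)

lemma xs_int [IsProbabilityMeasure law] {δ M : ℝ} {C q : ℝ≥0∞} (h : FM δ M C q) {N : ℕ}
    {c : ℕ → ℝ} (hc : ∀ i, |c i| ≤ M) {p : ℕ → F} (hp : Set.InjOn p (Set.Icc 1 N))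
    {a : (F → ℝ) → ℕ → ℝ} (ha : Lin δ N c p a) {n : ℕ} (h1 : 1 ≤ n) (hn : n ≤ N) :
    ∫⁻ y, xs N (a y) n ∂(plaw F) ≤ C * q ^ n := by
  have hinj : Set.InjOn (fun i => p (N - i)) (Set.Iio ((N - n) + n)) := by
    intro i hi j hj hij
    have hi' : i < N - n + n := hi
    have hj' : j < N - n + n := hj
    have := @hp (N - i) (by simp; omega) (N - j) (by simp; omega) hij
    omega
  have key := ratio h (m := N - n) (n := n) h1 (c := fun i => c (N - i)) (fun i => hc _)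
    hinj (1, 0)
  refine le_trans (le_of_eq ?_) key
  refine lintegral_congr fun y => ?_
  unfold xs
  have e : ∀ k, k ≤ N → (run (fun i => a y (N - i)) k (1, 0))
      = (run (fun i => c (N - i) - δ * y (p (N - i))) k (1, 0)) := by
    intro k hk
    apply run_congr
    intro i hi
    exact ha y _ (by omega) (by omega)
  rw [sol_le _ hn, sol_le _ (Nat.zero_le N), e _ (by omega), e _ (by omega)]
  have e2 : N - n + n = N - 0 := by omega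
  rw [e2]

lemma xr_int [IsProbabilityMeasure law] {δ M : ℝ} {C q : ℝ≥0∞} (h : FM δ M C q) {N : ℕ}
    {c : ℕ → ℝ} (hc : ∀ i, |c i| ≤ M) {p : ℕ → F} (hp : Set.InjOn p (Set.Icc 1 N))
    {a : (F → ℝ) → ℕ → ℝ} (ha : Lin δ N c p a) {n : ℕ} (h1 : 1 ≤ n) (hn : n ≤ N) :
    ∫⁻ y, xr N (a y) n ∂(plaw F) ≤ C * q ^ (N + 1 - n) := by
  have hinj : Set.InjOn (fun i => p (i + 1)) (Set.Iio ((n - 1) + (N + 1 - n))) := by
    intro i hi j hj hij
    have hi' : i < (n - 1) + (N + 1 - n) := hi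
    have hj' : j < (n - 1) + (N + 1 - n) := hj
    have := @hp (i + 1) (by simp; omega) (j + 1) (by simp; omega) hij
    omega
  have key := ratio h (m := n - 1) (n := N + 1 - n) (by omega) (c := fun i => c (i + 1))
    (fun i => hc _) hinj (1, 0)
  refine le_trans (le_of_eq ?_) key
  refine lintegral_congr fun y => ?_
  unfold xr
  have e : ∀ k, k ≤ N → (run (fun i => a y (i + 1)) k (1, 0))
      = (run (fun i => c (i + 1) - δ * y (p (i + 1))) k (1, 0)) := by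
    intro k hk
    apply run_congr
    intro i hi
    exact ha y _ (by omega) (by omega)
  have e1 : n = (n - 1) + 1 := by omega
  have e2 : n - 1 + (N + 1 - n) = N := by omega
  rw [e2]
  conv_lhs => rw [e1]
  rw [lft_succ, lft_succ, e _ (by omega), e _ le_rfl]

/-- a quantity with finite expectation of the inverse root is a.e. nonzero -/
lemma ae_ne_zero [IsProbabilityMeasure law] {δ M : ℝ} {C q : ℝ≥0∞} (h : FM δ M C q)
    (hC : C ≠ ⊤) (hq : q < 1) {N : ℕ} (hN : 1 ≤ N)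
    {c : ℕ → ℝ} (hc : ∀ i, |c i| ≤ M) {p : ℕ → F} (hp : Set.InjOn p (Set.Icc 1 N))
    {a : (F → ℝ) → ℕ → ℝ} (ha : Lin δ N c p a) (hm : ∀ i, Measurable fun y => a y i) :
    (∀ᵐ y ∂(plaw F), sol N (a y) 0 ≠ 0) ∧ ∀ᵐ y ∂(plaw F), lft (a y) (N + 1) ≠ 0 := by
  have hfin : ∀ n, C * q ^ n ≠ ⊤ := fun n => ENNReal.mul_ne_top hC
    (ENNReal.pow_ne_top (ne_top_of_lt hq))
  constructor
  · have h1 := xs_int h hc hp ha (n := N) hN le_rfl
    have h2 := ae_lt_top (measurable_xs N N hm) (ne_top_of_le_ne_top (hfin _) h1)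
    filter_upwards [h2] with y hy hz
    unfold xs at hy
    rw [hz, sol_self] at hy
    simp at hy
  · have h1 := xr_int h hc hp ha (n := 1) le_rfl hN
    have h2 := ae_lt_top (measurable_xr N 1 hm) (ne_top_of_le_ne_top (hfin _) h1)
    filter_upwards [h2] with y hy hz
    unfold xr at hy
    rw [hz, lft_one] at hy
    simp at hy

/-- the potential at level δ with the value b 0 at the site 0 -/
def Vy (δ : ℝ) (b : ℤ → ℝ) (p : ℤ → F) (y : F → ℝ) (n : ℤ) : ℝ :=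
  if n = 0 then b 0 else b n + δ * y (p n)

/-- the error term at a fixed energy -/
noncomputable def errb (δ : ℝ) (C q : ℝ≥0∞) (N N' : ℕ) : ℝ≥0∞ :=
  ENNReal.ofReal δ⁻¹ ^ (1 / 8 : ℝ)
      * (2 * ((C * q ^ (N + 1)) ^ (1 / 4 : ℝ) * (C * q ^ N) ^ (1 / 4 : ℝ)))
      * (1 + 2 * ∑ n ∈ Finset.Icc 1 N, (C * q ^ n) ^ (1 / 4 : ℝ))
    + 2 * (∑ n ∈ Finset.Icc 1 N, (C * q ^ (N + 1)) ^ (1 / 4 : ℝ)
        * (C * q ^ (N + 1 - n)) ^ (1 / 4 : ℝ)
      + ∑ n ∈ Finset.Ioc N N', (C * q ^ n) ^ (1 / 4 : ℝ))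

lemma err_int [IsProbabilityMeasure law] {δ M : ℝ} {C q : ℝ≥0∞} (h : FM δ M C q)
    {N N' : ℕ} (hN : 1 ≤ N) (hNN : N < N')
    {cR cL : ℕ → ℝ} (hcR : ∀ i, |cR i| ≤ M) (hcL : ∀ i, |cL i| ≤ M) {pR pL : ℕ → F}
    (hpR : Set.InjOn pR (Set.Icc 1 N')) (hpL : Set.InjOn pL (Set.Icc 1 N'))
    {aR aL : (F → ℝ) → ℕ → ℝ} (haR : Lin δ N' cR pR aR) (haL : Lin δ N' cL pL aL)
    (hmR : ∀ i, Measurable fun y => aR y i) (hmL : ∀ i, Measurable fun y => aL y i) :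
    ∫⁻ y, (ENNReal.ofReal δ⁻¹ ^ (1 / 8 : ℝ)
          * ((xs N' (aR y) (N + 1)) ^ (1 / 4 : ℝ) * (xr N (aR y) 1) ^ (1 / 4 : ℝ)
            + (xs N' (aL y) (N + 1)) ^ (1 / 4 : ℝ) * (xr N (aL y) 1) ^ (1 / 4 : ℝ))
          * (1 + ∑ n ∈ Finset.Icc 1 N, (xs N (aR y) n) ^ (1 / 4 : ℝ)
            + ∑ n ∈ Finset.Icc 1 N, (xs N (aL y) n) ^ (1 / 4 : ℝ))
          + (∑ n ∈ Finset.Icc 1 N, (xs N' (aR y) (N + 1)) ^ (1 / 4 : ℝ)
              * (xr N (aR y) n) ^ (1 / 4 : ℝ)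
            + ∑ n ∈ Finset.Ioc N N', (xs N' (aR y) n) ^ (1 / 4 : ℝ))
          + (∑ n ∈ Finset.Icc 1 N, (xs N' (aL y) (N + 1)) ^ (1 / 4 : ℝ)
              * (xr N (aL y) n) ^ (1 / 4 : ℝ)
            + ∑ n ∈ Finset.Ioc N N', (xs N' (aL y) n) ^ (1 / 4 : ℝ))) ∂(plaw F)
      ≤ errb δ C q N N' := by
  have hNle : N ≤ N' := hNN.le
  have hpR' : Set.InjOn pR (Set.Icc 1 N) := hpR.mono (Set.Icc_subset_Icc_right hNle)
  have hpL' : Set.InjOn pL (Set.Icc 1 N) := hpL.mono (Set.Icc_subset_Icc_right hNle)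
  have mR := fun n => measurable_xs N' n hmR
  have mL := fun n => measurable_xs N' n hmL
  have mR' := fun n => measurable_xs N n hmR
  have mL' := fun n => measurable_xs N n hmL
  have rR := fun n => measurable_xr N n hmR
  have rL := fun n => measurable_xr N n hmL
  have iR : ∀ n, 1 ≤ n → n ≤ N' → ∫⁻ y, xs N' (aR y) n ∂(plaw F) ≤ C * q ^ n :=
    fun n h1 h2 => xs_int h hcR hpR haR h1 h2
  have iL : ∀ n, 1 ≤ n → n ≤ N' → ∫⁻ y, xs N' (aL y) n ∂(plaw F) ≤ C * q ^ n :=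
    fun n h1 h2 => xs_int h hcL hpL haL h1 h2
  have iR' : ∀ n, 1 ≤ n → n ≤ N → ∫⁻ y, xs N (aR y) n ∂(plaw F) ≤ C * q ^ n :=
    fun n h1 h2 => xs_int h hcR hpR' (haR.mono hNle) h1 h2
  have iL' : ∀ n, 1 ≤ n → n ≤ N → ∫⁻ y, xs N (aL y) n ∂(plaw F) ≤ C * q ^ n :=
    fun n h1 h2 => xs_int h hcL hpL' (haL.mono hNle) h1 h2
  have jR : ∀ n, 1 ≤ n → n ≤ N → ∫⁻ y, xr N (aR y) n ∂(plaw F) ≤ C * q ^ (N + 1 - n) :=
    fun n h1 h2 => xr_int h hcR hpR' (haR.mono hNle) h1 h2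
  have jL : ∀ n, 1 ≤ n → n ≤ N → ∫⁻ y, xr N (aL y) n ∂(plaw F) ≤ C * q ^ (N + 1 - n) :=
    fun n h1 h2 => xr_int h hcL hpL' (haL.mono hNle) h1 h2
  have side : ∀ {a : (F → ℝ) → ℕ → ℝ}, (∀ n, Measurable fun y => xs N' (a y) n) →
      (∀ n, Measurable fun y => xr N (a y) n) →
      (∀ n, 1 ≤ n → n ≤ N' → ∫⁻ y, xs N' (a y) n ∂(plaw F) ≤ C * q ^ n) →
      (∀ n, 1 ≤ n → n ≤ N → ∫⁻ y, xr N (a y) n ∂(plaw F) ≤ C * q ^ (N + 1 - n)) →
      ∫⁻ y, (∑ n ∈ Finset.Icc 1 N, (xs N' (a y) (N + 1)) ^ (1 / 4 : ℝ)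
              * (xr N (a y) n) ^ (1 / 4 : ℝ)
            + ∑ n ∈ Finset.Ioc N N', (xs N' (a y) n) ^ (1 / 4 : ℝ)) ∂(plaw F)
      ≤ ∑ n ∈ Finset.Icc 1 N, (C * q ^ (N + 1)) ^ (1 / 4 : ℝ)
        * (C * q ^ (N + 1 - n)) ^ (1 / 4 : ℝ)
      + ∑ n ∈ Finset.Ioc N N', (C * q ^ n) ^ (1 / 4 : ℝ) := by
    intro a m1 m2 i1 i2
    have m1' := fun n => (m1 n).pow_const (1 / 4 : ℝ)
    have m2' := fun n => (m2 n).pow_const (1 / 4 : ℝ)
    have q1 : ∀ n, Measurable fun y => (xs N' (a y) (N + 1)) ^ (1 / 4 : ℝ)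
        * (xr N (a y) n) ^ (1 / 4 : ℝ) := fun n => (m1' (N + 1)).mul (m2' n)
    rw [lintegral_add_left (Finset.measurable_fun_sum _ fun n _ => q1 n),
      lintegral_finsetSum _ fun n _ => q1 n,
      lintegral_finsetSum _ fun n _ => m1' n]
    apply add_le_add
    · refine Finset.sum_le_sum fun n hn => ?_
      rw [Finset.mem_Icc] at hn
      refine (holder2 (m1 (N + 1)) (m2 n)).trans ?_
      gcongr
      · exact i1 _ (by omega) (by omega)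
      · exact i2 _ hn.1 hn.2
    · refine Finset.sum_le_sum fun n hn => ?_
      rw [Finset.mem_Ioc] at hn
      refine (holder1 (m1 n)).trans ?_
      gcongr
      exact i1 _ (by omega) hn.2
  have prod3 : ∀ {a a' : (F → ℝ) → ℕ → ℝ}, (∀ n, Measurable fun y => xs N' (a y) n) →
      (∀ n, Measurable fun y => xr N (a y) n) → (∀ n, Measurable fun y => xs N (a' y) n) →
      (∀ n, 1 ≤ n → n ≤ N' → ∫⁻ y, xs N' (a y) n ∂(plaw F) ≤ C * q ^ n) →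
      (∀ n, 1 ≤ n → n ≤ N → ∫⁻ y, xr N (a y) n ∂(plaw F) ≤ C * q ^ (N + 1 - n)) →
      (∀ n, 1 ≤ n → n ≤ N → ∫⁻ y, xs N (a' y) n ∂(plaw F) ≤ C * q ^ n) →
      ∫⁻ y, (xs N' (a y) (N + 1)) ^ (1 / 4 : ℝ) * (xr N (a y) 1) ^ (1 / 4 : ℝ)
        * ∑ n ∈ Finset.Icc 1 N, (xs N (a' y) n) ^ (1 / 4 : ℝ) ∂(plaw F)
      ≤ (C * q ^ (N + 1)) ^ (1 / 4 : ℝ) * (C * q ^ N) ^ (1 / 4 : ℝ)
        * ∑ n ∈ Finset.Icc 1 N, (C * q ^ n) ^ (1 / 4 : ℝ) := by
    intro a a' m1 m2 m3 i1 i2 i3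
    simp only [Finset.mul_sum]
    have q3 : ∀ n, Measurable fun y => (xs N' (a y) (N + 1)) ^ (1 / 4 : ℝ)
        * (xr N (a y) 1) ^ (1 / 4 : ℝ) * (xs N (a' y) n) ^ (1 / 4 : ℝ) := fun n =>
      (((m1 (N + 1)).pow_const _).mul ((m2 1).pow_const _)).mul ((m3 n).pow_const _)
    rw [lintegral_finsetSum _ fun n _ => q3 n]
    refine Finset.sum_le_sum fun n hn => ?_
    rw [Finset.mem_Icc] at hn
    refine (holder3 (m1 (N + 1)) (m2 1) (m3 n)).trans ?_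
    gcongr
    · exact i1 _ (by omega) (by omega)
    · have := i2 1 le_rfl hN
      rwa [Nat.add_sub_cancel] at this
    · exact i3 _ hn.1 hn.2
  have prod2 : ∀ {a : (F → ℝ) → ℕ → ℝ}, (∀ n, Measurable fun y => xs N' (a y) n) →
      (∀ n, Measurable fun y => xr N (a y) n) →
      (∀ n, 1 ≤ n → n ≤ N' → ∫⁻ y, xs N' (a y) n ∂(plaw F) ≤ C * q ^ n) →
      (∀ n, 1 ≤ n → n ≤ N → ∫⁻ y, xr N (a y) n ∂(plaw F) ≤ C * q ^ (N + 1 - n)) →
      ∫⁻ y, (xs N' (a y) (N + 1)) ^ (1 / 4 : ℝ) * (xr N (a y) 1) ^ (1 / 4 : ℝ) ∂(plaw F)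
      ≤ (C * q ^ (N + 1)) ^ (1 / 4 : ℝ) * (C * q ^ N) ^ (1 / 4 : ℝ) := by
    intro a m1 m2 i1 i2
    refine (holder2 (m1 (N + 1)) (m2 1)).trans ?_
    gcongr
    · exact i1 _ (by omega) (by omega)
    · have := i2 1 le_rfl hN
      rwa [Nat.add_sub_cancel] at this
  have uR : Measurable fun y => (xs N' (aR y) (N + 1)) ^ (1 / 4 : ℝ)
      * (xr N (aR y) 1) ^ (1 / 4 : ℝ) := ((mR (N + 1)).pow_const _).mul ((rR 1).pow_const _)
  have uL : Measurable fun y => (xs N' (aL y) (N + 1)) ^ (1 / 4 : ℝ)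
      * (xr N (aL y) 1) ^ (1 / 4 : ℝ) := ((mL (N + 1)).pow_const _).mul ((rL 1).pow_const _)
  have vR : Measurable fun y => ∑ n ∈ Finset.Icc 1 N, (xs N (aR y) n) ^ (1 / 4 : ℝ) :=
    Finset.measurable_fun_sum _ fun n _ => (mR' n).pow_const _
  have vL : Measurable fun y => ∑ n ∈ Finset.Icc 1 N, (xs N (aL y) n) ^ (1 / 4 : ℝ) :=
    Finset.measurable_fun_sum _ fun n _ => (mL' n).pow_const _
  have wR : Measurable fun y => (∑ n ∈ Finset.Icc 1 N, (xs N' (aR y) (N + 1)) ^ (1 / 4 : ℝ)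
              * (xr N (aR y) n) ^ (1 / 4 : ℝ)
            + ∑ n ∈ Finset.Ioc N N', (xs N' (aR y) n) ^ (1 / 4 : ℝ)) :=
    (Finset.measurable_fun_sum _ fun n _ => ((mR (N + 1)).pow_const _).mul
      ((rR n).pow_const _)).add (Finset.measurable_fun_sum _ fun n _ => (mR n).pow_const _)
  have wL : Measurable fun y => (∑ n ∈ Finset.Icc 1 N, (xs N' (aL y) (N + 1)) ^ (1 / 4 : ℝ)
              * (xr N (aL y) n) ^ (1 / 4 : ℝ)
            + ∑ n ∈ Finset.Ioc N N', (xs N' (aL y) n) ^ (1 / 4 : ℝ)) :=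
    (Finset.measurable_fun_sum _ fun n _ => ((mL (N + 1)).pow_const _).mul
      ((rL n).pow_const _)).add (Finset.measurable_fun_sum _ fun n _ => (mL n).pow_const _)
  rw [lintegral_add_right _ wL, lintegral_add_right _ wR]
  have main : ∫⁻ y, ENNReal.ofReal δ⁻¹ ^ (1 / 8 : ℝ)
          * ((xs N' (aR y) (N + 1)) ^ (1 / 4 : ℝ) * (xr N (aR y) 1) ^ (1 / 4 : ℝ)
            + (xs N' (aL y) (N + 1)) ^ (1 / 4 : ℝ) * (xr N (aL y) 1) ^ (1 / 4 : ℝ))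
          * (1 + ∑ n ∈ Finset.Icc 1 N, (xs N (aR y) n) ^ (1 / 4 : ℝ)
            + ∑ n ∈ Finset.Icc 1 N, (xs N (aL y) n) ^ (1 / 4 : ℝ)) ∂(plaw F)
      ≤ ENNReal.ofReal δ⁻¹ ^ (1 / 8 : ℝ)
      * (2 * ((C * q ^ (N + 1)) ^ (1 / 4 : ℝ) * (C * q ^ N) ^ (1 / 4 : ℝ)))
      * (1 + 2 * ∑ n ∈ Finset.Icc 1 N, (C * q ^ n) ^ (1 / 4 : ℝ)) := by
    have e : ∀ y, ENNReal.ofReal δ⁻¹ ^ (1 / 8 : ℝ)
          * ((xs N' (aR y) (N + 1)) ^ (1 / 4 : ℝ) * (xr N (aR y) 1) ^ (1 / 4 : ℝ)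
            + (xs N' (aL y) (N + 1)) ^ (1 / 4 : ℝ) * (xr N (aL y) 1) ^ (1 / 4 : ℝ))
          * (1 + ∑ n ∈ Finset.Icc 1 N, (xs N (aR y) n) ^ (1 / 4 : ℝ)
            + ∑ n ∈ Finset.Icc 1 N, (xs N (aL y) n) ^ (1 / 4 : ℝ))
        = ENNReal.ofReal δ⁻¹ ^ (1 / 8 : ℝ)
          * (((xs N' (aR y) (N + 1)) ^ (1 / 4 : ℝ) * (xr N (aR y) 1) ^ (1 / 4 : ℝ)
            + (xs N' (aL y) (N + 1)) ^ (1 / 4 : ℝ) * (xr N (aL y) 1) ^ (1 / 4 : ℝ))
          + ((xs N' (aR y) (N + 1)) ^ (1 / 4 : ℝ) * (xr N (aR y) 1) ^ (1 / 4 : ℝ)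
              * ∑ n ∈ Finset.Icc 1 N, (xs N (aR y) n) ^ (1 / 4 : ℝ)
            + (xs N' (aL y) (N + 1)) ^ (1 / 4 : ℝ) * (xr N (aL y) 1) ^ (1 / 4 : ℝ)
              * ∑ n ∈ Finset.Icc 1 N, (xs N (aR y) n) ^ (1 / 4 : ℝ))
          + ((xs N' (aR y) (N + 1)) ^ (1 / 4 : ℝ) * (xr N (aR y) 1) ^ (1 / 4 : ℝ)
              * ∑ n ∈ Finset.Icc 1 N, (xs N (aL y) n) ^ (1 / 4 : ℝ)
            + (xs N' (aL y) (N + 1)) ^ (1 / 4 : ℝ) * (xr N (aL y) 1) ^ (1 / 4 : ℝ)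
              * ∑ n ∈ Finset.Icc 1 N, (xs N (aL y) n) ^ (1 / 4 : ℝ))) := by
      intro y; ring
    simp only [e]
    have g1 : Measurable fun y => (xs N' (aR y) (N + 1)) ^ (1 / 4 : ℝ)
        * (xr N (aR y) 1) ^ (1 / 4 : ℝ)
        * ∑ n ∈ Finset.Icc 1 N, (xs N (aR y) n) ^ (1 / 4 : ℝ) := uR.mul vR
    have g2 : Measurable fun y => (xs N' (aL y) (N + 1)) ^ (1 / 4 : ℝ)
        * (xr N (aL y) 1) ^ (1 / 4 : ℝ)
        * ∑ n ∈ Finset.Icc 1 N, (xs N (aR y) n) ^ (1 / 4 : ℝ) := uL.mul vR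
    have g3 : Measurable fun y => (xs N' (aR y) (N + 1)) ^ (1 / 4 : ℝ)
        * (xr N (aR y) 1) ^ (1 / 4 : ℝ)
        * ∑ n ∈ Finset.Icc 1 N, (xs N (aL y) n) ^ (1 / 4 : ℝ) := uR.mul vL
    have g4 : Measurable fun y => (xs N' (aL y) (N + 1)) ^ (1 / 4 : ℝ)
        * (xr N (aL y) 1) ^ (1 / 4 : ℝ)
        * ∑ n ∈ Finset.Icc 1 N, (xs N (aL y) n) ^ (1 / 4 : ℝ) := uL.mul vL
    have g0 : Measurable fun y => (xs N' (aR y) (N + 1)) ^ (1 / 4 : ℝ)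
        * (xr N (aR y) 1) ^ (1 / 4 : ℝ)
        + (xs N' (aL y) (N + 1)) ^ (1 / 4 : ℝ) * (xr N (aL y) 1) ^ (1 / 4 : ℝ) := uR.add uL
    have g12 : Measurable fun y => (xs N' (aR y) (N + 1)) ^ (1 / 4 : ℝ)
        * (xr N (aR y) 1) ^ (1 / 4 : ℝ)
        * ∑ n ∈ Finset.Icc 1 N, (xs N (aR y) n) ^ (1 / 4 : ℝ)
        + (xs N' (aL y) (N + 1)) ^ (1 / 4 : ℝ)
        * (xr N (aL y) 1) ^ (1 / 4 : ℝ)
        * ∑ n ∈ Finset.Icc 1 N, (xs N (aR y) n) ^ (1 / 4 : ℝ) := g1.add g2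
    have g34 : Measurable fun y => (xs N' (aR y) (N + 1)) ^ (1 / 4 : ℝ)
        * (xr N (aR y) 1) ^ (1 / 4 : ℝ)
        * ∑ n ∈ Finset.Icc 1 N, (xs N (aL y) n) ^ (1 / 4 : ℝ)
        + (xs N' (aL y) (N + 1)) ^ (1 / 4 : ℝ)
        * (xr N (aL y) 1) ^ (1 / 4 : ℝ)
        * ∑ n ∈ Finset.Icc 1 N, (xs N (aL y) n) ^ (1 / 4 : ℝ) := g3.add g4
    rw [lintegral_const_mul' _ _ (by
      apply ENNReal.rpow_ne_top_of_nonneg (by norm_num) ENNReal.ofReal_ne_top), mul_assoc]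
    gcongr
    rw [lintegral_add_right _ g34, lintegral_add_right _ g12,
      lintegral_add_right _ uL, lintegral_add_right _ g2, lintegral_add_right _ g4]
    have a1 := prod2 mR rR iR jR
    have a2 := prod2 mL rL iL jL
    have a3 := prod3 mR rR mR' iR jR iR'
    have a4 := prod3 mL rL mR' iL jL iR'
    have a5 := prod3 mR rR mL' iR jR iL'
    have a6 := prod3 mL rL mL' iL jL iL'
    refine (add_le_add (add_le_add (add_le_add a1 a2) (add_le_add a3 a4))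
      (add_le_add a5 a6)).trans (le_of_eq ?_)
    ring
  have s1 := side mR rR iR jR
  have s2 := side mL rL iL jL
  unfold errb
  refine (add_le_add (add_le_add main s1) s2).trans (le_of_eq ?_)
  ring

end Pool.Agent.R993.LP.M
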