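import Pool.Agent.R993.LP.Exp
import Pool.Agent.R993.LP.C

/-! # Comparison of two windows: integrated over energies -/

namespace Pool.Agent.R993.LP.M

open MeasureTheory Filter Topology
open scoped ENNReal

/-- the spectral averaging identity -/
def Dual : Prop := ∀ (N : ℕ) (V : ℤ → ℝ) (δ : ℝ), 0 < δ →
    ∫⁻ t, Zf N (Function.update V 0 (V 0 + δ * t)) ∂law
      = ∫⁻ E : ℝ, ENNReal.ofReal (δ⁻¹ * rho (tst N V δ E))
        * ENNReal.ofReal (rr N V E) ^ (1 / 16 : ℝ)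

lemma Zf_congr {N : ℕ} {V V' : ℤ → ℝ} (h : ∀ n : ℤ, |n| ≤ (N : ℤ) → V n = V' n) :
    Zf N V = Zf N V' := by
  have key : ∀ {V V' : ℤ → ℝ}, (∀ n : ℤ, |n| ≤ (N : ℤ) → V n = V' n) → ∀ ψ e,
      IsDec N V ψ e → IsDec N V' ψ e := by
    intro V V' h ψ e hd
    refine ⟨hd.supp, fun j n hn => ?_, hd.orth, hd.sum⟩
    rw [← h n hn]
    exact hd.eig j n hn
  have key2 : ∀ ψ e, IsDec N V ψ e ↔ IsDec N V' ψ e := fun ψ e =>
    ⟨key h ψ e, key (fun n hn => (h n hn).symm) ψ e⟩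
  unfold Zf
  simp only [key2]

/-- the geometric series bound -/
noncomputable def Tc (C q : ℝ≥0∞) : ℝ≥0∞ := C ^ (1 / 4 : ℝ) * (1 - q ^ (1 / 4 : ℝ))⁻¹

/-- the constant in the comparison -/
noncomputable def Kc (δ : ℝ) (C q : ℝ≥0∞) : ℝ≥0∞ :=
  ENNReal.ofReal δ⁻¹ ^ (1 / 8 : ℝ) * (2 * (C ^ (1 / 4 : ℝ) * C ^ (1 / 4 : ℝ))) * (1 + 2 * Tc C q)
    + 2 * (C ^ (1 / 4 : ℝ) * Tc C q + Tc C q)

lemma beta_eq (C q : ℝ≥0∞) (n : ℕ) :
    (C * q ^ n) ^ (1 / 4 : ℝ) = C ^ (1 / 4 : ℝ) * (q ^ (1 / 4 : ℝ)) ^ n := by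
  rw [ENNReal.mul_rpow_of_nonneg _ _ (by norm_num)]
  congr 1
  rw [← ENNReal.rpow_natCast, ← ENNReal.rpow_natCast, ← ENNReal.rpow_mul, ← ENNReal.rpow_mul,
    mul_comm]

lemma sum_geom (Q : ℝ≥0∞) (s : Finset ℕ) : ∑ n ∈ s, Q ^ n ≤ (1 - Q)⁻¹ := by
  rw [← ENNReal.tsum_geometric]
  exact ENNReal.sum_le_tsum s

lemma errb_le {δ : ℝ} {C q : ℝ≥0∞} (hq : q < 1) (N N' : ℕ) :
    errb δ C q N N' ≤ Kc δ C q * (q ^ (1 / 4 : ℝ)) ^ (N + 1) := by
  set Q := q ^ (1 / 4 : ℝ) with hQ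
  set c := C ^ (1 / 4 : ℝ) with hc
  have hQ1 : Q ≤ 1 := ENNReal.rpow_le_one hq.le (by norm_num)
  have hs1 : ∑ n ∈ Finset.Icc 1 N, (C * q ^ n) ^ (1 / 4 : ℝ) ≤ Tc C q := by
    simp only [beta_eq]
    rw [← Finset.mul_sum]
    unfold Tc
    gcongr
    exact sum_geom _ _
  have hs2 : ∑ n ∈ Finset.Icc 1 N, (C * q ^ (N + 1)) ^ (1 / 4 : ℝ)
        * (C * q ^ (N + 1 - n)) ^ (1 / 4 : ℝ) ≤ c * Tc C q * Q ^ (N + 1) := by
    rw [← Finset.mul_sum]
    have e : ∑ n ∈ Finset.Icc 1 N, (C * q ^ (N + 1 - n)) ^ (1 / 4 : ℝ)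
        = ∑ n ∈ Finset.Icc 1 N, (C * q ^ n) ^ (1 / 4 : ℝ) := by
      apply Finset.sum_nbij' (fun n => N + 1 - n) (fun n => N + 1 - n)
      · intro n hn; simp only [Finset.mem_Icc] at hn ⊢; omega
      · intro n hn; simp only [Finset.mem_Icc] at hn ⊢; omega
      · intro n hn; simp only [Finset.mem_Icc] at hn; omega
      · intro n hn; simp only [Finset.mem_Icc] at hn; omega
      · intro n hn; rfl
    rw [e, beta_eq]
    calc C ^ (1 / 4 : ℝ) * (q ^ (1 / 4 : ℝ)) ^ (N + 1)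
          * ∑ n ∈ Finset.Icc 1 N, (C * q ^ n) ^ (1 / 4 : ℝ)
        ≤ C ^ (1 / 4 : ℝ) * (q ^ (1 / 4 : ℝ)) ^ (N + 1) * Tc C q := by gcongr
      _ = _ := by ring
  have hs3 : ∑ n ∈ Finset.Ioc N N', (C * q ^ n) ^ (1 / 4 : ℝ) ≤ Tc C q * Q ^ (N + 1) := by
    simp only [beta_eq]
    rw [← Finset.mul_sum]
    have e : ∑ n ∈ Finset.Ioc N N', Q ^ n
        = ∑ n ∈ Finset.range (N' - N), Q ^ (N + 1) * Q ^ n := by
      apply Finset.sum_nbij' (fun n => n - (N + 1)) (fun n => N + 1 + n)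
      · intro n hn; simp only [Finset.mem_Ioc, Finset.mem_range] at hn ⊢; omega
      · intro n hn; simp only [Finset.mem_Ioc, Finset.mem_range] at hn ⊢; omega
      · intro n hn; simp only [Finset.mem_Ioc] at hn; omega
      · intro n hn; simp only [Finset.mem_range] at hn; omega
      · intro n hn
        simp only [Finset.mem_Ioc] at hn
        rw [← pow_add]
        congr 1
        omega
    rw [e, ← Finset.mul_sum]
    unfold Tc
    calc C ^ (1 / 4 : ℝ) * (Q ^ (N + 1) * ∑ n ∈ Finset.range (N' - N), Q ^ n)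
        ≤ C ^ (1 / 4 : ℝ) * (Q ^ (N + 1) * (1 - Q)⁻¹) := by
          gcongr
          exact sum_geom _ _
      _ = _ := by ring
  unfold errb
  have h1 : (C * q ^ (N + 1)) ^ (1 / 4 : ℝ) * (C * q ^ N) ^ (1 / 4 : ℝ)
      ≤ c * c * Q ^ (N + 1) := by
    rw [beta_eq, beta_eq]
    calc c * Q ^ (N + 1) * (c * Q ^ N) ≤ c * Q ^ (N + 1) * (c * 1) := by
          gcongr
          exact pow_le_one₀ (zero_le) hQ1
      _ = _ := by ring
  calc ENNReal.ofReal δ⁻¹ ^ (1 / 8 : ℝ)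
      * (2 * ((C * q ^ (N + 1)) ^ (1 / 4 : ℝ) * (C * q ^ N) ^ (1 / 4 : ℝ)))
      * (1 + 2 * ∑ n ∈ Finset.Icc 1 N, (C * q ^ n) ^ (1 / 4 : ℝ))
    + 2 * (∑ n ∈ Finset.Icc 1 N, (C * q ^ (N + 1)) ^ (1 / 4 : ℝ)
        * (C * q ^ (N + 1 - n)) ^ (1 / 4 : ℝ)
      + ∑ n ∈ Finset.Ioc N N', (C * q ^ n) ^ (1 / 4 : ℝ))
      ≤ ENNReal.ofReal δ⁻¹ ^ (1 / 8 : ℝ) * (2 * (c * c * Q ^ (N + 1)))
      * (1 + 2 * Tc C q) + 2 * (c * Tc C q * Q ^ (N + 1) + Tc C q * Q ^ (N + 1)) := by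
        gcongr
    _ = Kc δ C q * Q ^ (N + 1) := by
        unfold Kc
        ring

lemma Kc_ne_top {δ : ℝ} {C q : ℝ≥0∞} (hC : C ≠ ⊤) (hq : q < 1) : Kc δ C q ≠ ⊤ := by
  have hQ : q ^ (1 / 4 : ℝ) < 1 := ENNReal.rpow_lt_one hq (by norm_num)
  have h1 : (1 - q ^ (1 / 4 : ℝ))⁻¹ ≠ ⊤ := by
    rw [Ne, ENNReal.inv_eq_top, tsub_eq_zero_iff_le, not_le]
    exact hQ
  have hc : C ^ (1 / 4 : ℝ) ≠ ⊤ := ENNReal.rpow_ne_top_of_nonneg (by norm_num) hC
  have hT : Tc C q ≠ ⊤ := ENNReal.mul_ne_top hc h1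
  have hδ : ENNReal.ofReal δ⁻¹ ^ (1 / 8 : ℝ) ≠ ⊤ :=
    ENNReal.rpow_ne_top_of_nonneg (by norm_num) ENNReal.ofReal_ne_top
  unfold Kc
  finiteness

variable {F : Type*} [Fintype F] [DecidableEq F]

omit [Fintype F] [DecidableEq F] in
lemma measurable_Vy (δ : ℝ) (b : ℤ → ℝ) (p : ℤ → F) (n : ℤ) :
    Measurable (fun y : F → ℝ => Vy δ b p y n) := by
  unfold Vy
  split_ifs
  · exact measurable_const
  · fun_prop

/-- the integrand of the spectral averaging identity -/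
noncomputable def Phi (N : ℕ) (δ : ℝ) (b : ℤ → ℝ) (p : ℤ → F) (y : F → ℝ) (E : ℝ) : ℝ≥0∞ :=
  ENNReal.ofReal (δ⁻¹ * rho (tst N (Vy δ b p y) δ E))
    * ENNReal.ofReal (rr N (Vy δ b p y) E) ^ (1 / 16 : ℝ)

lemma measurable_rho : Measurable rho := by
  unfold rho tent
  fun_prop

omit [Fintype F] [DecidableEq F] in
lemma measurable_aR (δ : ℝ) (b : ℤ → ℝ) (p : ℤ → F) (i : ℕ) :
    Measurable (fun x : (F → ℝ) × ℝ => aR (Vy δ b p x.1) x.2 i) := by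
  unfold aR
  exact measurable_snd.sub ((measurable_Vy δ b p _).comp measurable_fst)

omit [Fintype F] [DecidableEq F] in
lemma measurable_aL (δ : ℝ) (b : ℤ → ℝ) (p : ℤ → F) (i : ℕ) :
    Measurable (fun x : (F → ℝ) × ℝ => aL (Vy δ b p x.1) x.2 i) := by
  unfold aL
  exact measurable_snd.sub ((measurable_Vy δ b p _).comp measurable_fst)

omit [Fintype F] [DecidableEq F] in
lemma measurable_Phi (N : ℕ) (δ : ℝ) (b : ℤ → ℝ) (p : ℤ → F) :
    Measurable (fun x : (F → ℝ) × ℝ => Phi N δ b p x.1 x.2) := by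
  have hR := fun n => measurable_unrm N n (measurable_aR δ b p)
  have hL := fun n => measurable_unrm N n (measurable_aL δ b p)
  have h1 : Measurable (fun x : (F → ℝ) × ℝ => tst N (Vy δ b p x.1) δ x.2) := by
    unfold tst
    exact (((measurable_snd.sub ((measurable_Vy δ b p _).comp measurable_fst)).sub (hR 1)).sub
      (hL 1)).div_const _
  have h2 : Measurable (fun x : (F → ℝ) × ℝ => rr N (Vy δ b p x.1) x.2) := by
    unfold rr
    exact (measurable_const.add (Finset.measurable_fun_sum _ fun n _ => (hR n).pow_const 2)).add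
      (Finset.measurable_fun_sum _ fun n _ => (hL n).pow_const 2)
  unfold Phi
  exact (((measurable_rho.comp h1).const_mul _).ennreal_ofReal).mul
    (h2.ennreal_ofReal.pow_const _)

omit [Fintype F] [DecidableEq F] in
lemma measurable_W (δ : ℝ) (b : ℤ → ℝ) (p : ℤ → F) :
    Measurable (fun (y : F → ℝ) (n : ℤ) => b n + δ * y (p n)) := by
  rw [measurable_pi_iff]
  intro n
  fun_prop

/-- the expectation of the functional in the dual representation -/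
lemma dual_int [IsProbabilityMeasure law] (hD : Dual) {δ : ℝ} (hδ : 0 < δ) (b : ℤ → ℝ) {N : ℕ}
    {p : ℤ → F} (hp : Set.InjOn p (Set.Icc (-(N : ℤ)) N)) :
    ∫⁻ y, Zf N (fun n => b n + δ * y (p n)) ∂(plaw F)
      = ∫⁻ E : ℝ, ∫⁻ y, Phi N δ b p y E ∂(plaw F) := by
  have hm : Measurable (fun y : F → ℝ => Zf N (fun n => b n + δ * y (p n))) :=
    (measurable_Zf N).comp (measurable_W δ b p)
  rw [resample_fin (p 0) hm]
  have hsw : ∫⁻ E : ℝ, ∫⁻ y, Phi N δ b p y E ∂(plaw F)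
      = ∫⁻ y, (∫⁻ E : ℝ, Phi N δ b p y E) ∂(plaw F) := by
    rw [lintegral_lintegral_swap]
    exact ((measurable_Phi N δ b p).comp measurable_swap).aemeasurable
  rw [hsw]
  · refine lintegral_congr fun y => ?_
    have h := hD N (Vy δ b p y) δ hδ
    rw [show (∫⁻ E : ℝ, Phi N δ b p y E) = ∫⁻ E : ℝ, ENNReal.ofReal (δ⁻¹ *
      rho (tst N (Vy δ b p y) δ E)) * ENNReal.ofReal (rr N (Vy δ b p y) E) ^ (1 / 16 : ℝ) from rfl,
      ← h]
    refine lintegral_congr fun t => ?_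
    apply Zf_congr
    intro n hn
    rw [abs_le] at hn
    by_cases h0 : n = 0
    · subst h0
      rw [Function.update_self, Function.update_self]
      simp [Vy]
    · have hne : p n ≠ p 0 := by
        intro he
        exact h0 (hp ⟨hn.1, hn.2⟩ ⟨by omega, by omega⟩ he)
      rw [Function.update_of_ne h0, Function.update_of_ne hne]
      simp [Vy, h0]

lemma law_ae : ∀ᵐ t ∂law, |t| ≤ 2 := by
  unfold law
  rw [ae_withDensity_iff (measurable_rho.ennreal_ofReal)]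
  refine Filter.Eventually.of_forall fun t ht => ?_
  by_contra hcon
  push Not at hcon
  apply ht
  rw [rho_eq_zero hcon]
  simp

omit [DecidableEq F] in
lemma plaw_ae [IsProbabilityMeasure law] : ∀ᵐ y ∂(plaw F), ∀ j, |y j| ≤ 2 := by
  rw [ae_all_iff]
  intro j
  have h := (Measure.quasiMeasurePreserving_eval (fun _ : F => law) j).ae law_ae
  exact h

omit [Fintype F] [DecidableEq F] in
lemma measurable_PhiE (N : ℕ) (δ : ℝ) (b : ℤ → ℝ) (p : ℤ → F) (E : ℝ) :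
    Measurable (fun y : F → ℝ => Phi N δ b p y E) := by
  have h1 : Measurable (fun y : F → ℝ => ((y, E) : (F → ℝ) × ℝ)) := measurable_prodMk_right
  have h2 := measurable_Phi N δ b p
  generalize Phi N δ b p = f at h2 ⊢
  exact h2.comp h1

omit [Fintype F] [DecidableEq F] in
lemma Phi_eq {δ : ℝ} (hδ : 0 < δ) (N : ℕ) (b : ℤ → ℝ) (p : ℤ → F) (y : F → ℝ) (E : ℝ) :
    Phi N δ b p y E = ENNReal.ofReal δ⁻¹ * (ENNReal.ofReal (rho (tst N (Vy δ b p y) δ E))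
      * ENNReal.ofReal (rr N (Vy δ b p y) E) ^ (1 / 16 : ℝ)) := by
  unfold Phi
  rw [ENNReal.ofReal_mul (inv_nonneg.2 hδ.le), mul_assoc]

end Pool.Agent.R993.LP.M
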