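import Pool.Agent.R993.LP.Lvl

/-! # Comparison of two windows at a fixed energy -/

namespace Pool.Agent.R993.LP.M

open MeasureTheory Filter Topology
open scoped ENNReal

variable {F : Type*} [Fintype F] [DecidableEq F]

/-- comparison at a fixed energy -/
lemma level_E [IsProbabilityMeasure law] {δ B : ℝ} {C q : ℝ≥0∞} (hδ : 0 < δ) (hδ1 : δ ≤ 1)
    (hB : 0 ≤ B) (h : FM δ (2 * B + 6) C q) (hC : C ≠ ⊤) (hq : q < 1) {b : ℤ → ℝ}
    (hb : ∀ n, |b n| ≤ B) {N N' : ℕ} (hN : 1 ≤ N) (hNN : N < N') {p : ℤ → F}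
    (hp : Set.InjOn p (Set.Icc (-(N' : ℤ)) N')) (E : ℝ) :
    ∫⁻ y, Phi N' δ b p y E ∂(plaw F) ≤ ∫⁻ y, Phi N δ b p y E ∂(plaw F)
      + (Set.Icc (-(B + 6)) (B + 6)).indicator
          (fun _ => ENNReal.ofReal δ⁻¹ * errb δ C q N N') E := by
  by_cases hE : E ∈ Set.Icc (-(B + 6)) (B + 6)
  · rw [Set.indicator_of_mem hE]
    have hEabs : |E| ≤ B + 6 := abs_le.2 hE
    have hcR : ∀ i : ℕ, |E - b i| ≤ 2 * B + 6 := by
      intro i
      have := abs_sub E (b i)
      have := hb i
      linarith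
    have hcL : ∀ i : ℕ, |E - b (-i)| ≤ 2 * B + 6 := by
      intro i
      have := abs_sub E (b (-i))
      have := hb (-i)
      linarith
    have hpR : Set.InjOn (fun n : ℕ => p n) (Set.Icc 1 N') := by
      intro i hi j hj hij
      have hi' : 1 ≤ i ∧ i ≤ N' := hi
      have hj' : 1 ≤ j ∧ j ≤ N' := hj
      have := @hp (i : ℤ) (by constructor <;> omega) (j : ℤ) (by constructor <;> omega) hij
      omega
    have hpL : Set.InjOn (fun n : ℕ => p (-n)) (Set.Icc 1 N') := by
      intro i hi j hj hij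
      have hi' : 1 ≤ i ∧ i ≤ N' := hi
      have hj' : 1 ≤ j ∧ j ≤ N' := hj
      have := @hp (-(i : ℤ)) (by constructor <;> omega) (-(j : ℤ)) (by constructor <;> omega) hij
      omega
    have haR : Lin δ N' (fun i : ℕ => E - b i) (fun n : ℕ => p n)
        (fun y => aR (Vy δ b p y) E) := by
      intro y n h1 h2
      have h0 : (n : ℤ) ≠ 0 := by omega
      simp only [aR, Vy, if_neg h0]
      ring
    have haL : Lin δ N' (fun i : ℕ => E - b (-i)) (fun n : ℕ => p (-n))
        (fun y => aL (Vy δ b p y) E) := by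
      intro y n h1 h2
      have h0 : (-(n : ℤ)) ≠ 0 := by omega
      simp only [aL, Vy, if_neg h0]
      ring
    have hmR : ∀ i, Measurable fun y => aR (Vy δ b p y) E i := by
      intro i
      unfold aR
      exact measurable_const.sub (measurable_Vy δ b p _)
    have hmL : ∀ i, Measurable fun y => aL (Vy δ b p y) E i := by
      intro i
      unfold aL
      exact measurable_const.sub (measurable_Vy δ b p _)
    have hpR1 : Set.InjOn (fun n : ℕ => p n) (Set.Icc 1 N) :=
      hpR.mono (Set.Icc_subset_Icc_right hNN.le)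
    have hpL1 : Set.InjOn (fun n : ℕ => p (-n)) (Set.Icc 1 N) :=
      hpL.mono (Set.Icc_subset_Icc_right hNN.le)
    obtain ⟨r1, r3⟩ := ae_ne_zero h hC hq hN hcR hpR1 (haR.mono hNN.le) hmR
    obtain ⟨l1, l3⟩ := ae_ne_zero h hC hq hN hcL hpL1 (haL.mono hNN.le) hmL
    obtain ⟨r2, -⟩ := ae_ne_zero h hC hq (hN.trans hNN.le) hcR hpR haR hmR
    obtain ⟨l2, -⟩ := ae_ne_zero h hC hq (hN.trans hNN.le) hcL hpL haL hmL
    have herr := err_int h hN hNN hcR hcL hpR hpL haR haL hmR hmL
    have hPm := measurable_PhiE N δ b p E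
    refine le_trans ?_ (add_le_add le_rfl (mul_le_mul' (le_refl (ENNReal.ofReal δ⁻¹)) herr))
    rw [← lintegral_const_mul' _ _ ENNReal.ofReal_ne_top, ← lintegral_add_left hPm]
    apply lintegral_mono_ae
    filter_upwards [r1, r2, r3, l1, l2, l3] with y k1 k2 k3 k4 k5 k6
    have := pointwise hN hNN.le (Vy δ b p y) hδ E k1 k2 k3 k4 k5 k6
    rw [Phi_eq hδ, Phi_eq hδ, ← mul_add]
    exact mul_le_mul' le_rfl this
  · rw [Set.indicator_of_notMem hE, add_zero]
    have hE' : B + 6 < |E| := by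
      by_contra hcon
      push Not at hcon
      exact hE (abs_le.1 hcon)
    have : ∫⁻ y, Phi N' δ b p y E ∂(plaw F) = 0 := by
      rw [lintegral_eq_zero_iff (measurable_PhiE N' δ b p E)]
      filter_upwards [plaw_ae (F := F)] with y hy
      have hV : ∀ n : ℤ, |Vy δ b p y n| ≤ B + 2 := by
        intro n
        unfold Vy
        split_ifs
        · have := hb 0
          linarith
        · have h1 := abs_add_le (b n) (δ * y (p n))
          rw [abs_mul, abs_of_pos hδ] at h1
          have h2 := hb n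
          have h3 : δ * |y (p n)| ≤ 1 * 2 :=
            mul_le_mul hδ1 (hy _) (abs_nonneg _) zero_le_one
          linarith
      have hbig : ∀ n : ℤ, 2 ≤ |E - Vy δ b p y n| := by
        intro n
        have h1 := abs_sub_abs_le_abs_sub E (Vy δ b p y n)
        have h2 := hV n
        linarith
      have u1 : |unrm N' (aR (Vy δ b p y) E) 1| ≤ 1 := unrm_one_le fun i _ _ => hbig _
      have u2 : |unrm N' (aL (Vy δ b p y) E) 1| ≤ 1 := unrm_one_le fun i _ _ => hbig _
      have ht : 2 < |tst N' (Vy δ b p y) δ E| := by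
        unfold tst
        rw [abs_div, abs_of_pos hδ, lt_div_iff₀ hδ]
        have h1 := abs_sub_abs_le_abs_sub (E - Vy δ b p y 0 - unrm N' (aR (Vy δ b p y) E) 1)
          (unrm N' (aL (Vy δ b p y) E) 1)
        have h2 := abs_sub_abs_le_abs_sub (E - Vy δ b p y 0) (unrm N' (aR (Vy δ b p y) E) 1)
        have h3 := abs_sub_abs_le_abs_sub E (Vy δ b p y 0)
        have h4 := hV 0
        have h5 : 2 * δ ≤ 2 := by linarith
        have h6 : |Vy δ b p y 0| ≤ B := by
          have e : Vy δ b p y 0 = b 0 := by simp [Vy]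
          rw [e]; exact hb 0
        linarith
      show Phi N' δ b p y E = 0
      unfold Phi
      rw [rho_eq_zero ht]
      simp
    rw [this]
    exact zero_le

end Pool.Agent.R993.LP.M
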