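import Pool.Agent.R993.LP.Lvl2

/-! # Comparison of two windows integrated over energies -/

namespace Pool.Agent.R993.LP.M

open MeasureTheory Filter Topology
open scoped ENNReal

variable {F : Type*} [Fintype F] [DecidableEq F]

/-- comparison of the expectations of the functionals of two windows -/
theorem level [IsProbabilityMeasure law] (hD : Dual) {δ B : ℝ} {C q : ℝ≥0∞} (hδ : 0 < δ)
    (hδ1 : δ ≤ 1) (hB : 0 ≤ B) (h : FM δ (2 * B + 6) C q) (hC : C ≠ ⊤) (hq : q < 1) {b : ℤ → ℝ}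
    (hb : ∀ n, |b n| ≤ B) {N N' : ℕ} (hN : 1 ≤ N) (hNN : N < N') {p : ℤ → F}
    (hp : Set.InjOn p (Set.Icc (-(N' : ℤ)) N')) :
    ∫⁻ y, Zf N' (fun n => b n + δ * y (p n)) ∂(plaw F)
      ≤ ∫⁻ y, Zf N (fun n => b n + δ * y (p n)) ∂(plaw F)
        + ENNReal.ofReal δ⁻¹ * (Kc δ C q * (q ^ (1 / 4 : ℝ)) ^ (N + 1))
          * ENNReal.ofReal (2 * (B + 6)) := by
  have hp1 : Set.InjOn p (Set.Icc (-(N : ℤ)) N) :=
    hp.mono (Set.Icc_subset_Icc (by omega) (by omega))
  rw [dual_int hD hδ b hp, dual_int hD hδ b hp1]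
  calc ∫⁻ E : ℝ, ∫⁻ y, Phi N' δ b p y E ∂(plaw F)
      ≤ ∫⁻ E : ℝ, (∫⁻ y, Phi N δ b p y E ∂(plaw F)
        + (Set.Icc (-(B + 6)) (B + 6)).indicator
          (fun _ => ENNReal.ofReal δ⁻¹ * errb δ C q N N') E) :=
        lintegral_mono fun E => level_E hδ hδ1 hB h hC hq hb hN hNN hp E
    _ = (∫⁻ E : ℝ, (∫⁻ y, Phi N δ b p y E ∂(plaw F)))
        + ∫⁻ E : ℝ, (Set.Icc (-(B + 6)) (B + 6)).indicator
          (fun _ => ENNReal.ofReal δ⁻¹ * errb δ C q N N') E := by
        have hm : Measurable ((Set.Icc (-(B + 6)) (B + 6)).indicator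
          (fun _ : ℝ => ENNReal.ofReal δ⁻¹ * errb δ C q N N')) :=
          measurable_const.indicator (measurableSet_Icc (a := -(B + 6)) (b := B + 6))
        exact lintegral_add_right _ hm
    _ ≤ _ := by
        refine add_le_add le_rfl ?_
        rw [lintegral_indicator (measurableSet_Icc (a := -(B + 6)) (b := B + 6)),
          setLIntegral_const, Real.volume_Icc]
        have e : B + 6 - -(B + 6) = 2 * (B + 6) := by ring
        rw [e]
        exact mul_le_mul' (mul_le_mul' le_rfl (errb_le hq N N')) le_rfl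

end Pool.Agent.R993.LP.M
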