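import Pool.Agent.R993.LP.Lvl3
import Pool.Agent.R993.LP.A
import Pool.Agent.R993.LP.B

/-! # The random perturbation -/

namespace Pool.Agent.R993.LP.M

open MeasureTheory Filter Topology
open scoped ENNReal

/-- truncation to [-2,2] -/
noncomputable def clip (t : ℝ) : ℝ := max (-2) (min 2 t)

lemma clip_abs (t : ℝ) : |clip t| ≤ 2 := by
  unfold clip
  rw [abs_le]
  exact ⟨le_max_left _ _, max_le (by norm_num) (min_le_left _ _)⟩

lemma clip_eq {t : ℝ} (h : |t| ≤ 2) : clip t = t := by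
  unfold clip
  rw [abs_le] at h
  rw [min_eq_right h.2, max_eq_right h.1]

lemma measurable_clip : Measurable clip := by
  unfold clip
  fun_prop

lemma exists_Zf_le (N : ℕ) (V : ℤ → ℝ) : Zf N V ≤ 2 * N + 1 := by
  obtain ⟨ψ, e, h⟩ := BB.exists_dec N V
  have h1 : Zf N V ≤ ∑ j, ENNReal.ofReal (ψ j 0) ^ (15 / 16 : ℝ) := by
    unfold Zf
    exact iInf_le_of_le ψ (iInf_le_of_le e (iInf_le _ h))
  refine h1.trans ?_
  calc ∑ j, ENNReal.ofReal (ψ j 0) ^ (15 / 16 : ℝ) ≤ ∑ j : Fin (2 * N + 1), (1 : ℝ≥0∞) := by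
        refine Finset.sum_le_sum fun j _ => ?_
        apply ENNReal.rpow_le_one _ (by norm_num)
        exact ENNReal.ofReal_le_one.2 (h.le_one j)
    _ = 2 * N + 1 := by simp

/-- the amplitude of the level k -/
noncomputable def amp (ε : ℝ) (k : ℕ) : ℝ := ε * (1 / 2) ^ (k + 2)

lemma amp_pos {ε : ℝ} (hε : 0 < ε) (k : ℕ) : 0 < amp ε k := by unfold amp; positivity

lemma amp_le {ε : ℝ} (hε : 0 < ε) (hε1 : ε ≤ 1) (k : ℕ) : amp ε k ≤ 1 / 4 := by
  unfold amp
  have h1 : ((1 : ℝ) / 2) ^ (k + 2) ≤ (1 / 2) ^ 2 :=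
    pow_le_pow_of_le_one (by norm_num) (by norm_num) (by omega)
  have h2 : (0 : ℝ) < (1 / 2) ^ (k + 2) := by positivity
  nlinarith

lemma summable_amp (ε : ℝ) : Summable (amp ε) := by
  unfold amp
  apply Summable.mul_left
  exact (summable_nat_add_iff 2).2 (summable_geometric_of_lt_one (by norm_num) (by norm_num))

lemma tsum_amp (ε : ℝ) : ∑' k, amp ε k = ε / 2 := by
  unfold amp
  have h : ∀ k : ℕ, ε * (1 / 2 : ℝ) ^ (k + 2) = (ε / 4) * (1 / 2) ^ k := by
    intro k; rw [pow_add]; ring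
  simp only [h]
  rw [tsum_mul_left, tsum_geometric_of_lt_one (by norm_num) (by norm_num)]
  ring

variable {Ω : Type*} [TopologicalSpace Ω]

/-- the perturbation -/
noncomputable def pert (ε : ℝ) {m : ℕ → ℕ} (pr : ∀ k, Ω → Fin (m k)) (x : ∀ k, Fin (m k) → ℝ)
    (ω : Ω) : ℝ := ∑' k, amp ε k * clip (x k (pr k ω))

lemma term_le {ε : ℝ} (hε : 0 < ε) (k : ℕ) (t : ℝ) : ‖amp ε k * clip t‖ ≤ amp ε k * 2 := by
  rw [norm_mul, Real.norm_eq_abs, Real.norm_eq_abs, abs_of_pos (amp_pos hε k)]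
  exact mul_le_mul_of_nonneg_left (clip_abs t) (amp_pos hε k).le

omit [TopologicalSpace Ω] in
lemma summable_pert {ε : ℝ} (hε : 0 < ε) {m : ℕ → ℕ} (pr : ∀ k, Ω → Fin (m k))
    (x : ∀ k, Fin (m k) → ℝ) (ω : Ω) : Summable fun k => amp ε k * clip (x k (pr k ω)) :=
  Summable.of_norm_bounded ((summable_amp ε).mul_right 2) fun k => term_le hε k _

omit [TopologicalSpace Ω] in
lemma pert_abs {ε : ℝ} (hε : 0 < ε) {m : ℕ → ℕ} (pr : ∀ k, Ω → Fin (m k))
    (x : ∀ k, Fin (m k) → ℝ) (ω : Ω) : |pert ε pr x ω| ≤ ε := by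
  unfold pert
  rw [← Real.norm_eq_abs]
  have h := tsum_of_norm_bounded (f := fun k => amp ε k * clip (x k (pr k ω)))
    ((summable_amp ε).mul_right 2).hasSum (fun k => term_le hε k _)
  rw [tsum_mul_right, tsum_amp] at h
  linarith

lemma continuous_pert {ε : ℝ} (hε : 0 < ε) {m : ℕ → ℕ} {pr : ∀ k, Ω → Fin (m k)}
    (hpr : ∀ k, Continuous (pr k)) (x : ∀ k, Fin (m k) → ℝ) : Continuous (pert ε pr x) := by
  unfold pert
  apply continuous_tsum (u := fun k => amp ε k * 2)
  · intro k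
    have h1 : Continuous (fun j : Fin (m k) => amp ε k * clip (x k j)) :=
      continuous_of_discreteTopology
    exact h1.comp (hpr k)
  · exact (summable_amp ε).mul_right 2
  · intro k ω
    exact term_le hε k _

omit [TopologicalSpace Ω] in
lemma pert_update {ε : ℝ} (hε : 0 < ε) {m : ℕ → ℕ} (pr : ∀ k, Ω → Fin (m k))
    (x : ∀ k, Fin (m k) → ℝ) (k : ℕ) (y : Fin (m k) → ℝ) (ω : Ω) :
    pert ε pr (Function.update x k y) ω
      = pert ε pr x ω - amp ε k * clip (x k (pr k ω)) + amp ε k * clip (y (pr k ω)) := by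
  have h1 := (summable_pert hε pr x ω).hasSum
  have h2 := h1.update k (amp ε k * clip (y (pr k ω)))
  have e : Function.update (fun k => amp ε k * clip (x k (pr k ω))) k (amp ε k * clip (y (pr k ω)))
      = fun l => amp ε l * clip ((Function.update x k y) l (pr l ω)) := by
    funext l
    by_cases h : l = k
    · subst h
      rw [Function.update_self, Function.update_self]
    · rw [Function.update_of_ne h, Function.update_of_ne h]
  rw [e] at h2
  unfold pert
  rw [h2.tsum_eq]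
  ring

/-- the amplitudes, quotients and windows; f0 is the background -/
noncomputable def Vp (ε : ℝ) {m : ℕ → ℕ} (pr : ∀ k, Ω → Fin (m k)) (f0 : Ω → ℝ) (T : ℤ → Ω → Ω)
    (x : ∀ k, Fin (m k) → ℝ) (ω : Ω) (n : ℤ) : ℝ := f0 (T n ω) + pert ε pr x (T n ω)

omit [TopologicalSpace Ω] in
/-- measurability of the potential in the sample and the phase -/
lemma measurable_Vp [MeasurableSpace Ω] {ε : ℝ} (hε : 0 < ε) {m : ℕ → ℕ}
    {pr : ∀ k, Ω → Fin (m k)} (hpr : ∀ k, Measurable (pr k)) {f0 : Ω → ℝ} (hf0 : Measurable f0)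
    {T : ℤ → Ω → Ω} (hT : ∀ n, Measurable (T n)) :
    Measurable (fun z : (∀ k, Fin (m k) → ℝ) × Ω => Vp ε pr f0 T z.1 z.2) := by
  rw [measurable_pi_iff]
  intro n
  unfold Vp
  have h1 : Measurable (fun z : (∀ k, Fin (m k) → ℝ) × Ω => f0 (T n z.2)) :=
    hf0.comp ((hT n).comp measurable_snd)
  have h2 : Measurable (fun z : (∀ k, Fin (m k) → ℝ) × Ω => pert ε pr z.1 (T n z.2)) := by
    have hk : ∀ k, Measurable (fun z : (∀ k, Fin (m k) → ℝ) × Ω =>
        amp ε k * clip (z.1 k (pr k (T n z.2)))) := by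
      intro k
      apply Measurable.const_mul
      apply measurable_clip.comp
      have e : (fun z : (∀ k, Fin (m k) → ℝ) × Ω => z.1 k (pr k (T n z.2)))
          = fun z => ∑ j : Fin (m k), if pr k (T n z.2) = j then z.1 k j else 0 := by
        funext z
        simp
      rw [e]
      apply Finset.measurable_fun_sum
      intro j _
      apply Measurable.ite
      · have hm : Measurable (fun z : (∀ k, Fin (m k) → ℝ) × Ω => pr k (T n z.2)) :=
          (hpr k).comp ((hT n).comp measurable_snd)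
        exact hm (measurableSet_singleton j)
      · exact ((measurable_pi_apply j).comp ((measurable_pi_apply k).comp measurable_fst))
      · exact measurable_const
    apply measurable_of_tendsto_metrizable
      (f := fun (N : ℕ) (z : (∀ k, Fin (m k) → ℝ) × Ω) =>
        ∑ k ∈ Finset.range N, amp ε k * clip (z.1 k (pr k (T n z.2))))
    · intro N
      exact Finset.measurable_fun_sum _ fun k _ => hk k
    · rw [tendsto_pi_nhds]
      intro z
      exact (summable_pert hε pr z.1 (T n z.2)).hasSum.tendsto_sum_nat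
  exact h1.add h2

end Pool.Agent.R993.LP.M
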