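import Pool.Agent.R993.LP.Defs

/-! # Resampling one coordinate, and iterated averages as expectations -/

namespace Pool.Agent.R993.LP.M

open MeasureTheory Filter Topology
open scoped ENNReal

/-- resampling one coordinate preserves a product measure -/
lemma resample_map {ι : Type*} [DecidableEq ι] {X : ι → Type*} [∀ i, MeasurableSpace (X i)]
    (μ : ∀ i, Measure (X i)) [∀ i, IsProbabilityMeasure (μ i)] (m : ι) :
    Measure.map (fun p : (∀ i, X i) × X m => Function.update p.1 m p.2)
      ((Measure.infinitePi μ).prod (μ m)) = Measure.infinitePi μ := by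
  have hmeas : Measurable (fun p : (∀ i, X i) × X m => Function.update p.1 m p.2) := by
    rw [measurable_pi_iff]
    intro i
    by_cases h : i = m
    · subst h
      simpa using measurable_snd
    · simp only [Function.update_of_ne h]
      exact (measurable_pi_apply i).comp measurable_fst
  apply Measure.eq_infinitePi
  intro s t ht
  rw [Measure.map_apply hmeas (MeasurableSet.pi s.countable_toSet fun i _ => ht i)]
  by_cases hm : m ∈ s
  · have e : (fun p : (∀ i, X i) × X m => Function.update p.1 m p.2) ⁻¹' (Set.pi s t)
        = (Set.pi (s.erase m : Finset ι) t) ×ˢ (t m) := by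
      ext ⟨x, y⟩
      simp only [Set.mem_preimage, Set.mem_pi, Finset.mem_coe, Set.mem_prod, Finset.mem_erase]
      constructor
      · intro h
        refine ⟨fun i hi => ?_, ?_⟩
        · have := h i hi.2
          rwa [Function.update_of_ne hi.1] at this
        · have := h m hm
          rwa [Function.update_self] at this
      · rintro ⟨h1, h2⟩ i hi
        by_cases him : i = m
        · subst him; rwa [Function.update_self]
        · rw [Function.update_of_ne him]; exact h1 i ⟨him, hi⟩
    rw [e, Measure.prod_prod, Measure.infinitePi_pi _ (fun i _ => ht i), mul_comm]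
    exact Finset.mul_prod_erase s (fun i => μ i (t i)) hm
  · have e : (fun p : (∀ i, X i) × X m => Function.update p.1 m p.2) ⁻¹' (Set.pi s t)
        = (Set.pi s t) ×ˢ Set.univ := by
      ext ⟨x, y⟩
      simp only [Set.mem_preimage, Set.mem_pi, Finset.mem_coe, Set.mem_prod, Set.mem_univ, and_true]
      constructor
      · intro h i hi
        have := h i hi
        rwa [Function.update_of_ne (ne_of_mem_of_not_mem hi hm)] at this
      · intro h i hi
        rw [Function.update_of_ne (ne_of_mem_of_not_mem hi hm)]
        exact h i hi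
    rw [e, Measure.prod_prod, Measure.infinitePi_pi _ (fun i _ => ht i)]
    simp

lemma measurable_upd {ι : Type*} [DecidableEq ι] {X : ι → Type*} [∀ i, MeasurableSpace (X i)]
    (m : ι) : Measurable (fun p : (∀ i, X i) × X m => Function.update p.1 m p.2) := by
  rw [measurable_pi_iff]
  intro i
  by_cases h : i = m
  · subst h
    simpa using measurable_snd
  · simp only [Function.update_of_ne h]
    exact (measurable_pi_apply i).comp measurable_fst

lemma resample {ι : Type*} [DecidableEq ι] {X : ι → Type*} [∀ i, MeasurableSpace (X i)]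
    (μ : ∀ i, Measure (X i)) [∀ i, IsProbabilityMeasure (μ i)] (m : ι)
    {G : (∀ i, X i) → ℝ≥0∞} (hG : Measurable G) :
    ∫⁻ x, G x ∂(Measure.infinitePi μ)
      = ∫⁻ x, ∫⁻ y, G (Function.update x m y) ∂(μ m) ∂(Measure.infinitePi μ) := by
  have h := resample_map μ m
  have hm := measurable_upd (X := X) m
  calc ∫⁻ x, G x ∂(Measure.infinitePi μ)
      = ∫⁻ x, G x ∂(Measure.map (fun p : (∀ i, X i) × X m => Function.update p.1 m p.2)
          ((Measure.infinitePi μ).prod (μ m))) := by rw [h]
    _ = ∫⁻ p, G (Function.update p.1 m p.2) ∂((Measure.infinitePi μ).prod (μ m)) :=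
        lintegral_map hG hm
    _ = _ := by
        rw [lintegral_prod]
        exact (hG.comp hm).aemeasurable

variable {F : Type*} [Fintype F] [DecidableEq F]

/-- the law of the finite family of site variables -/
noncomputable def plaw (F : Type*) [Fintype F] : Measure (F → ℝ) := Measure.pi (fun _ : F => law)

lemma resample_fin [IsProbabilityMeasure law] (i : F) {G : (F → ℝ) → ℝ≥0∞} (hG : Measurable G) :
    ∫⁻ y, G y ∂(plaw F) = ∫⁻ y, ∫⁻ t, G (Function.update y i t) ∂law ∂(plaw F) := by
  have := resample (fun _ : F => law) i hG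
  rwa [Measure.infinitePi_eq_pi] at this

lemma measurable_stp {α : Type*} [MeasurableSpace α] {f : α → ℝ} {g : α → ℝ × ℝ}
    (hf : Measurable f) (hg : Measurable g) : Measurable (fun p => stp (f p) (g p)) := by
  unfold stp
  fun_prop

lemma measurable_avg [IsProbabilityMeasure law] (δ c : ℝ) {Φ : ℝ × ℝ → ℝ≥0∞} (hΦ : Measurable Φ) :
    Measurable (avg δ c Φ) := by
  unfold avg
  apply Measurable.lintegral_prod_right'
    (f := fun p : (ℝ × ℝ) × ℝ => Φ (stp (c - δ * p.2) p.1))
  apply hΦ.comp
  exact measurable_stp (by fun_prop) (by fun_prop)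

lemma measurable_iter [IsProbabilityMeasure law] (δ : ℝ) (n : ℕ) (c : ℕ → ℝ) {Φ : ℝ × ℝ → ℝ≥0∞}
    (hΦ : Measurable Φ) : Measurable (iter δ n c Φ) := by
  induction n generalizing c with
  | zero => exact hΦ
  | succ n ih => exact measurable_avg δ (c 0) (ih _)

lemma run_succ' (a : ℕ → ℝ) (n : ℕ) (v : ℝ × ℝ) :
    run a (n + 1) v = run (fun i => a (i + 1)) n (stp (a 0) v) := by
  induction n with
  | zero => rfl
  | succ n ih =>
    show stp (a (n + 1)) (run a (n + 1) v) = _
    rw [ih]
    rfl

lemma run_add (a : ℕ → ℝ) (m n : ℕ) (v : ℝ × ℝ) :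
    run a (m + n) v = run (fun i => a (m + i)) n (run a m v) := by
  induction n with
  | zero => rfl
  | succ n ih =>
    show stp (a (m + n)) (run a (m + n) v) = _
    rw [ih]
    rfl

lemma run_congr {a b : ℕ → ℝ} {n : ℕ} (h : ∀ i < n, a i = b i) (v : ℝ × ℝ) :
    run a n v = run b n v := by
  induction n with
  | zero => rfl
  | succ n ih =>
    show stp (a n) (run a n v) = stp (b n) (run b n v)
    rw [ih fun i hi => h i (Nat.lt_succ_of_lt hi), h n (Nat.lt_succ_self n)]

/-- the function v of the site variables does not depend on the variable i -/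
def Indep {α : Type*} (v : (F → ℝ) → α) (i : F) : Prop :=
  ∀ y t, v (Function.update y i t) = v y

lemma measurable_run (n : ℕ) {a : (F → ℝ) → ℕ → ℝ} (ha : ∀ i, Measurable fun y => a y i)
    {v : (F → ℝ) → ℝ × ℝ} (hv : Measurable v) : Measurable (fun y => run (a y) n (v y)) := by
  induction n with
  | zero => exact hv
  | succ n ih => exact measurable_stp (ha n) ih

/-- the expectation over the site variables used in a run is an iterated average -/
lemma lintegral_run [IsProbabilityMeasure law] {δ : ℝ} {n : ℕ} {c : ℕ → ℝ} {idx : ℕ → F}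
    (hinj : Set.InjOn idx (Set.Iio n)) {v : (F → ℝ) → ℝ × ℝ} (hv : Measurable v)
    (hvi : ∀ i < n, Indep v (idx i)) {G : (F → ℝ) → ℝ≥0∞} (hG : Measurable G)
    (hGi : ∀ i < n, Indep G (idx i)) {Φ : ℝ × ℝ → ℝ≥0∞} (hΦ : Measurable Φ) :
    ∫⁻ y, G y * Φ (run (fun i => c i - δ * y (idx i)) n (v y)) ∂(plaw F)
      = ∫⁻ y, G y * iter δ n c Φ (v y) ∂(plaw F) := by
  induction n generalizing c idx v with
  | zero => rfl
  | succ n ih =>
    have hinj' : Set.InjOn (fun i => idx (i + 1)) (Set.Iio n) := by
      intro i hi j hj hij
      have := @hinj (i + 1) (by simpa using hi) (j + 1) (by simpa using hj) hij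
      omega
    have hne : ∀ i < n, idx (i + 1) ≠ idx 0 := by
      intro i hi h
      have := @hinj (i + 1) (by simpa using hi) 0 (by simp) h
      omega
    set v' : (F → ℝ) → ℝ × ℝ := fun y => stp (c 0 - δ * y (idx 0)) (v y) with hv'
    have hv'm : Measurable v' := measurable_stp (by fun_prop) hv
    have hv'i : ∀ i < n, Indep v' (idx (i + 1)) := by
      intro i hi y t
      simp only [hv']
      rw [hvi (i + 1) (by omega) y t, Function.update_of_ne (hne i hi).symm]
    have h1 := ih (c := fun i => c (i + 1)) (idx := fun i => idx (i + 1)) hinj' hv'm hv'i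
      (fun i hi => hGi (i + 1) (by omega))
    have h2 : ∀ y : F → ℝ, run (fun i => c i - δ * y (idx i)) (n + 1) (v y)
        = run (fun i => c (i + 1) - δ * y (idx (i + 1))) n (v' y) := by
      intro y
      rw [run_succ']
    simp only [h2]
    rw [h1]
    have hm : Measurable (fun y => G y * iter δ n (fun i => c (i + 1)) Φ (v' y)) :=
      hG.mul ((measurable_iter δ n _ hΦ).comp hv'm)
    rw [resample_fin (idx 0) hm]
    refine lintegral_congr fun y => ?_
    have h3 : ∀ t, G (Function.update y (idx 0) t)
        * iter δ n (fun i => c (i + 1)) Φ (v' (Function.update y (idx 0) t))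
        = G y * iter δ n (fun i => c (i + 1)) Φ (stp (c 0 - δ * t) (v y)) := by
      intro t
      rw [hGi 0 (by omega) y t]
      simp only [hv']
      rw [hvi 0 (by omega) y t, Function.update_self]
    simp only [h3]
    rw [lintegral_const_mul]
    · rfl
    · apply (measurable_iter δ n _ hΦ).comp
      exact measurable_stp (by fun_prop) (by fun_prop)

end Pool.Agent.R993.LP.M
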