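import Pool.Agent.R993.LP.Run

/-! # Solutions on half lines: deterministic identities -/

namespace Pool.Agent.R993.LP.M

open MeasureTheory Filter Topology
open scoped ENNReal

lemma run_snd (a : ℕ → ℝ) (n : ℕ) (v : ℝ × ℝ) : (run a (n + 1) v).2 = (run a n v).1 := rfl

lemma run_fst (a : ℕ → ℝ) (n : ℕ) (v : ℝ × ℝ) :
    (run a (n + 1) v).1 = a n * (run a n v).1 - (run a n v).2 := rfl

lemma sol_gt {N n : ℕ} (a : ℕ → ℝ) (h : N < n) : sol N a n = 0 := by
  unfold sol
  rw [if_neg (by omega)]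

lemma sol_le {N n : ℕ} (a : ℕ → ℝ) (h : n ≤ N) :
    sol N a n = (run (fun i => a (N - i)) (N - n) (1, 0)).1 := by
  unfold sol
  rw [if_pos h]

lemma sol_self (N : ℕ) (a : ℕ → ℝ) : sol N a N = 1 := by
  rw [sol_le a le_rfl, Nat.sub_self]
  rfl

lemma run_eq_sol {N n : ℕ} (a : ℕ → ℝ) (h : n ≤ N) :
    run (fun i => a (N - i)) (N - n) (1, 0) = (sol N a n, sol N a (n + 1)) := by
  apply Prod.ext
  · exact (sol_le a h).symm
  · show _ = sol N a (n + 1)
    by_cases h1 : n + 1 ≤ N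
    · rw [sol_le a h1]
      have e : N - n = (N - (n + 1)) + 1 := by omega
      rw [e, run_snd]
    · have e : N = n := by omega
      subst e
      rw [Nat.sub_self, sol_gt a (Nat.lt_succ_self _)]
      rfl

/-- the recursion for the solution -/
lemma sol_rec {N n : ℕ} (a : ℕ → ℝ) (h : n + 1 ≤ N) :
    sol N a n = a (n + 1) * sol N a (n + 1) - sol N a (n + 2) := by
  have h1 := run_eq_sol a h
  have e : N - n = (N - (n + 1)) + 1 := by omega
  rw [sol_le a (by omega), e, run_fst, h1]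
  have e2 : N - (N - (n + 1)) = n + 1 := by omega
  rw [e2]

lemma sol_congr {N : ℕ} {a b : ℕ → ℝ} (h : ∀ i, 1 ≤ i → i ≤ N → a i = b i) (n : ℕ) :
    sol N a n = sol N b n := by
  unfold sol
  split_ifs with h1
  · rw [run_congr (b := fun i => b (N - i))]
    intro i hi
    exact h _ (by omega) (by omega)
  · rfl

lemma unrm_congr {N : ℕ} {a b : ℕ → ℝ} (h : ∀ i, 1 ≤ i → i ≤ N → a i = b i) (n : ℕ) :
    unrm N a n = unrm N b n := by
  unfold unrm
  rw [sol_congr h, sol_congr h]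

lemma unrm_gt {N n : ℕ} (a : ℕ → ℝ) (h : N < n) : unrm N a n = 0 := by
  unfold unrm
  rw [sol_gt a h, zero_div]

lemma unrm_zero {N : ℕ} {a : ℕ → ℝ} (h : sol N a 0 ≠ 0) : unrm N a 0 = 1 := div_self h

lemma unrm_rec {N n : ℕ} (a : ℕ → ℝ) (h : n + 1 ≤ N) :
    unrm N a n = a (n + 1) * unrm N a (n + 1) - unrm N a (n + 2) := by
  unfold unrm
  rw [sol_rec a h]
  ring

/-- the solution from the left: lft a n = r n with r 0 = 0, r 1 = 1 -/
noncomputable def lft (a : ℕ → ℝ) (n : ℕ) : ℝ := (run (fun i => a (i + 1)) n (1, 0)).2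

lemma lft_zero (a : ℕ → ℝ) : lft a 0 = 0 := rfl
lemma lft_one (a : ℕ → ℝ) : lft a 1 = 1 := rfl
lemma lft_succ (a : ℕ → ℝ) (n : ℕ) : lft a (n + 1) = (run (fun i => a (i + 1)) n (1, 0)).1 := rfl
lemma lft_rec (a : ℕ → ℝ) (n : ℕ) : lft a (n + 2) = a (n + 1) * lft a (n + 1) - lft a n := rfl

/-- the difference of two normalised solutions -/
lemma diff_eq {N N' : ℕ} (hNN : N ≤ N') {a : ℕ → ℝ} (h1 : sol N a 0 ≠ 0) (h2 : sol N' a 0 ≠ 0)
    (h3 : lft a (N + 1) ≠ 0) {n : ℕ} (hn : n ≤ N + 1) :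
    unrm N' a n - unrm N a n = unrm N' a (N + 1) * (lft a n / lft a (N + 1)) := by
  have key : ∀ n, n ≤ N + 1 → unrm N' a n - unrm N a n
      = (unrm N' a 1 - unrm N a 1) * lft a n := by
    intro n
    induction n using Nat.twoStepInduction with
    | zero => intro _; rw [unrm_zero h1, unrm_zero h2, lft_zero]; ring
    | one => intro _; rw [lft_one, mul_one]
    | more n ih1 ih2 =>
      intro h
      have e1 := unrm_rec (N := N') a (show n + 1 ≤ N' by omega)
      have e2 := unrm_rec (N := N) a (show n + 1 ≤ N by omega)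
      have i1 := ih1 (by omega)
      have i2 := ih2 (by omega)
      rw [lft_rec]
      linear_combination e1 - e2 + a (n + 1) * i2 - i1
  have k1 := key n hn
  have k2 := key (N + 1) le_rfl
  rw [unrm_gt a (Nat.lt_succ_self N), sub_zero] at k2
  rw [k1, k2]
  field_simp

/-- if all coefficients are at least 2 in modulus, the first value is at most 1 in modulus -/
lemma unrm_one_le {N : ℕ} {a : ℕ → ℝ} (h : ∀ i, 1 ≤ i → i ≤ N → 2 ≤ |a i|) :
    |unrm N a 1| ≤ 1 := by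
  have key : ∀ k, k ≤ N → |sol N a (N - k + 1)| ≤ |sol N a (N - k)| := by
    intro k
    induction k with
    | zero =>
      intro _
      rw [Nat.sub_zero, sol_gt a (Nat.lt_succ_self N), abs_zero]
      exact abs_nonneg _
    | succ k ih =>
      intro hk
      have h1 := ih (by omega)
      have e : N - (k + 1) + 1 = N - k := by omega
      have e2 := sol_rec (N := N) (n := N - (k + 1)) a (by omega)
      rw [e2, e]
      have e3 : N - (k + 1) + 2 = N - k + 1 := by omega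
      rw [e3]
      have h4 := h (N - k) (by omega) (by omega)
      have h5 : |a (N - k) * sol N a (N - k)| - |sol N a (N - k + 1)|
          ≤ |a (N - k) * sol N a (N - k) - sol N a (N - k + 1)| := abs_sub_abs_le_abs_sub _ _
      rw [abs_mul] at h5
      have h6 : 2 * |sol N a (N - k)| ≤ |a (N - k)| * |sol N a (N - k)| :=
        mul_le_mul_of_nonneg_right h4 (abs_nonneg _)
      linarith
  have h1 := key N le_rfl
  rw [Nat.sub_self, zero_add] at h1
  unfold unrm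
  rw [abs_div]
  exact div_le_one_of_le₀ h1 (abs_nonneg _)

lemma eabs_mul_le {x y : ℝ≥0∞} (h : x ≤ y) : x ^ (1 / 2 : ℝ) * y ^ (-(1 / 2) : ℝ) ≤ 1 := by
  rw [ENNReal.rpow_neg]
  calc x ^ (1 / 2 : ℝ) * (y ^ (1 / 2 : ℝ))⁻¹ ≤ y ^ (1 / 2 : ℝ) * (y ^ (1 / 2 : ℝ))⁻¹ := by
        gcongr
    _ ≤ 1 := ENNReal.mul_inv_le_one _

lemma enorm_fst_le (v : ℝ × ℝ) : ‖v.1‖ₑ ≤ ‖v‖ₑ := by
  rw [← ofReal_norm, ← ofReal_norm]
  exact ENNReal.ofReal_le_ofReal (norm_fst_le v)

/-- the fractional moment estimate for iterated averages -/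
def FM (δ M : ℝ) (C q : ℝ≥0∞) : Prop :=
  ∀ c : ℕ → ℝ, (∀ i, |c i| ≤ M) → ∀ n : ℕ, 1 ≤ n →
    ∀ v : ℝ × ℝ, iter δ n c hs v ≤ C * q ^ n * ‖v‖ₑ ^ (-(1 / 2) : ℝ)

lemma measurable_hs : Measurable hs := by
  unfold hs
  fun_prop

variable {F : Type*} [Fintype F] [DecidableEq F]

instance [IsProbabilityMeasure law] : IsProbabilityMeasure (plaw F) := by
  unfold plaw; infer_instance

/-- fractional moments of ratios -/
lemma ratio [IsProbabilityMeasure law] {δ M : ℝ} {C q : ℝ≥0∞} (h : FM δ M C q) {m n : ℕ}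
    (hn : 1 ≤ n) {c : ℕ → ℝ} (hc : ∀ i, |c i| ≤ M) {idx : ℕ → F}
    (hinj : Set.InjOn idx (Set.Iio (m + n))) (v0 : ℝ × ℝ) :
    ∫⁻ y, ‖(run (fun i => c i - δ * y (idx i)) m v0).1‖ₑ ^ (1 / 2 : ℝ)
      * ‖(run (fun i => c i - δ * y (idx i)) (m + n) v0).1‖ₑ ^ (-(1 / 2) : ℝ) ∂(plaw F)
      ≤ C * q ^ n := by
  set v : (F → ℝ) → ℝ × ℝ := fun y => run (fun i => c i - δ * y (idx i)) m v0 with hv
  have hvm : Measurable v := measurable_run m (fun i => by fun_prop) measurable_const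
  have hvi : ∀ i < n, Indep v (idx (m + i)) := by
    intro i hi y t
    simp only [hv]
    apply run_congr
    intro j hj
    have hne : idx j ≠ idx (m + i) := by
      intro he
      have := @hinj j (by simp; omega) (m + i) (by simp; omega) he
      omega
    rw [Function.update_of_ne hne]
  have hinj' : Set.InjOn (fun i => idx (m + i)) (Set.Iio n) := by
    intro i hi j hj hij
    have hi' : i < n := hi
    have hj' : j < n := hj
    have := @hinj (m + i) (by simp; omega) (m + j) (by simp; omega) hij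
    omega
  have hG : Measurable (fun y => ‖(v y).1‖ₑ ^ (1 / 2 : ℝ)) := by fun_prop
  have hGi : ∀ i < n, Indep (fun y => ‖(v y).1‖ₑ ^ (1 / 2 : ℝ)) (idx (m + i)) := by
    intro i hi y t
    show ‖(v (Function.update y (idx (m + i)) t)).1‖ₑ ^ (1 / 2 : ℝ) = ‖(v y).1‖ₑ ^ (1 / 2 : ℝ)
    rw [hvi i hi y t]
  have key := lintegral_run (δ := δ) (n := n) (c := fun i => c (m + i)) hinj' hvm hvi hG hGi
    measurable_hs
  have e : ∀ y, ‖(run (fun i => c i - δ * y (idx i)) m v0).1‖ₑ ^ (1 / 2 : ℝ)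
      * ‖(run (fun i => c i - δ * y (idx i)) (m + n) v0).1‖ₑ ^ (-(1 / 2) : ℝ)
      = ‖(v y).1‖ₑ ^ (1 / 2 : ℝ)
        * hs (run (fun i => c (m + i) - δ * y (idx (m + i))) n (v y)) := by
    intro y
    rw [run_add]
    rfl
  simp only [e]
  rw [key]
  calc ∫⁻ y, ‖(v y).1‖ₑ ^ (1 / 2 : ℝ) * iter δ n (fun i => c (m + i)) hs (v y) ∂(plaw F)
      ≤ ∫⁻ y, C * q ^ n ∂(plaw F) := by
        apply lintegral_mono
        intro y
        calc ‖(v y).1‖ₑ ^ (1 / 2 : ℝ) * iter δ n (fun i => c (m + i)) hs (v y)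
            ≤ ‖(v y).1‖ₑ ^ (1 / 2 : ℝ) * (C * q ^ n * ‖v y‖ₑ ^ (-(1 / 2) : ℝ)) := by
              gcongr
              exact h _ (fun i => hc _) n hn _
          _ = C * q ^ n * (‖(v y).1‖ₑ ^ (1 / 2 : ℝ) * ‖v y‖ₑ ^ (-(1 / 2) : ℝ)) := by ring
          _ ≤ C * q ^ n * 1 := by
              gcongr
              exact eabs_mul_le (enorm_fst_le _)
          _ = C * q ^ n := mul_one _
    _ = C * q ^ n := by simp

end Pool.Agent.R993.LP.M
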